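import Pool.Agent.LibHM88.K1

/-
Numerical part of the construction (d = 6: o = 0, d = 7: o = 1).
-/

set_option autoImplicit false

namespace Pool.LibHM88

theorem pas2 (k : ℕ) : (k + 1).choose 2 = k + k.choose 2 := by
  have h : (k + 1).choose 2 = k.choose 1 + k.choose 2 := Nat.choose_succ_succ _ _
  rwa [Nat.choose_one_right] at h

theorem pas3 (k : ℕ) : (k + 1).choose 3 = k.choose 2 + k.choose 3 := Nat.choose_succ_succ _ _

theorem pair_inj {j k j' k' : ℕ} (h1 : 1 ≤ j) (h2 : j ≤ k) (h1' : 1 ≤ j') (h2' : j' ≤ k')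
    (h : k.choose 2 + j = k'.choose 2 + j') : j = j' ∧ k = k' := by
  have hk : k = k' := by
    rcases lt_trichotomy k k' with hlt | heq | hlt
    · have := Nat.choose_le_choose 2 (show k + 1 ≤ k' by omega)
      have := pas2 k
      omega
    · exact heq
    · have := Nat.choose_le_choose 2 (show k' + 1 ≤ k by omega)
      have := pas2 k'
      omega
  subst hk
  exact ⟨by omega, rfl⟩

theorem pair_surj (m : ℕ) (hm : 1 ≤ m) : ∃ j k, 1 ≤ j ∧ j ≤ k ∧ k.choose 2 + j = m := by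
  obtain ⟨k, j, hj, h⟩ := nf_exists (m - 1)
  exact ⟨j + 1, k + 1, by omega, by omega, by omega⟩

/-- counting pairs -/
theorem card_pairs (q N : ℕ) (hN : q + 1 ≤ N) :
    ((Finset.range N ×ˢ Finset.range N).filter
      (fun p : ℕ × ℕ => 1 ≤ p.1 ∧ p.1 ≤ p.2 ∧ p.2.choose 2 + p.1 ≤ q)).card = q := by
  have h : (Finset.Icc 1 q).card = q := by simp
  conv_rhs => rw [← h]
  apply Finset.card_bij (fun p _ => p.2.choose 2 + p.1)
  · intro p hp
    rw [Finset.mem_filter] at hp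
    rw [Finset.mem_Icc]
    exact ⟨by omega, hp.2.2.2⟩
  · rintro ⟨j, k⟩ hp ⟨j', k'⟩ hp' hh
    rw [Finset.mem_filter] at hp hp'
    obtain ⟨h1, h2⟩ := pair_inj hp.2.1 hp.2.2.1 hp'.2.1 hp'.2.2.1 hh
    simp only at h1 h2
    rw [h1, h2]
  · intro m hm
    rw [Finset.mem_Icc] at hm
    obtain ⟨j, k, h1, h2, h3⟩ := pair_surj m hm.1
    have hk : k ≤ k.choose 2 + j := by
      rcases Nat.eq_zero_or_pos k with h0 | h0
      · omega
      · obtain ⟨l, rfl⟩ : ∃ l, k = l + 1 := ⟨k - 1, by omega⟩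
        have := pas2 l
        omega
    refine ⟨(j, k), ?_, h3⟩
    rw [Finset.mem_filter, Finset.mem_product, Finset.mem_range, Finset.mem_range]
    exact ⟨⟨by simp only; omega, by simp only; omega⟩, h1, h2, by simp only; omega⟩

theorem trip_inj {i j k i' j' k' : ℕ} (h1 : 1 ≤ i) (h2 : i ≤ j) (h3 : j ≤ k) (h1' : 1 ≤ i')
    (h2' : i' ≤ j') (h3' : j' ≤ k')
    (h : (k + 1).choose 3 + j.choose 2 + i = (k' + 1).choose 3 + j'.choose 2 + i') :
    i = i' ∧ j = j' ∧ k = k' := by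
  have hb : ∀ i j k : ℕ, i ≤ j → j ≤ k →
      (k + 1).choose 3 + j.choose 2 + i ≤ (k + 2).choose 3 := by
    intro i j k hij hjk
    have a1 := pas3 (k + 1)
    have a2 := Nat.choose_le_choose 2 (show j + 1 ≤ k + 1 by omega)
    have a3 := pas2 j
    rw [show k + 1 + 1 = k + 2 from rfl] at a1
    omega
  have hk : k = k' := by
    rcases lt_trichotomy k k' with hlt | heq | hlt
    · have := Nat.choose_le_choose 3 (show k + 2 ≤ k' + 1 by omega)
      have := hb i j k h2 h3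
      omega
    · exact heq
    · have := Nat.choose_le_choose 3 (show k' + 2 ≤ k + 1 by omega)
      have := hb i' j' k' h2' h3'
      omega
  subst hk
  obtain ⟨e1, e2⟩ := pair_inj h1 h2 h1' h2' (by omega)
  exact ⟨e1, e2, rfl⟩

theorem trip_surj (m : ℕ) (hm : 1 ≤ m) :
    ∃ i j k, 1 ≤ i ∧ i ≤ j ∧ j ≤ k ∧ (k + 1).choose 3 + j.choose 2 + i = m := by
  have hex : ∃ k, m ≤ (k + 2).choose 3 := by
    refine ⟨m, ?_⟩
    have h1 := pas3 (m + 1)
    have h2 := pas2 m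
    rw [show m + 1 + 1 = m + 2 from rfl] at h1
    omega
  classical
  obtain ⟨k, hk, hk'⟩ : ∃ k, m ≤ (k + 2).choose 3 ∧ (k + 1).choose 3 < m := by
    refine ⟨Nat.find hex, Nat.find_spec hex, ?_⟩
    rcases Nat.eq_zero_or_pos (Nat.find hex) with h0 | h0
    · rw [h0]
      have : (0 + 1).choose 3 = 0 := by decide
      omega
    · have := Nat.find_min hex (show Nat.find hex - 1 < Nat.find hex by omega)
      rw [not_le, show Nat.find hex - 1 + 2 = Nat.find hex + 1 by omega] at this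
      exact this
  obtain ⟨i, j, h1, h2, h3⟩ := pair_surj (m - (k + 1).choose 3) (by omega)
  refine ⟨i, j, k, h1, h2, ?_, by omega⟩
  by_contra hc
  have a1 := pas3 (k + 1)
  rw [show k + 1 + 1 = k + 2 from rfl] at a1
  have a2 := Nat.choose_le_choose 2 (show k + 1 ≤ j by omega)
  omega

/-- counting triples -/
theorem card_trips (s N : ℕ) (hN : s + 1 ≤ N) :
    ((Finset.range N ×ˢ Finset.range N ×ˢ Finset.range N).filter
      (fun p : ℕ × ℕ × ℕ => 1 ≤ p.1 ∧ p.1 ≤ p.2.1 ∧ p.2.1 ≤ p.2.2 ∧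
        (p.2.2 + 1).choose 3 + p.2.1.choose 2 + p.1 ≤ s)).card = s := by
  have h : (Finset.Icc 1 s).card = s := by simp
  conv_rhs => rw [← h]
  apply Finset.card_bij (fun p _ => (p.2.2 + 1).choose 3 + p.2.1.choose 2 + p.1)
  · intro p hp
    rw [Finset.mem_filter] at hp
    rw [Finset.mem_Icc]
    exact ⟨by omega, hp.2.2.2.2⟩
  · rintro ⟨i, j, k⟩ hp ⟨i', j', k'⟩ hp' hh
    rw [Finset.mem_filter] at hp hp'
    obtain ⟨h1, h2, h3⟩ := trip_inj hp.2.1 hp.2.2.1 hp.2.2.2.1 hp'.2.1 hp'.2.2.1 hp'.2.2.2.1 hh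
    simp only at h1 h2 h3
    rw [h1, h2, h3]
  · intro m hm
    rw [Finset.mem_Icc] at hm
    obtain ⟨i, j, k, h1, h2, h3, h4⟩ := trip_surj m hm.1
    have hk : k ≤ (k + 1).choose 3 + j.choose 2 + i := by
      have hk1 : ∀ l : ℕ, l + 1 ≤ (l + 2).choose 3 + 1 := by
        intro l
        induction l with
        | zero => simp
        | succ l ih =>
          have a1 := pas3 (l + 2)
          have a2 : 0 < (l + 2).choose 2 := Nat.choose_pos (by omega)
          rw [show l + 2 + 1 = l + 1 + 2 by omega] at a1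
          omega
      rcases Nat.eq_zero_or_pos k with h0 | h0
      · omega
      · obtain ⟨l, rfl⟩ : ∃ l, k = l + 1 := ⟨k - 1, by omega⟩
        have := hk1 l
        rw [show l + 1 + 1 = l + 2 by omega]
        omega
    refine ⟨(i, j, k), ?_, h4⟩
    simp only [Finset.mem_filter, Finset.mem_product, Finset.mem_range]
    exact ⟨⟨by omega, by omega, by omega⟩, h1, h2, h3, by omega⟩

/-- numerical part of the construction -/
theorem cons_num (o n z2 z3 e1 e2 e3 : ℕ) (ho : o = 0 ∨ o = 1) (ho0 : o = 0 → e3 = z3)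
    (h12 : e1 ≤ e2) (h23 : e2 ≤ e3) (h3 : e3 ≤ z3) (h2 : e2 ≤ z2)
    (hr3 : o = 1 → z3 - e3 ≤ up2 (z2 - e2)) (hz : 1 ≤ z2)
    (hc : ∃ c, 1 ≤ c ∧ e1 ≤ c ∧ c ≤ n ∧ z2 ≤ (c + 1).choose 2 ∧
      z2 - e2 ≤ (c - e1 + 1).choose 2 ∧ z3 ≤ z2 + up2 (z2 - c)) :
    ∃ c q s t1 r2 τ ρ τ4 : ℕ, 1 ≤ c ∧ c ≤ n ∧ c = t1 + e1 ∧ z2 = c + q ∧ z2 = r2 + e2 ∧
      s = z3 - z2 ∧ τ + ρ + e3 = z2 + s ∧ τ4 + z3 = z2 + s ∧ τ4 ≤ τ ∧ τ ≤ r2 ∧ ρ ≤ s ∧
      (o = 0 → τ4 = τ ∧ ρ = 0) ∧ q ≤ c.choose 2 ∧ r2 ≤ (t1 + 1).choose 2 ∧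
      (∀ i j k, 1 ≤ i → i ≤ j → j ≤ k → (k + 1).choose 3 + j.choose 2 + i ≤ s →
        k.choose 2 + j ≤ q) ∧
      (∀ j k, 1 ≤ j → j ≤ k → (k + 1).choose 2 + j + 1 ≤ r2 → k.choose 2 + j ≤ q) ∧
      (∀ i j k, 1 ≤ i → i ≤ j → j ≤ k → (k + 1).choose 3 + j.choose 2 + i ≤ ρ →
        (k + 1).choose 2 + j + 1 ≤ r2) := by
  classical
  -- the least c
  let P : ℕ → Prop := fun c => 1 ≤ c ∧ e1 ≤ c ∧ z2 ≤ (c + 1).choose 2 ∧
    z2 - e2 ≤ (c - e1 + 1).choose 2
  obtain ⟨c0, a1, a2, a3, a4, a5, a6⟩ := hc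
  have hex : ∃ c, P c := ⟨c0, a1, a2, a4, a5⟩
  obtain ⟨c, hPc, hmin, hcc0⟩ : ∃ c, P c ∧ (∀ m < c, ¬ P m) ∧ c ≤ c0 :=
    ⟨Nat.find hex, Nat.find_spec hex, fun m hm => Nat.find_min hex hm,
      Nat.find_min' hex ⟨a1, a2, a4, a5⟩⟩
  obtain ⟨b1, b2, b3, b4⟩ := hPc
  have hz3 : z3 ≤ z2 + up2 (z2 - c) := by
    have := up2_mono (show z2 - c0 ≤ z2 - c by omega)
    omega
  -- what failure at c - 1 means
  have hfail : c = 1 ∨ c = e1 ∨ c.choose 2 < z2 ∨ (c - e1).choose 2 < z2 - e2 := by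
    by_contra hcon
    push Not at hcon
    obtain ⟨f1, f2, f3, f4⟩ := hcon
    refine hmin (c - 1) (by omega) ⟨by omega, by omega, ?_, ?_⟩
    · rw [show c - 1 + 1 = c by omega]
      exact f3
    · rw [show c - 1 - e1 + 1 = c - e1 by omega]
      exact f4
  have hchoose : ∀ x : ℕ, x ≤ x.choose 2 + 1 := by
    intro x
    rcases Nat.eq_zero_or_pos x with h0 | h0
    · omega
    · obtain ⟨l, rfl⟩ : ∃ l, x = l + 1 := ⟨x - 1, by omega⟩
      have := pas2 l
      omega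
  have hcz : c ≤ z2 := by
    rcases hfail with f | f | f | f
    · omega
    · omega
    · have := hchoose c
      omega
    · have := hchoose (c - e1)
      omega
  have hup := up2_eq (z2 - e2)
  refine ⟨c, z2 - c, z3 - z2, c - e1, z2 - e2, min (z2 - e2) (z2 + (z3 - z2) - e3),
    z2 + (z3 - z2) - e3 - min (z2 - e2) (z2 + (z3 - z2) - e3), z2 + (z3 - z2) - z3,
    b1, by omega, by omega, by omega, by omega, rfl, by omega, by omega, ?_, by omega, by omega,
    ?_, ?_, ?_, ?_, ?_, ?_⟩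
  · rcases ho with h | h
    · have := ho0 h
      omega
    · omega
  · intro h
    have := ho0 h
    omega
  · have := pas2 c
    omega
  · rw [show c - e1 + 1 = c - e1 + 1 from rfl]
    exact b4
  · -- K1
    intro i j k hi hij hjk hs
    by_contra hcon
    push Not at hcon
    obtain ⟨l, rfl⟩ : ∃ l, k = l + 1 := ⟨k - 1, by omega⟩
    obtain ⟨j', rfl⟩ : ∃ l, j = l + 1 := ⟨j - 1, by omega⟩
    have h1 : up2 (z2 - c) ≤ up2 ((l + 1).choose 2 + j') := up2_mono (by omega)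
    rw [up2_nf l j' (by omega)] at h1
    rw [show l + 1 + 1 = l + 2 from rfl] at hs
    omega
  · -- K2
    intro j k hj hjk hr
    have hkt : k + 1 ≤ c - e1 := by
      by_contra hcon
      have := Nat.choose_le_choose 2 (show c - e1 + 1 ≤ k + 1 by omega)
      omega
    rcases Nat.lt_or_ge (k + 1) (c - e1) with hlt | hge
    · -- t1 >= k + 2
      have hk1 := pas2 k
      rcases hfail with f | f | f | f
      · omega
      · omega
      · obtain ⟨l, hl⟩ : ∃ l, c = l + 1 := ⟨c - 1, by omega⟩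
        have h5 := pas2 l
        have h6 := Nat.choose_le_choose 2 (show k + 1 ≤ l by omega)
        rw [hl] at f ⊢
        omega
      · obtain ⟨l, hl⟩ : ∃ l, c - e1 = l + 1 := ⟨c - e1 - 1, by omega⟩
        have h5 := pas2 l
        have h6 := Nat.choose_le_choose 2 (show k + 1 ≤ l by omega)
        rw [hl] at f
        omega
    · have hk1 := pas2 k
      omega
  · -- K3
    intro i j k hi hij hjk hs
    by_contra hcon
    push Not at hcon
    have h1 : kk (z2 - e2) ≤ kk ((k + 1).choose 2 + j) := kk_mono (by omega)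
    rw [kk_nf k j hjk] at h1
    rcases ho with h | h
    · have := ho0 h
      omega
    · have := hr3 h
      omega

end Pool.LibHM88
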