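import Pool.Agent.LibHM88.Defs

/-
PLAN (K0, MEDIUM). Standard monomials (Macaulay basis theorem). Choose a linear order on V →₀ ℕ compatible with addition (Lex (V →₀ ℕ), Finsupp.Lex, or MonomialOrder.lex / degLex). For i <= m put
X_i := {u : degree u = i, e i u not in span (e i '' {u' : degree u' = i, u' < u})}. (1) card X_i = finrank of the span of all e i u, degree u = i: for a finite set S of monomials, induction on the maximum (Finset.induction_on_max):
finrank span (e '' (S ∪ {u})) = finrank span (e '' S) + (1 if e u not in span, else 0). (2) if i < m and u + v (v a variable) is in X_(i+1) then u in X_i: otherwise e i u = SUM c_u' e i u' with u' < u, the relation moves up (h), e (i+1) (u + v) = SUM c_u' e (i+1) (u' + v), u' + v < u + v: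
contradiction. (3) X := {u : degree u <= m, u in X_(degree u)}: closed under w <= u by removing one variable at a time. The sets of monomials of given degree are finite (V finite).
-/

set_option autoImplicit false

namespace Pool.LibHM88

universe u

open Classical in
private theorem K0_card {K : Type u} [Field K] {α β : Type} [LinearOrder β] (φ : α → β)
    (hφ : Function.Injective φ) {Z : Type u} [AddCommGroup Z] [Module K Z] (f : α → Z) (S : Finset α) :
    (S.filter fun u => f u ∉ Submodule.span K (f '' {w | w ∈ S ∧ φ w < φ u})).card =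
      Module.finrank K (Submodule.span K (f '' (S : Set α))) := by
  induction S using Finset.induction_on_max_value φ with
  | empty => rw [Finset.filter_empty, Finset.card_empty, Finset.coe_empty, Set.image_empty, Submodule.span_empty, finrank_bot]
  | insert a s ha hmax ih =>
    have hlt : ∀ x ∈ s, φ x < φ a := fun x hx =>
      lt_of_le_of_ne (hmax x hx) fun h => ha (hφ h ▸ hx)
    have e1 : {w | w ∈ insert a s ∧ φ w < φ a} = (s : Set α) := by
      ext w
      simp only [Finset.mem_insert, Set.mem_ofPred_eq, Finset.mem_coe]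
      constructor
      · rintro ⟨rfl | h, h'⟩
        · exact absurd h' (lt_irrefl _)
        · exact h
      · intro h
        exact ⟨Or.inr h, hlt w h⟩
    have e2 : ∀ x ∈ s, {w | w ∈ insert a s ∧ φ w < φ x} = {w | w ∈ s ∧ φ w < φ x} := by
      intro x hx
      ext w
      simp only [Finset.mem_insert, Set.mem_ofPred_eq]
      constructor
      · rintro ⟨rfl | h, h'⟩
        · exact absurd (h'.trans (hlt x hx)) (lt_irrefl _)
        · exact ⟨h, h'⟩
      · rintro ⟨h, h'⟩
        exact ⟨Or.inr h, h'⟩
    have e3 : (s.filter fun u => f u ∉ Submodule.span K (f '' {w | w ∈ insert a s ∧ φ w < φ u})) =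
        s.filter fun u => f u ∉ Submodule.span K (f '' {w | w ∈ s ∧ φ w < φ u}) := by
      apply Finset.filter_congr
      intro x hx
      rw [e2 x hx]
    have hfin : FiniteDimensional K (Submodule.span K (f '' (s : Set α))) :=
      FiniteDimensional.span_of_finite K (s.finite_toSet.image f)
    have hsup : Submodule.span K (f '' ((insert a s : Finset α) : Set α)) =
        Submodule.span K (f '' (s : Set α)) ⊔ Submodule.span K {f a} := by
      rw [Finset.coe_insert, Set.image_insert_eq, Set.insert_eq, Submodule.span_union, sup_comm]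
    rw [Finset.filter_insert, e1, e3, hsup]
    by_cases h : f a ∈ Submodule.span K (f '' (s : Set α))
    · rw [if_neg (not_not.2 h), ih]
      have h1 : Submodule.span K {f a} ≤ Submodule.span K (f '' (s : Set α)) := by
        rw [Submodule.span_le, Set.singleton_subset_iff]
        exact h
      rw [sup_eq_left.2 h1]
    · rw [if_pos h, Finset.card_insert_of_notMem (fun h' => ha (Finset.mem_filter.1 h').1), ih]
      have h0 : f a ≠ 0 := fun h' => h (h' ▸ Submodule.zero_mem _)
      have h1 := Submodule.finrank_sup_add_finrank_inf_eq (Submodule.span K (f '' (s : Set α)))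
        (Submodule.span K {f a})
      have h2 : Submodule.span K (f '' (s : Set α)) ⊓ Submodule.span K {f a} = ⊥ :=
        disjoint_iff.1 ((Submodule.disjoint_span_singleton' h0).2 h)
      rw [h2, finrank_bot, finrank_span_singleton h0, add_zero] at h1
      rw [h1]

/-- Macaulay basis: the dimensions of the spans of the monomials of degree i, when linear relations can be
multiplied by variables, are the numbers of elements of an order ideal of monomials -/
theorem mac_basis {K : Type u} [Field K] {V : Type} [Fintype V] [LinearOrder V] (m : ℕ)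
    (Z : ℕ → Type u) [∀ i, AddCommGroup (Z i)] [∀ i, Module K (Z i)]
    (e : ∀ i, (V →₀ ℕ) → Z i)
    (h : ∀ i < m, ∀ c : (V →₀ ℕ) →₀ K, (∀ u ∈ c.support, Finsupp.degree u = i) →
      (c.sum fun u a => a • e i u) = 0 →
      ∀ v : V, (c.sum fun u a => a • e (i + 1) (u + Finsupp.single v 1)) = 0) :
    ∃ X : Finset (V →₀ ℕ), (∀ u ∈ X, ∀ w, w ≤ u → w ∈ X) ∧ (∀ u ∈ X, Finsupp.degree u ≤ m) ∧
      ∀ i ≤ m, (X.filter (fun u => Finsupp.degree u = i)).card =
        Module.finrank K (Submodule.span K (e i '' {u | Finsupp.degree u = i})) := by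
  classical
  obtain ⟨φ, hφ⟩ : ∃ φ : (V →₀ ℕ) → Lex (V →₀ ℕ), φ = toLex := ⟨_, rfl⟩
  have hinj : Function.Injective φ := by rw [hφ]; exact toLex.injective
  have hadd : ∀ u w x : V →₀ ℕ, φ u < φ w → φ (u + x) < φ (w + x) := by
    intro u w x hlt
    rw [hφ] at hlt ⊢
    rw [toLex_add, toLex_add]
    exact add_lt_add_left hlt _
  have hfin : {u : V →₀ ℕ | Finsupp.degree u ≤ m}.Finite := Finsupp.finite_of_degree_le m
  obtain ⟨P, hP⟩ : ∃ P : (V →₀ ℕ) → Prop, ∀ u, P u ↔ e (Finsupp.degree u) u ∉
      Submodule.span K (e (Finsupp.degree u) '' {w | Finsupp.degree w = Finsupp.degree u ∧ φ w < φ u}) :=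
    ⟨_, fun u => Iff.rfl⟩
  have hP' : ∀ i u, Finsupp.degree u = i → (P u ↔ e i u ∉
      Submodule.span K (e i '' {w | Finsupp.degree w = i ∧ φ w < φ u})) := by
    rintro i u rfl
    exact hP u
  -- removing one variable
  have hstep : ∀ u : V →₀ ℕ, ∀ v : V, Finsupp.degree u < m → P (u + Finsupp.single v 1) → P u := by
    intro u v hu hPu
    have hd : Finsupp.degree (u + Finsupp.single v 1) = Finsupp.degree u + 1 := by
      rw [map_add, Finsupp.degree_single]
    rw [hP' _ _ hd] at hPu
    rw [hP u]
    intro hmem
    apply hPu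
    rw [Finsupp.mem_span_image_iff_linearCombination] at hmem
    obtain ⟨l, hl, hlu⟩ := hmem
    have hls : ∀ w ∈ l.support, Finsupp.degree w = Finsupp.degree u ∧ φ w < φ u := by
      intro w hw
      exact (Finsupp.mem_supported K l).1 hl hw
    have hc := h (Finsupp.degree u) hu (Finsupp.single u 1 - l) (by
      intro w hw
      rcases Finset.mem_union.1 (Finsupp.support_sub hw) with hw' | hw'
      · rw [Finset.mem_singleton.1 (Finsupp.support_single_subset hw')]
      · exact (hls w hw').1) (by
      rw [Finsupp.sum_sub_index (fun a b c => sub_smul _ _ _), Finsupp.sum_single_index (by rw [zero_smul]),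
        one_smul, ← hlu, Finsupp.linearCombination_apply, sub_self]) v
    rw [Finsupp.sum_sub_index (fun a b c => sub_smul _ _ _), Finsupp.sum_single_index (by rw [zero_smul]),
      one_smul, sub_eq_zero] at hc
    rw [hc]
    refine Submodule.sum_mem _ fun w hw => Submodule.smul_mem _ _ (Submodule.subset_span ?_)
    refine ⟨w + Finsupp.single v 1, ⟨?_, hadd _ _ _ (hls w hw).2⟩, rfl⟩
    rw [map_add, Finsupp.degree_single, (hls w hw).1]
  have hdown : ∀ n : ℕ, ∀ d w : V →₀ ℕ, Finsupp.degree d = n → Finsupp.degree (w + d) ≤ m → P (w + d) →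
      P w := by
    intro n
    induction n with
    | zero =>
      intro d w hd _ hPw
      rw [Finsupp.degree_eq_zero_iff] at hd
      rwa [hd, add_zero] at hPw
    | succ n ih =>
      intro d w hd hm hPw
      have hd0 : d ≠ 0 := by
        rintro rfl
        rw [map_zero] at hd
        omega
      obtain ⟨v, hv⟩ : ∃ v, d v ≠ 0 := by
        by_contra hcon
        push Not at hcon
        exact hd0 (Finsupp.ext hcon)
      have hle : Finsupp.single v 1 ≤ d := by
        rw [Finsupp.single_le_iff]
        omega
      obtain ⟨d', rfl⟩ : ∃ d', d = d' + Finsupp.single v 1 := ⟨d - Finsupp.single v 1,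
        (tsub_add_cancel_of_le hle).symm⟩
      rw [map_add, Finsupp.degree_single] at hd
      rw [← add_assoc] at hPw hm
      rw [map_add (Finsupp.degree) (w + d'), Finsupp.degree_single] at hm
      exact ih d' w (by omega) (by omega) (hstep _ v (by omega) hPw)
  refine ⟨hfin.toFinset.filter P, ?_, ?_, ?_⟩
  · intro u hu w hw
    rw [Finset.mem_filter, Set.Finite.mem_toFinset] at hu ⊢
    obtain ⟨hu1, hu2⟩ := hu
    obtain ⟨d, rfl⟩ : ∃ d, u = w + d := ⟨u - w, (add_tsub_cancel_of_le hw).symm⟩
    have hu1' : Finsupp.degree (w + d) ≤ m := hu1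
    refine ⟨?_, hdown _ d w rfl hu1' hu2⟩
    show Finsupp.degree w ≤ m
    rw [map_add] at hu1'
    omega
  · intro u hu
    rw [Finset.mem_filter, Set.Finite.mem_toFinset] at hu
    exact hu.1
  · intro i hi
    have h1 := K0_card (K := K) φ hinj (e i) (hfin.toFinset.filter fun u => Finsupp.degree u = i)
    have h2 : ((hfin.toFinset.filter fun u => Finsupp.degree u = i : Finset (V →₀ ℕ)) : Set (V →₀ ℕ)) =
        {u | Finsupp.degree u = i} := by
      ext u
      simp only [Finset.coe_filter, Set.Finite.mem_toFinset, Set.mem_ofPred_eq]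
      constructor
      · exact fun h => h.2
      · exact fun h => ⟨by omega, h⟩
    rw [h2] at h1
    rw [← h1]
    congr 1
    ext u
    simp only [Finset.mem_filter, Set.Finite.mem_toFinset, Set.mem_ofPred_eq]
    constructor
    · rintro ⟨⟨h3, h4⟩, h5⟩
      refine ⟨⟨h3, h5⟩, ?_⟩
      have h6 := (hP' i u h5).1 h4
      convert h6 using 5
      ext w
      constructor
      · rintro ⟨⟨_, h7⟩, h8⟩
        exact ⟨h7, h8⟩
      · rintro ⟨h7, h8⟩
        exact ⟨⟨by omega, h7⟩, h8⟩
    · rintro ⟨⟨h3, h5⟩, h4⟩
      refine ⟨⟨h3, (hP' i u h5).2 ?_⟩, h5⟩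
      convert h4 using 5
      ext w
      constructor
      · rintro ⟨h7, h8⟩
        exact ⟨⟨by omega, h7⟩, h8⟩
      · rintro ⟨⟨_, h7⟩, h8⟩
        exact ⟨h7, h8⟩

end Pool.LibHM88
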