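import Pool.Agent.LibHM88.K2

/-
PLAN (K4, MEDIUM). Macaulay bound 2 -> 3 for an order ideal X of monomials. Map a quadratic monomial u of X to the 2-set f2 u of Option V: support S mapped by some, with none inserted if S has one element (u = v^2).
E := image of the quadratic monomials (injective, so E.card = number q of quadrics), T := all 3-subsets t of Option V (inside the union of E) with t.erase v in E for v in t. kk_bound: T.card <= kk q. Injection from the cubics of X to
E ⊕ T (so the number of cubics is <= q + kk q = up2 q, up2_eq): v^3 goes to the edge {none, v}; u v w distinct goes to the triangle {u, v, w}; v^2 w goes to the triangle {none, v, w} if w^2 in X and w < v, otherwise to the edge {v, w}.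
(v^2 w in X gives v^2, v w in X. If v^2 w and w^2 v are both in X, then v^2, w^2 in X and exactly one of the two goes to the triangle.) Other counts are welcome: cubics <= loops + SUM_(v loop) deg v + triangles, edges inside the loop set counted twice.
up2_quad: the quadrics inject into the multisets of size 2 of the linear monomials (or: pairs v <= w of Finset X_1): Finset.card_sym / Nat.choose, number C(n+1, 2).
-/

set_option autoImplicit false

namespace Pool.LibHM88

private theorem K4_split {V : Type} (u : V →₀ ℕ) (n : ℕ) (h : u.degree = n + 1) :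
    ∃ a w, u = Finsupp.single a 1 + w ∧ w.degree = n := by
  classical
  have hne : u ≠ 0 := by
    rintro rfl
    simp at h
  obtain ⟨a, ha⟩ := Finsupp.ne_iff.mp hne
  have h1 : Finsupp.single a 1 + (u - Finsupp.single a 1) = u :=
    add_tsub_cancel_of_le (Finsupp.single_le_iff.mpr (Nat.one_le_iff_ne_zero.mpr ha))
  refine ⟨a, u - Finsupp.single a 1, h1.symm, ?_⟩
  have h2 := congrArg Finsupp.degree h1
  rw [map_add, Finsupp.degree_single, h] at h2
  omega

private theorem K4_deg1 {V : Type} (u : V →₀ ℕ) (h : u.degree = 1) :
    ∃ a, u = Finsupp.single a 1 := by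
  obtain ⟨a, w, hw, hd⟩ := K4_split u 0 h
  rw [Finsupp.degree_eq_zero_iff] at hd
  exact ⟨a, by rw [hw, hd, add_zero]⟩

private theorem K4_deg2 {V : Type} (u : V →₀ ℕ) (h : u.degree = 2) :
    ∃ a b, u = Finsupp.single a 1 + Finsupp.single b 1 := by
  obtain ⟨a, w, hw, hd⟩ := K4_split u 1 h
  obtain ⟨b, rfl⟩ := K4_deg1 w hd
  exact ⟨a, b, hw⟩

private theorem K4_deg3 {V : Type} [LinearOrder V] (u : V →₀ ℕ) (h : u.degree = 3) :
    ∃ a b c, a ≤ b ∧ b ≤ c ∧
      u = Finsupp.single a 1 + Finsupp.single b 1 + Finsupp.single c 1 := by
  obtain ⟨a, w, hw, hd⟩ := K4_split u 2 h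
  obtain ⟨b, c, rfl⟩ := K4_deg2 w hd
  rcases le_total a b with h1 | h1 <;> rcases le_total b c with h2 | h2 <;>
    rcases le_total a c with h3 | h3
  · exact ⟨a, b, c, h1, h2, by rw [hw, add_assoc]⟩
  · exact ⟨a, b, c, h1, h2, by rw [hw, add_assoc]⟩
  · exact ⟨a, c, b, h3, h2, by rw [hw]; abel⟩
  · exact ⟨c, a, b, h3, h1, by rw [hw]; abel⟩
  · exact ⟨b, a, c, h1, h3, by rw [hw]; abel⟩
  · exact ⟨b, c, a, h2, h3, by rw [hw]; abel⟩
  · exact ⟨c, b, a, h2, h1, by rw [hw]; abel⟩
  · exact ⟨c, b, a, h2, h1, by rw [hw]; abel⟩

private noncomputable def K4_m2 {V : Type} (a b : V) : V →₀ ℕ := Finsupp.single a 1 + Finsupp.single b 1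

private noncomputable def K4_m3 {V : Type} (p : V × V × V) : V →₀ ℕ :=
  Finsupp.single p.1 1 + Finsupp.single p.2.1 1 + Finsupp.single p.2.2 1

/-- the edge of a quadratic monomial -/
private noncomputable def K4_f2 {V : Type} [DecidableEq V] (u : V →₀ ℕ) : Finset (Option V) :=
  if u.support.card = 1 then insert none (u.support.image some) else u.support.image some

private theorem K4_f2_eq {V : Type} [DecidableEq V] (a : V) :
    K4_f2 (K4_m2 a a) = {none, some a} := by
  unfold K4_f2 K4_m2
  have h : (Finsupp.single a 1 + Finsupp.single a 1 : V →₀ ℕ).support = {a} := by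
    rw [← Finsupp.single_add]
    exact Finsupp.support_single_ne_zero _ (by norm_num)
  rw [h]
  simp

private theorem K4_f2_ne {V : Type} [DecidableEq V] (a b : V) (hab : a ≠ b) :
    K4_f2 (K4_m2 a b) = {some a, some b} := by
  unfold K4_f2 K4_m2
  have h : (Finsupp.single a 1 + Finsupp.single b 1 : V →₀ ℕ).support = {a, b} := by
    ext x
    simp only [Finsupp.mem_support_iff, Finsupp.add_apply, Finsupp.single_apply,
      Finset.mem_insert, Finset.mem_singleton]
    by_cases h1 : a = x <;> by_cases h2 : b = x <;> simp [h1, h2, eq_comm]
  rw [h, Finset.card_pair hab]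
  simp

private theorem K4_T {W : Type} [DecidableEq W] (E : Finset (Finset W)) (x y z : W) (hxy : x ≠ y)
    (hyz : y ≠ z) (hxz : x ≠ z) (h1 : {x, y} ∈ E) (h2 : {y, z} ∈ E) (h3 : {x, z} ∈ E) :
    ({x, y, z} : Finset W) ∈ (Finset.powersetCard 3 (E.biUnion id)).filter
      (fun t => ∀ v ∈ t, t.erase v ∈ E) := by
  rw [Finset.mem_filter, Finset.mem_powersetCard]
  refine ⟨⟨?_, ?_⟩, ?_⟩
  · intro w hw
    simp only [Finset.mem_insert, Finset.mem_singleton] at hw
    rw [Finset.mem_biUnion]
    rcases hw with rfl | rfl | rfl
    · exact ⟨_, h1, by simp⟩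
    · exact ⟨_, h1, by simp⟩
    · exact ⟨_, h2, by simp⟩
  · rw [Finset.card_insert_of_notMem, Finset.card_pair hyz]
    simp [hxy, hxz]
  · intro v hv
    simp only [Finset.mem_insert, Finset.mem_singleton] at hv
    rcases hv with rfl | rfl | rfl
    · have : ({v, y, z} : Finset W).erase v = {y, z} := by
        ext w
        simp only [Finset.mem_erase, Finset.mem_insert, Finset.mem_singleton]
        constructor
        · rintro ⟨h, rfl | h' | h'⟩
          · exact absurd rfl h
          · exact Or.inl h'
          · exact Or.inr h'
        · rintro (rfl | rfl)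
          · exact ⟨hxy.symm, Or.inr (Or.inl rfl)⟩
          · exact ⟨hxz.symm, Or.inr (Or.inr rfl)⟩
      rw [this]
      exact h2
    · have : ({x, v, z} : Finset W).erase v = {x, z} := by
        ext w
        simp only [Finset.mem_erase, Finset.mem_insert, Finset.mem_singleton]
        constructor
        · rintro ⟨h, h' | rfl | h'⟩
          · exact Or.inl h'
          · exact absurd rfl h
          · exact Or.inr h'
        · rintro (rfl | rfl)
          · exact ⟨hxy, Or.inl rfl⟩
          · exact ⟨hyz.symm, Or.inr (Or.inr rfl)⟩
      rw [this]
      exact h3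
    · have : ({x, y, v} : Finset W).erase v = {x, y} := by
        ext w
        simp only [Finset.mem_erase, Finset.mem_insert, Finset.mem_singleton]
        constructor
        · rintro ⟨h, h' | h' | rfl⟩
          · exact Or.inl h'
          · exact Or.inr h'
          · exact absurd rfl h
        · rintro (rfl | rfl)
          · exact ⟨hxz, Or.inl rfl⟩
          · exact ⟨hyz, Or.inr (Or.inl rfl)⟩
      rw [this]
      exact h1

private noncomputable def K4_F {V : Type} [DecidableEq V] (X : Finset (V →₀ ℕ)) (p : V × V × V) :
    Finset (Option V) ⊕ Finset (Option V) :=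
  if p.1 = p.2.1 then
    (if p.2.1 = p.2.2 then Sum.inl {none, some p.1} else Sum.inl {some p.1, some p.2.2})
  else
    (if p.2.1 = p.2.2 then
      (if K4_m2 p.1 p.1 ∈ X then Sum.inr {none, some p.1, some p.2.2}
        else Sum.inl {some p.1, some p.2.2})
      else Sum.inr {some p.1, some p.2.1, some p.2.2})

private theorem K4_pair {V : Type} [LinearOrder V] {a c a' c' : V} (h : a < c) (h' : a' < c')
    (he : ({some a, some c} : Finset (Option V)) = {some a', some c'}) : a = a' ∧ c = c' := by
  have h1 : a = a' ∨ a = c' := by
    have : some a ∈ ({some a', some c'} : Finset (Option V)) := by rw [← he]; simp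
    simpa using this
  have h2 : c = a' ∨ c = c' := by
    have : some c ∈ ({some a', some c'} : Finset (Option V)) := by rw [← he]; simp
    simpa using this
  rcases h1 with rfl | rfl <;> rcases h2 with rfl | rfl
  · exact absurd h (lt_irrefl _)
  · exact ⟨rfl, rfl⟩
  · exact absurd h (not_lt.mpr h'.le)
  · exact absurd h (lt_irrefl _)

private theorem K4_trip {V : Type} [LinearOrder V] {a b c a' b' c' : V} (h : a < b) (hb : b < c)
    (h' : a' < b') (hb' : b' < c')
    (he : ({some a, some b, some c} : Finset (Option V)) = {some a', some b', some c'}) :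
    a = a' ∧ b = b' ∧ c = c' := by
  have h1 : a = a' ∨ a = b' ∨ a = c' := by
    have : some a ∈ ({some a', some b', some c'} : Finset (Option V)) := by rw [← he]; simp
    simpa using this
  have h2 : b = a' ∨ b = b' ∨ b = c' := by
    have : some b ∈ ({some a', some b', some c'} : Finset (Option V)) := by rw [← he]; simp
    simpa using this
  have h3 : c = a' ∨ c = b' ∨ c = c' := by
    have : some c ∈ ({some a', some b', some c'} : Finset (Option V)) := by rw [← he]; simp
    simpa using this
  rcases h1 with rfl | rfl | rfl <;> rcases h2 with rfl | rfl | rfl <;>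
    rcases h3 with rfl | rfl | rfl <;>
    first
      | exact ⟨rfl, rfl, rfl⟩
      | (exfalso; order)

private theorem K4_npair {V : Type} [LinearOrder V] {a c a' c' : V} (h : a < c) (h' : a' < c')
    (he : ({none, some a, some c} : Finset (Option V)) = {none, some a', some c'}) :
    a = a' ∧ c = c' := by
  have h1 : a = a' ∨ a = c' := by
    have : some a ∈ ({none, some a', some c'} : Finset (Option V)) := by rw [← he]; simp
    simpa using this
  have h2 : c = a' ∨ c = c' := by
    have : some c ∈ ({none, some a', some c'} : Finset (Option V)) := by rw [← he]; simp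
    simpa using this
  rcases h1 with rfl | rfl <;> rcases h2 with rfl | rfl
  · exact absurd h (lt_irrefl _)
  · exact ⟨rfl, rfl⟩
  · exact absurd h (not_lt.mpr h'.le)
  · exact absurd h (lt_irrefl _)

private theorem K4_none {V : Type} [DecidableEq V] {s t : Finset (Option V)} (hs : none ∈ s)
    (ht : none ∉ t) (he : s = t) : False := ht (he ▸ hs)


/-- Macaulay bound from degree 2 to degree 3 -/
theorem up2_bound {V : Type} [LinearOrder V] (X : Finset (V →₀ ℕ))
    (hX : ∀ u ∈ X, ∀ w, w ≤ u → w ∈ X) :
    (X.filter (fun u => Finsupp.degree u = 3)).card ≤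
      up2 (X.filter (fun u => Finsupp.degree u = 2)).card := by
  classical
  set Q := X.filter (fun u => Finsupp.degree u = 2) with hQ
  set C := X.filter (fun u => Finsupp.degree u = 3) with hC
  set E : Finset (Finset (Option V)) := Q.image K4_f2 with hE
  set T : Finset (Finset (Option V)) := (Finset.powersetCard 3 (E.biUnion id)).filter
      (fun t => ∀ v ∈ t, t.erase v ∈ E) with hT
  have hEQ : E.card ≤ Q.card := Finset.card_image_le
  have hE2 : ∀ e ∈ E, e.card = 2 := by
    intro e he
    rw [hE, Finset.mem_image] at he
    obtain ⟨u, hu, rfl⟩ := he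
    rw [hQ, Finset.mem_filter] at hu
    obtain ⟨a, b, hab⟩ := K4_deg2 u hu.2
    rw [hab]
    by_cases h : a = b
    · subst h
      have := K4_f2_eq a
      unfold K4_m2 at this
      rw [this, Finset.card_pair]
      simp
    · have := K4_f2_ne a b h
      unfold K4_m2 at this
      rw [this, Finset.card_pair]
      simpa using h
  have hT3 : ∀ t ∈ T, t.card = 3 := by
    intro t ht
    rw [hT, Finset.mem_filter, Finset.mem_powersetCard] at ht
    exact ht.1.2
  have hTE : ∀ t ∈ T, ∀ v ∈ t, t.erase v ∈ E := by
    intro t ht
    rw [hT, Finset.mem_filter] at ht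
    exact ht.2
  have hkk := kk_bound E T hE2 hT3 hTE
  -- the triples
  set S : Finset V := X.biUnion Finsupp.support with hS
  set P : Finset (V × V × V) := (S ×ˢ S ×ˢ S).filter
    (fun p => p.1 ≤ p.2.1 ∧ p.2.1 ≤ p.2.2 ∧ K4_m3 p ∈ X) with hP
  have hCP : C.card ≤ P.card := by
    refine (Finset.card_le_card (t := P.image K4_m3) ?_).trans Finset.card_image_le
    intro u hu
    rw [hC, Finset.mem_filter] at hu
    obtain ⟨a, b, c, hab, hbc, h⟩ := K4_deg3 u hu.2
    rw [Finset.mem_image]
    refine ⟨(a, b, c), ?_, h.symm⟩
    rw [hP, Finset.mem_filter]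
    have hx : ∀ x, u x ≠ 0 → x ∈ S := fun x hx => by
      rw [hS, Finset.mem_biUnion]
      exact ⟨u, hu.1, Finsupp.mem_support_iff.mpr hx⟩
    refine ⟨?_, hab, hbc, ?_⟩
    · simp only [Finset.mem_product]
      refine ⟨hx a ?_, hx b ?_, hx c ?_⟩
      · rw [h]
        simp
      · rw [h]
        simp
      · rw [h]
        simp
    · change Finsupp.single a 1 + Finsupp.single b 1 + Finsupp.single c 1 ∈ X
      rw [← h]
      exact hu.1
  have hedge : ∀ a b : V, K4_m2 a b ∈ X → K4_f2 (K4_m2 a b) ∈ E := by
    intro a b h
    rw [hE, Finset.mem_image]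
    refine ⟨_, ?_, rfl⟩
    rw [hQ, Finset.mem_filter]
    refine ⟨h, ?_⟩
    unfold K4_m2
    rw [map_add, Finsupp.degree_single, Finsupp.degree_single]
  have hedge' : ∀ a b : V, a ≠ b → K4_m2 a b ∈ X → {some a, some b} ∈ E := by
    intro a b hab h
    rw [← K4_f2_ne a b hab]
    exact hedge a b h
  have hloop : ∀ a : V, K4_m2 a a ∈ X → {none, some a} ∈ E := by
    intro a h
    rw [← K4_f2_eq a]
    exact hedge a a h
  have hsub1 : ∀ a b c : V, K4_m3 (a, b, c) ∈ X → K4_m2 a b ∈ X := by
    intro a b c h
    refine hX _ h _ ?_
    exact le_self_add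
  have hsub2 : ∀ a b c : V, K4_m3 (a, b, c) ∈ X → K4_m2 b c ∈ X := by
    intro a b c h
    refine hX _ h _ ?_
    change Finsupp.single b 1 + Finsupp.single c 1 ≤
      Finsupp.single a 1 + Finsupp.single b 1 + Finsupp.single c 1
    rw [add_assoc]
    exact le_add_self
  have hsub3 : ∀ a b c : V, K4_m3 (a, b, c) ∈ X → K4_m2 a c ∈ X := by
    intro a b c h
    refine hX _ h _ ?_
    change Finsupp.single a 1 + Finsupp.single c 1 ≤
      Finsupp.single a 1 + Finsupp.single b 1 + Finsupp.single c 1
    rw [add_right_comm]
    exact le_self_add
  have hPF : P.card ≤ (E.disjSum T).card := by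
    refine Finset.card_le_card_of_injOn (K4_F X) ?_ ?_
    · rintro ⟨a, b, c⟩ hp
      rw [Finset.mem_coe, hP, Finset.mem_filter] at hp
      obtain ⟨_, hab, hbc, hm⟩ := hp
      simp only at hab hbc
      rw [Finset.mem_coe]
      unfold K4_F
      simp only
      by_cases h1 : a = b
      · subst h1
        rw [if_pos rfl]
        by_cases h2 : a = c
        · subst h2
          rw [if_pos rfl, Finset.inl_mem_disjSum]
          exact hloop a (hsub1 a a a hm)
        · rw [if_neg h2, Finset.inl_mem_disjSum]
          exact hedge' a c h2 (hsub2 a a c hm)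
      · rw [if_neg h1]
        by_cases h2 : b = c
        · subst h2
          rw [if_pos rfl]
          by_cases h3 : K4_m2 a a ∈ X
          · rw [if_pos h3, Finset.inr_mem_disjSum]
            refine K4_T E none (some a) (some b) (by simp) (by simpa using h1) (by simp)
              (hloop a h3) (hedge' a b h1 (hsub1 a b b hm)) (hloop b (hsub2 a b b hm))
          · rw [if_neg h3, Finset.inl_mem_disjSum]
            exact hedge' a b h1 (hsub1 a b b hm)
        · have h3 : a ≠ c := ne_of_lt (lt_of_lt_of_le (lt_of_le_of_ne hab h1) hbc)
          rw [if_neg h2, Finset.inr_mem_disjSum]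
          refine K4_T E (some a) (some b) (some c) (by simpa using h1) (by simpa using h2)
            (by simpa using h3)
            (hedge' a b h1 (hsub1 a b c hm)) (hedge' b c h2 (hsub2 a b c hm))
            (hedge' a c h3 (hsub3 a b c hm))
    · rintro ⟨a, b, c⟩ hp ⟨a', b', c'⟩ hp' he
      rw [Finset.mem_coe, hP, Finset.mem_filter] at hp hp'
      obtain ⟨_, hab, hbc, hm⟩ := hp
      obtain ⟨_, hab', hbc', hm'⟩ := hp'
      simp only at hab hbc hab' hbc'
      unfold K4_F at he
      simp only at he
      by_cases h1 : a = b
      · subst h1
        rw [if_pos rfl] at he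
        by_cases h1' : a' = b'
        · subst h1'
          rw [if_pos rfl] at he
          by_cases h2 : a = c
          · subst h2
            rw [if_pos rfl] at he
            by_cases h2' : a' = c'
            · subst h2'
              rw [if_pos rfl] at he
              have he' := Sum.inl.inj he
              have : some a ∈ ({none, some a'} : Finset (Option V)) := by rw [← he']; simp
              have : a = a' := by simpa using this
              subst this
              rfl
            · rw [if_neg h2'] at he
              exact (K4_none (by simp) (by simp) (Sum.inl.inj he)).elim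
          · rw [if_neg h2] at he
            by_cases h2' : a' = c'
            · subst h2'
              rw [if_pos rfl] at he
              exact (K4_none (by simp) (by simp) (Sum.inl.inj he).symm).elim
            · rw [if_neg h2'] at he
              obtain ⟨rfl, rfl⟩ := K4_pair (lt_of_le_of_ne hbc h2) (lt_of_le_of_ne hbc' h2')
                (Sum.inl.inj he)
              rfl
        · rw [if_neg h1'] at he
          by_cases h2' : b' = c'
          · subst h2'
            rw [if_pos rfl] at he
            by_cases h3' : K4_m2 a' a' ∈ X
            · rw [if_pos h3'] at he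
              by_cases h2 : a = c
              · rw [if_pos h2] at he
                cases he
              · rw [if_neg h2] at he
                cases he
            · rw [if_neg h3'] at he
              by_cases h2 : a = c
              · subst h2
                rw [if_pos rfl] at he
                exact (K4_none (by simp) (by simp) (Sum.inl.inj he)).elim
              · rw [if_neg h2] at he
                obtain ⟨rfl, rfl⟩ := K4_pair (lt_of_le_of_ne hbc h2) (lt_of_le_of_ne hab' h1')
                  (Sum.inl.inj he)
                exact absurd (hsub1 a a c hm) h3'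
          · rw [if_neg h2'] at he
            by_cases h2 : a = c
            · rw [if_pos h2] at he
              cases he
            · rw [if_neg h2] at he
              cases he
      · rw [if_neg h1] at he
        by_cases h2 : b = c
        · subst h2
          rw [if_pos rfl] at he
          by_cases h3 : K4_m2 a a ∈ X
          · rw [if_pos h3] at he
            by_cases h1' : a' = b'
            · rw [if_pos h1'] at he
              by_cases h2' : b' = c'
              · rw [if_pos h2'] at he
                cases he
              · rw [if_neg h2'] at he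
                cases he
            · rw [if_neg h1'] at he
              by_cases h2' : b' = c'
              · subst h2'
                rw [if_pos rfl] at he
                by_cases h3' : K4_m2 a' a' ∈ X
                · rw [if_pos h3'] at he
                  obtain ⟨rfl, rfl⟩ := K4_npair (lt_of_le_of_ne hab h1) (lt_of_le_of_ne hab' h1')
                    (Sum.inr.inj he)
                  rfl
                · rw [if_neg h3'] at he
                  cases he
              · rw [if_neg h2'] at he
                exact (K4_none (by simp) (by simp) (Sum.inr.inj he)).elim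
          · rw [if_neg h3] at he
            by_cases h1' : a' = b'
            · subst h1'
              rw [if_pos rfl] at he
              by_cases h2' : a' = c'
              · subst h2'
                rw [if_pos rfl] at he
                exact (K4_none (by simp) (by simp) (Sum.inl.inj he).symm).elim
              · rw [if_neg h2'] at he
                obtain ⟨rfl, rfl⟩ := K4_pair (lt_of_le_of_ne hab h1) (lt_of_le_of_ne hbc' h2')
                  (Sum.inl.inj he)
                exact absurd (hsub1 a a b hm') h3
            · rw [if_neg h1'] at he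
              by_cases h2' : b' = c'
              · subst h2'
                rw [if_pos rfl] at he
                by_cases h3' : K4_m2 a' a' ∈ X
                · rw [if_pos h3'] at he
                  cases he
                · rw [if_neg h3'] at he
                  obtain ⟨rfl, rfl⟩ := K4_pair (lt_of_le_of_ne hab h1) (lt_of_le_of_ne hab' h1')
                    (Sum.inl.inj he)
                  rfl
              · rw [if_neg h2'] at he
                cases he
        · rw [if_neg h2] at he
          by_cases h1' : a' = b'
          · rw [if_pos h1'] at he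
            by_cases h2' : b' = c'
            · rw [if_pos h2'] at he
              cases he
            · rw [if_neg h2'] at he
              cases he
          · rw [if_neg h1'] at he
            by_cases h2' : b' = c'
            · subst h2'
              rw [if_pos rfl] at he
              by_cases h3' : K4_m2 a' a' ∈ X
              · rw [if_pos h3'] at he
                exact (K4_none (by simp) (by simp) (Sum.inr.inj he).symm).elim
              · rw [if_neg h3'] at he
                cases he
            · rw [if_neg h2'] at he
              obtain ⟨rfl, rfl, rfl⟩ := K4_trip (lt_of_le_of_ne hab h1) (lt_of_le_of_ne hbc h2)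
                (lt_of_le_of_ne hab' h1') (lt_of_le_of_ne hbc' h2') (Sum.inr.inj he)
              rfl
  rw [Finset.card_disjSum] at hPF
  rw [up2_eq]
  have := kk_mono hEQ
  omega

/-- Macaulay bound from degree 1 to degree 2 -/
theorem up2_quad {V : Type} [LinearOrder V] (X : Finset (V →₀ ℕ))
    (hX : ∀ u ∈ X, ∀ w, w ≤ u → w ∈ X) :
    (X.filter (fun u => Finsupp.degree u = 2)).card ≤
      ((X.filter (fun u => Finsupp.degree u = 1)).card + 1).choose 2 := by
  classical
  set L := X.filter (fun u => Finsupp.degree u = 1) with hL
  set Q := X.filter (fun u => Finsupp.degree u = 2) with hQ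
  set S : Finset V := L.biUnion Finsupp.support with hS
  have hSL : S.card ≤ L.card := by
    have h := Finset.card_biUnion_le_card_mul L Finsupp.support 1 (fun u hu => by
      rw [hL, Finset.mem_filter] at hu
      obtain ⟨a, rfl⟩ := K4_deg1 u hu.2
      exact (Finset.card_le_card Finsupp.support_single_subset).trans (by simp))
    rw [mul_one] at h
    exact h
  let g : Sym2 V → (V →₀ ℕ) := Sym2.lift ⟨fun a b => Finsupp.single a 1 + Finsupp.single b 1,
    fun a b => add_comm _ _⟩
  have hQS : Q ⊆ S.sym2.image g := by
    intro u hu
    rw [hQ, Finset.mem_filter] at hu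
    obtain ⟨a, b, h⟩ := K4_deg2 u hu.2
    rw [Finset.mem_image]
    refine ⟨s(a, b), ?_, h.symm⟩
    have hmem : ∀ x : V, Finsupp.single x 1 ≤ u → x ∈ S := by
      intro x hx
      rw [hS, Finset.mem_biUnion]
      refine ⟨Finsupp.single x 1, ?_, by simp⟩
      rw [hL, Finset.mem_filter]
      exact ⟨hX u hu.1 _ hx, Finsupp.degree_single _ _⟩
    rw [Finset.mk_mem_sym2_iff]
    refine ⟨hmem a ?_, hmem b ?_⟩
    · rw [h]
      exact le_self_add
    · rw [h]
      exact le_add_self
  calc Q.card ≤ (S.sym2.image g).card := Finset.card_le_card hQS
    _ ≤ S.sym2.card := Finset.card_image_le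
    _ = (S.card + 1).choose 2 := Finset.card_sym2 S
    _ ≤ (L.card + 1).choose 2 := Nat.choose_le_choose 2 (by omega)

end Pool.LibHM88
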