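import Pool.Agent.LibHB64.Defs
import Pool.Agent.LibHM88.K0
import Pool.Agent.LibHM88.K4

/-
Interface of the block MAC: inequalities for M-sequences, M-sequences from subspaces, and the numerical necessity for
d = 6, 7.
-/

set_option autoImplicit false

namespace Pool.LibHM88

open Pool.Agent.LibHB64

universe u

/-- truncation of an order ideal to degrees at most `m` as a finset -/
theorem isM_finset {m : ℕ} {s : ℕ → ℕ} (h : IsM m s) : ∃ (n : ℕ) (X : Finset (Fin n →₀ ℕ)),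
    (0 : Fin n →₀ ℕ) ∈ X ∧ (∀ u ∈ X, ∀ w, w ≤ u → w ∈ X) ∧
      ∀ i ≤ m, (X.filter (fun u => Finsupp.degree u = i)).card = s i := by
  classical
  obtain ⟨n, M, h0, hM, hs⟩ := h
  have hfin : ∀ i, {u : Fin n →₀ ℕ | Finsupp.degree u ≤ i}.Finite := by
    intro i
    apply Set.Finite.subset (Set.finite_Iic (Finsupp.equivFunOnFinite.symm (fun _ => i)))
    intro u hu
    rw [Set.mem_Iic, Finsupp.le_def]
    intro j
    have h1 : u j ≤ Finsupp.degree u := Finsupp.le_degree j u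
    exact le_trans h1 hu
  have hf : {u ∈ M | Finsupp.degree u ≤ m}.Finite := (hfin m).subset (fun u hu => hu.2)
  refine ⟨n, hf.toFinset, ?_, ?_, ?_⟩
  · rw [Set.Finite.mem_toFinset]
    exact ⟨h0, by simp⟩
  · intro u hu w hw
    rw [Set.Finite.mem_toFinset] at hu ⊢
    refine ⟨hM u hu.1 w hw, le_trans ?_ hu.2⟩
    exact Finsupp.degree_mono hw
  · intro i hi
    rw [← hs i hi, ← Set.ncard_coe_finset]
    congr 1
    ext u
    simp only [Finset.coe_filter, Set.Finite.mem_toFinset]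
    constructor
    · rintro ⟨⟨h1, h2⟩, h3⟩
      exact ⟨h1, h3⟩
    · rintro ⟨h1, h3⟩
      exact ⟨⟨h1, by rw [h3]; exact hi⟩, h3⟩

/-- Macaulay 1 -> 2 -/
theorem isM_quad {m : ℕ} {s : ℕ → ℕ} (h : IsM m s) (hm : 2 ≤ m) :
    s 2 ≤ (s 1 + 1).choose 2 := by
  obtain ⟨n, X, h0, hX, hs⟩ := isM_finset h
  rw [← hs 2 hm, ← hs 1 (by omega)]
  exact up2_quad X hX

/-- Macaulay 2 -> 3 -/
theorem isM_cub {m : ℕ} {s : ℕ → ℕ} (h : IsM m s) (hm : 3 ≤ m) : s 3 ≤ up2 (s 2) := by
  obtain ⟨n, X, h0, hX, hs⟩ := isM_finset h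
  rw [← hs 2 (by omega), ← hs 3 hm]
  exact up2_bound X hX

/-- M-sequences from spans of monomials -/
theorem isM_span {K : Type u} [Field K] {V : Type} [Fintype V] (m : ℕ)
    (Z : ℕ → Type u) [∀ i, AddCommGroup (Z i)] [∀ i, Module K (Z i)]
    (e : ∀ i, (V →₀ ℕ) → Z i) (h0 : e 0 0 ≠ 0)
    (h : ∀ i < m, ∀ c : (V →₀ ℕ) →₀ K, (∀ u ∈ c.support, Finsupp.degree u = i) →
      (c.sum fun u a => a • e i u) = 0 →
      ∀ v : V, (c.sum fun u a => a • e (i + 1) (u + Finsupp.single v 1)) = 0) :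
    IsM m (fun i => Module.finrank K (Submodule.span K (e i '' {u | Finsupp.degree u = i}))) := by
  classical
  let σ : V ≃ Fin (Fintype.card V) := Fintype.equivFin V
  letI : LinearOrder V := LinearOrder.lift' σ σ.injective
  obtain ⟨X, hX, hXm, hXc⟩ := mac_basis m Z e h
  have hdeg : ∀ a : Fin (Fintype.card V) →₀ ℕ,
      Finsupp.degree (Finsupp.equivMapDomain σ.symm a) = Finsupp.degree a := by
    intro a
    rw [Finsupp.degree_eq_sum, Finsupp.degree_eq_sum]
    simp only [Finsupp.equivMapDomain_apply, Equiv.symm_symm]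
    exact Equiv.sum_comp σ (fun x => a x)
  have hzero : Finsupp.equivMapDomain σ.symm (0 : Fin (Fintype.card V) →₀ ℕ) = 0 := by
    ext v
    simp
  refine ⟨Fintype.card V, {a | Finsupp.equivMapDomain σ.symm a ∈ X}, ?_, ?_, ?_⟩
  · -- the monomial 1
    have h1 : Module.finrank K (Submodule.span K (e 0 '' {u | Finsupp.degree u = 0})) = 1 := by
      have : e 0 '' {u | Finsupp.degree u = 0} = {e 0 0} := by
        ext x
        simp only [Finsupp.degree_eq_zero_iff, Set.mem_image, Set.mem_setOf_eq, exists_eq_left,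
          Set.mem_singleton_iff]
        exact eq_comm
      rw [this]
      exact finrank_span_singleton h0
    have h2 := hXc 0 (Nat.zero_le m)
    rw [h1] at h2
    obtain ⟨u, hu⟩ := Finset.card_pos.1 (by omega : 0 < (X.filter (fun u => Finsupp.degree u = 0)).card)
    rw [Finset.mem_filter, Finsupp.degree_eq_zero_iff] at hu
    show Finsupp.equivMapDomain σ.symm (0 : Fin (Fintype.card V) →₀ ℕ) ∈ X
    rw [hzero, ← hu.2]
    exact hu.1
  · intro a ha b hb
    refine hX _ ha _ ?_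
    rw [Finsupp.le_def]
    intro v
    simp only [Finsupp.equivMapDomain_apply]
    exact hb _
  · intro i hi
    show _ = Module.finrank K (Submodule.span K (e i '' {u | Finsupp.degree u = i}))
    rw [← hXc i hi, ← Set.ncard_coe_finset]
    apply Set.ncard_congr (fun a _ => Finsupp.equivMapDomain σ.symm a)
    · rintro a ⟨ha1, ha2⟩
      rw [Finset.mem_coe, Finset.mem_filter]
      exact ⟨ha1, by rw [hdeg]; exact ha2⟩
    · intro a b _ _ hab
      ext v
      have := DFunLike.congr_fun hab (σ.symm v)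
      simpa using this
    · intro u hu
      rw [Finset.mem_coe, Finset.mem_filter] at hu
      have hback : Finsupp.equivMapDomain σ.symm (Finsupp.equivMapDomain σ u) = u := by
        ext v
        simp
      refine ⟨Finsupp.equivMapDomain σ u, ⟨?_, ?_⟩, hback⟩
      · show Finsupp.equivMapDomain σ.symm (Finsupp.equivMapDomain σ u) ∈ X
        rw [hback]
        exact hu.1
      · rw [← hdeg, hback]
        exact hu.2

/-- the explicit conditions for `d = 6` (`e3 = z3`) and `d = 7` -/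
structure Cond (d : ℕ) (h : ℕ → ℕ) : Prop where
  zero : h 0 = 1
  last : h d = 0
  e12 : h (d - 1) ≤ h (d - 2)
  e23 : h (d - 2) ≤ h (d - 3)
  e3 : h (d - 3) ≤ h 3
  e1 : h (d - 1) ≤ h 1
  e2 : h (d - 2) ≤ h 2
  m2 : h 2 ≤ (h 1 + 1).choose 2
  r2 : h 2 - h (d - 2) ≤ (h 1 - h (d - 1) + 1).choose 2
  r3 : h 3 - h (d - 3) ≤ up2 (h 2 - h (d - 2))
  c : ∃ c, 1 ≤ c ∧ h (d - 1) ≤ c ∧ h 2 ≤ (c + 1).choose 2 ∧
    h 2 - h (d - 2) ≤ (c - h (d - 1) + 1).choose 2 ∧ h 3 ≤ h 2 + up2 (h 2 - c)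

/-- the form used in the construction -/
theorem cond_alt {d : ℕ} {h : ℕ → ℕ} (hc : Cond d h) : (h 2 = 0 ∧ h 3 = 0) ∨
    ∃ c, 1 ≤ c ∧ h (d - 1) ≤ c ∧ c ≤ h 1 ∧ h 2 ≤ (c + 1).choose 2 ∧
      h 2 - h (d - 2) ≤ (c - h (d - 1) + 1).choose 2 ∧ h 3 ≤ h 2 + up2 (h 2 - c) := by
  obtain ⟨c, c1, c2, c3, c4, c5⟩ := hc.c
  have m2 := hc.m2
  rcases Nat.eq_zero_or_pos (h 1) with hn | hn
  · left
    rw [hn] at m2
    have hz : h 2 = 0 := by
      have : (0 + 1).choose 2 = 0 := by decide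
      omega
    rw [hz, Nat.zero_sub, up2_zero] at c5
    exact ⟨hz, by omega⟩
  · right
    rcases Nat.le_or_ge c (h 1) with hcn | hcn
    · exact ⟨c, c1, c2, hcn, c3, c4, c5⟩
    · refine ⟨h 1, hn, hc.e1, le_rfl, m2, hc.r2, ?_⟩
      have := up2_mono (show h 2 - c ≤ h 2 - h 1 by omega)
      omega

/-- the numerical lemma behind the necessity -/
theorem numn (n z2 z3 e1 e2 c1 c2 : ℕ) (h0 : 1 ≤ c1) (h1 : e1 ≤ c1) (h1' : c1 ≤ n) (h2 : e2 ≤ c2)
    (h3 : c1 ≤ c2) (h4 : c2 ≤ z2) (h5 : c2 ≤ z3) (h6 : c2 ≤ (c1 + 1).choose 2)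
    (h7 : c2 - e2 ≤ (c1 - e1 + 1).choose 2) (h8 : z3 - c2 ≤ up2 (c2 - c1))
    (h9 : z2 ≤ (n + 1).choose 2) (h10 : z2 - e2 ≤ (n - e1 + 1).choose 2) :
    ∃ c, 1 ≤ c ∧ e1 ≤ c ∧ z2 ≤ (c + 1).choose 2 ∧ z2 - e2 ≤ (c - e1 + 1).choose 2 ∧
      z3 ≤ z2 + up2 (z2 - c) := by
  classical
  have hex : ∃ c, c1 ≤ c ∧ z2 ≤ (c + 1).choose 2 ∧ z2 - e2 ≤ (c - e1 + 1).choose 2 :=
    ⟨n, h1', h9, h10⟩
  -- F k : bound for z3 if c1 = k and c2 = b k is maximal
  let b : ℕ → ℕ := fun k => min z2 (min ((k + 1).choose 2) (e2 + (k - e1 + 1).choose 2))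
  have hstep : ∀ k, e1 ≤ k → ¬ (z2 ≤ (k + 1).choose 2 ∧ z2 - e2 ≤ (k - e1 + 1).choose 2) →
      b k + up2 (b k - k) ≤ b (k + 1) + up2 (b (k + 1) - (k + 1)) := by
    intro k hk hn
    have hb : b k < z2 := by
      simp only [b]
      by_contra hc
      push Not at hc
      apply hn
      have := le_min_iff.1 hc
      have h' := le_min_iff.1 this.2
      exact ⟨h'.1, by omega⟩
    have hb1 : b k + 1 ≤ b (k + 1) := by
      simp only [b] at hb ⊢
      have a1 : (k + 1 + 1).choose 2 = (k + 1).choose 1 + (k + 1).choose 2 :=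
        Nat.choose_succ_succ _ _
      have a2 : (k + 1 - e1 + 1).choose 2 = (k - e1 + 1).choose 1 + (k - e1 + 1).choose 2 := by
        rw [show k + 1 - e1 + 1 = (k - e1 + 1) + 1 by omega]
        exact Nat.choose_succ_succ _ _
      rw [Nat.choose_one_right] at a1 a2
      rw [a1, a2]
      omega
    have h3 := up2_mono (show b k - k ≤ b (k + 1) - (k + 1) by omega)
    omega
  have hmain : ∀ k, c1 ≤ k → z3 ≤ b k + up2 (b k - k) ∨
      ∃ c, c1 ≤ c ∧ z2 ≤ (c + 1).choose 2 ∧ z2 - e2 ≤ (c - e1 + 1).choose 2 ∧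
        z3 ≤ z2 + up2 (z2 - c) := by
    intro k hk
    induction k, hk using Nat.le_induction with
    | base =>
      left
      have hb : c2 ≤ b c1 := by
        simp only [b]
        refine le_min h4 (le_min h6 (by omega))
      have h3 := up2_mono (show c2 - c1 ≤ b c1 - c1 by omega)
      omega
    | succ k hk ih =>
      rcases ih with ih | ih
      · by_cases hc : z2 ≤ (k + 1).choose 2 ∧ z2 - e2 ≤ (k - e1 + 1).choose 2
        · right
          refine ⟨k, hk, hc.1, hc.2, ?_⟩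
          have hbz : b k ≤ z2 := min_le_left _ _
          have h3 := up2_mono (show b k - k ≤ z2 - k by omega)
          omega
        · left
          exact le_trans ih (hstep k (by omega) hc)
      · exact Or.inr ih
  rcases hmain n h1' with h | ⟨c, hc1, hc2, hc3, hc4⟩
  · refine ⟨n, by omega, by omega, h9, h10, ?_⟩
    have hbz : b n ≤ z2 := min_le_left _ _
    have h3 := up2_mono (show b n - n ≤ z2 - n by omega)
    omega
  · exact ⟨c, by omega, by omega, hc2, hc3, hc4⟩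

/-- necessity for `d = 6` and `d = 7` -/
theorem cond_of_all {d : ℕ} (hd : d = 6 ∨ d = 7) {h : ℕ → ℕ} (hc : CondAll d h) : Cond d h := by
  have hm : d / 2 = 3 := by omega
  have hmono := hc.mono
  have hle := hc.le
  have hmh := hc.mh
  have hmr := hc.mr
  have hmc := hc.mc
  rw [hm] at hmono hle hmh hmc
  have z0 := hc.zero
  have zl := hc.last
  have m01 := hmono 0 (by omega)
  have m12 := hmono 1 (by omega)
  have m23 := hmono 2 (by omega)
  simp only [zero_add, Nat.sub_zero, Nat.reduceAdd] at m01 m12 m23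
  have l1 := hle 1 (by omega)
  have l2 := hle 2 (by omega)
  have l3 := hle 3 (by omega)
  have q2 : h 2 ≤ (h 1 + 1).choose 2 := isM_quad hmh (by omega)
  have hr2 : h 2 - h (d - 2) ≤ (h 1 - h (d - 1) + 1).choose 2 := isM_quad hmr (by omega)
  have hr3 : h 3 - h (d - 3) ≤ up2 (h 2 - h (d - 2)) := by
    rcases hd with rfl | rfl
    · simp
    · exact isM_cub hmr (by norm_num)
  refine ⟨z0, zl, m12, m23, l3, l1, l2, q2, hr2, hr3, ?_⟩
  rcases hmc with h3 | ⟨c, c0, c3, hcb, hcm, hg, ht⟩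
  · -- h 3 = 0
    refine ⟨h 1 + 1, by omega, by omega, ?_, ?_, by omega⟩
    · exact le_trans q2 (Nat.choose_le_choose 2 (by omega))
    · exact le_trans hr2 (Nat.choose_le_choose 2 (by omega))
  · have b1 := hcb 1 (by omega)
    have b2 := hcb 2 (by omega)
    have b01 := hcm 0 (by omega)
    have b12 := hcm 1 (by omega)
    have b23 := hcm 2 (by omega)
    simp only [zero_add, Nat.reduceAdd] at b01 b12 b23
    have g2 := isM_quad hg (by omega)
    have g3 := isM_cub hg (by omega)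
    have t2 : c 2 - h (d - 2) ≤ (c 1 - h (d - 1) + 1).choose 2 := isM_quad ht (by omega)
    simp only [OfNat.ofNat_ne_zero, if_false, one_ne_zero, Nat.reduceSub] at g2 g3
    have a1 : (c 1 + 1).choose 2 = (c 1).choose 1 + (c 1).choose 2 := Nat.choose_succ_succ _ _
    rw [Nat.choose_one_right] at a1
    have hcc : c 1 - c 0 + 1 = c 1 := by omega
    rw [hcc] at g2
    exact numn (h 1) (h 2) (h 3) (h (d - 1)) (h (d - 2)) (c 1) (c 2) (by omega) b1.1 b1.2 b2.1 b12
      b2.2 (by omega) (by omega) t2 (by rw [← c3]; exact g3) q2 hr2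

end Pool.LibHM88
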