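import Pool.Agent.LibHM88.QF
import Pool.Agent.LibHB64.COQ0

/-
Macaulay's theorem with the definition of macUp of LibHB64/COQ0.
-/

set_option autoImplicit false

namespace Pool.LibHM88

private theorem QE_ch (i q : ℕ) : q < (q + i + 1).choose (i + 1) := by
  induction q with
  | zero =>
    rw [show 0 + i + 1 = i + 1 by omega, Nat.choose_self]
    norm_num
  | succ q ih =>
    rw [show q + 1 + i + 1 = (q + i + 1) + 1 by omega, Nat.choose_succ_succ']
    have : 0 < (q + i + 1).choose i := Nat.choose_pos (by omega)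
    omega

/-- the two definitions agree -/
theorem macUp_eq (i q : ℕ) : Pool.Agent.LibHB64.macUp i q = macUp i q := by
  induction i generalizing q with
  | zero => rfl
  | succ i ih =>
    have h : macA (i + 1) q = Nat.findGreatest (fun a => a.choose (i + 1) ≤ q) (q + i) := by
      unfold macA
      rw [show q + (i + 1) = (q + i) + 1 by omega]
      exact Nat.findGreatest_of_not (not_le.2 (QE_ch i q))
    show (Nat.findGreatest (fun a => a.choose (i + 1) ≤ q) (q + i) + 1).choose (i + 2) +
      Pool.Agent.LibHB64.macUp i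
        (q - (Nat.findGreatest (fun a => a.choose (i + 1) ≤ q) (q + i)).choose (i + 1)) =
      (macA (i + 1) q + 1).choose (i + 2) + macUp i (q - (macA (i + 1) q).choose (i + 1))
    rw [ih, h]

/-- Macaulay's theorem: M-sequences satisfy the numerical condition -/
theorem isM_num {m : ℕ} {s : ℕ → ℕ} (h : Pool.Agent.LibHB64.IsM m s) :
    s 0 = 1 ∧ ∀ i, 1 ≤ i → i < m → s (i + 1) ≤ Pool.Agent.LibHB64.macUp i (s i) := by
  constructor
  · obtain ⟨n, M, h0, hM, hs⟩ := h
    rw [← hs 0 (Nat.zero_le _)]
    have : {a ∈ M | a.degree = 0} = {(0 : Fin n →₀ ℕ)} := by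
      ext a
      simp only [Set.mem_ofPred_eq, Finsupp.degree_eq_zero_iff, Set.mem_singleton_iff]
      exact ⟨fun h => h.2, fun h => ⟨h ▸ h0, h⟩⟩
    rw [this, Set.ncard_singleton]
  · intro i h1 hi
    rw [macUp_eq]
    exact isM_mac h h1 (by omega)

end Pool.LibHM88
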