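import Mathlib

/-
LibHM88 (MP_8accfa_co, block MAC): Macaulay bases and the Macaulay bound 2 -> 3.
up2 q = q^<2> : if q = C(k+1,2) + j with 0 <= j <= k then up2 q = C(k+2,3) + C(j+1,2).
kk q = C(k+1,3) + C(j,2): maximal number of triangles of a graph with q edges.
-/

set_option autoImplicit false

namespace Pool.LibHM88

/-- the k with C(k+1,2) <= q < C(k+2,2) -/
def ky (q : ℕ) : ℕ := Nat.findGreatest (fun k => (k + 1).choose 2 ≤ q) q

/-- the Macaulay bound 2 -> 3 -/
def up2 (q : ℕ) : ℕ := (ky q + 2).choose 3 + (q - (ky q + 1).choose 2 + 1).choose 2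

/-- the Kruskal-Katona bound for triangles -/
def kk (q : ℕ) : ℕ := (ky q + 1).choose 3 + (q - (ky q + 1).choose 2).choose 2

end Pool.LibHM88
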