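import Pool.Agent.LibHM88.Defs

/-
Arithmetic of up2 and kk.
-/

set_option autoImplicit false

namespace Pool.LibHM88

theorem ky_spec (q : ℕ) : (ky q + 1).choose 2 ≤ q ∧ q < (ky q + 2).choose 2 := by
  constructor
  · have h0 : (0 + 1).choose 2 ≤ q := by simp
    exact Nat.findGreatest_spec (P := fun k => (k + 1).choose 2 ≤ q) (Nat.zero_le q) h0
  · by_contra h
    push Not at h
    have h1 : ky q + 1 ≤ q := by
      by_contra h2
      have h3 : q ≤ ky q := by omega
      have h4 : (q + 2).choose 2 ≤ q := le_trans (Nat.choose_le_choose 2 (by omega)) h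
      rw [Nat.choose_two_right] at h4
      have : q + 1 ≤ (q + 2) * (q + 2 - 1) / 2 := by
        rw [Nat.le_div_iff_mul_le (by norm_num)]
        have : q + 2 - 1 = q + 1 := by omega
        rw [this]
        nlinarith
      omega
    have := Nat.le_findGreatest (P := fun k => (k + 1).choose 2 ≤ q) h1 h
    unfold ky at *
    omega

theorem ky_unique (q k : ℕ) (h1 : (k + 1).choose 2 ≤ q) (h2 : q < (k + 2).choose 2) : ky q = k := by
  obtain ⟨h3, h4⟩ := ky_spec q
  rcases lt_trichotomy (ky q) k with h | h | h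
  · have := Nat.choose_le_choose 2 (show ky q + 2 ≤ k + 1 by omega)
    omega
  · exact h
  · have := Nat.choose_le_choose 2 (show k + 2 ≤ ky q + 1 by omega)
    omega

/-- normal form -/
theorem up2_nf (k j : ℕ) (hj : j ≤ k) :
    up2 ((k + 1).choose 2 + j) = (k + 2).choose 3 + (j + 1).choose 2 := by
  have hk : ky ((k + 1).choose 2 + j) = k := by
    apply ky_unique
    · omega
    · have : (k + 2).choose 2 = (k + 1).choose 1 + (k + 1).choose 2 := Nat.choose_succ_succ _ _
      rw [Nat.choose_one_right] at this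
      omega
  unfold up2
  rw [hk]
  congr 2
  omega

theorem kk_nf (k j : ℕ) (hj : j ≤ k) :
    kk ((k + 1).choose 2 + j) = (k + 1).choose 3 + j.choose 2 := by
  have hk : ky ((k + 1).choose 2 + j) = k := by
    apply ky_unique
    · omega
    · have : (k + 2).choose 2 = (k + 1).choose 1 + (k + 1).choose 2 := Nat.choose_succ_succ _ _
      rw [Nat.choose_one_right] at this
      omega
  unfold kk
  rw [hk]
  congr 2
  omega

theorem nf_exists (q : ℕ) : ∃ k j, j ≤ k ∧ q = (k + 1).choose 2 + j := by
  obtain ⟨h3, h4⟩ := ky_spec q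
  refine ⟨ky q, q - (ky q + 1).choose 2, ?_, by omega⟩
  have : (ky q + 2).choose 2 = (ky q + 1).choose 1 + (ky q + 1).choose 2 := Nat.choose_succ_succ _ _
  rw [Nat.choose_one_right] at this
  omega

theorem up2_eq (q : ℕ) : up2 q = kk q + q := by
  obtain ⟨k, j, hj, rfl⟩ := nf_exists q
  rw [up2_nf k j hj, kk_nf k j hj]
  have h1 : (k + 2).choose 3 = (k + 1).choose 2 + (k + 1).choose 3 := Nat.choose_succ_succ _ _
  have h2 : (j + 1).choose 2 = j.choose 1 + j.choose 2 := Nat.choose_succ_succ _ _
  rw [Nat.choose_one_right] at h2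
  omega

/-- increments of kk -/
theorem kk_succ (k j : ℕ) (hj : j ≤ k) :
    kk ((k + 1).choose 2 + j + 1) = kk ((k + 1).choose 2 + j) + j := by
  rcases Nat.lt_or_ge j k with h | h
  · rw [add_assoc, kk_nf k (j + 1) (by omega), kk_nf k j hj]
    have h2 : (j + 1).choose 2 = j.choose 1 + j.choose 2 := Nat.choose_succ_succ _ _
    rw [Nat.choose_one_right] at h2
    omega
  · have hjk : j = k := le_antisymm hj h
    subst hjk
    have h1 : (j + 2).choose 2 = (j + 1).choose 1 + (j + 1).choose 2 := Nat.choose_succ_succ _ _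
    rw [Nat.choose_one_right] at h1
    have h2 : (j + 1).choose 2 + j + 1 = (j + 1 + 1).choose 2 + 0 := by
      rw [show j + 1 + 1 = j + 2 from rfl]
      omega
    rw [h2, kk_nf (j + 1) 0 (by omega), kk_nf j j le_rfl]
    have h3 : (j + 1 + 1).choose 3 = (j + 1).choose 2 + (j + 1).choose 3 :=
      Nat.choose_succ_succ _ _
    have h4 : (j + 1).choose 2 = j.choose 1 + j.choose 2 := Nat.choose_succ_succ _ _
    rw [Nat.choose_one_right] at h4
    simp only [Nat.choose_zero_succ]
    omega

theorem kk_mono : Monotone kk := by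
  apply monotone_nat_of_le_succ
  intro q
  obtain ⟨k, j, hj, rfl⟩ := nf_exists q
  rw [kk_succ k j hj]
  omega

theorem up2_mono : Monotone up2 := by
  intro a b h
  rw [up2_eq, up2_eq]
  have := kk_mono h
  omega

theorem up2_zero : up2 0 = 0 := by
  have := up2_nf 0 0 le_rfl
  simpa using this

theorem ch2 (a b : ℕ) : (a + b).choose 2 = a.choose 2 + b.choose 2 + a * b := by
  induction b with
  | zero => simp
  | succ b ih =>
    have h1 : (a + (b + 1)).choose 2 = (a + b).choose 1 + (a + b).choose 2 :=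
      Nat.choose_succ_succ _ _
    have h2 : (b + 1).choose 2 = b.choose 1 + b.choose 2 := Nat.choose_succ_succ _ _
    rw [Nat.choose_one_right] at h1 h2
    rw [h1, h2, ih]
    ring

/-- removing a vertex of degree δ -/
theorem kk_step (δ q : ℕ) (h : (δ + 1).choose 2 ≤ q) : kk (q - δ) + δ.choose 2 ≤ kk q := by
  obtain ⟨k, j, hj, rfl⟩ := nf_exists q
  have hδ : δ ≤ k := by
    by_contra hc
    push Not at hc
    have h1 := Nat.choose_le_choose 2 (show k + 2 ≤ δ + 1 by omega)
    have h2 : (k + 2).choose 2 = (k + 1).choose 1 + (k + 1).choose 2 := Nat.choose_succ_succ _ _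
    rw [Nat.choose_one_right] at h2
    omega
  rcases Nat.le_or_ge δ j with hd | hd
  · obtain ⟨t, rfl⟩ := Nat.exists_eq_add_of_le hd
    have e1 : (k + 1).choose 2 + (δ + t) - δ = (k + 1).choose 2 + t := by omega
    rw [e1, kk_nf k t (by omega), kk_nf k _ hj, ch2 δ t]
    omega
  · obtain ⟨s, rfl⟩ := Nat.exists_eq_add_of_le hd
    obtain ⟨t, rfl⟩ := Nat.exists_eq_add_of_le hδ
    rcases Nat.eq_zero_or_pos s with hs | hs
    · subst hs
      have e1 : (j + 0 + t + 1).choose 2 + j - (j + 0) = (j + 0 + t + 1).choose 2 + 0 := by omega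
      rw [e1, kk_nf _ 0 (by omega), kk_nf _ j (by omega)]
      simp
    · obtain ⟨m, hm⟩ : ∃ m, j + s + t = m + 1 := ⟨j + s + t - 1, by omega⟩
      have h3 : (j + s + t + 1).choose 2 = (j + s + t).choose 1 + (j + s + t).choose 2 :=
        Nat.choose_succ_succ _ _
      have h4 : (j + s + t + 1).choose 3 = (j + s + t).choose 2 + (j + s + t).choose 3 :=
        Nat.choose_succ_succ _ _
      rw [Nat.choose_one_right] at h3
      have e1 : (j + s + t + 1).choose 2 + j - (j + s) = (m + 1).choose 2 + (j + t) := by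
        rw [← hm]
        omega
      rw [e1, kk_nf m (j + t) (by omega), kk_nf _ j (by omega), ← hm, h4]
      have a1 := ch2 j t
      have a2 := ch2 j s
      have a3 := ch2 (j + s) t
      have : (j + t).choose 2 + (j + s).choose 2 ≤ (j + s + t).choose 2 + j.choose 2 := by
        rw [a1, a3, a2]
        nlinarith
      omega

end Pool.LibHM88
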