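import Pool.Agent.LibHM88.K1

/-
Kruskal-Katona for triangles, by minimum degree induction.
-/

set_option autoImplicit false

namespace Pool.LibHM88

open Finset

theorem kk_bound {V : Type} [DecidableEq V] (E T : Finset (Finset V)) (hE : ∀ e ∈ E, e.card = 2)
    (hT : ∀ t ∈ T, t.card = 3) (h : ∀ t ∈ T, ∀ v ∈ t, t.erase v ∈ E) : T.card ≤ kk E.card := by
  induction hn : E.card using Nat.strong_induction_on generalizing E T with
  | _ n ih =>
    subst hn
    rcases E.eq_empty_or_nonempty with hE0 | ⟨e0, he0⟩
    · have : T = ∅ := by
        rw [Finset.eq_empty_iff_forall_notMem]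
        intro t ht
        have h3 := hT t ht
        obtain ⟨v, hv⟩ := Finset.card_pos.1 (by omega : 0 < t.card)
        have := h t ht v hv
        rw [hE0] at this
        simp at this
      rw [this]
      simp
    · set S := E.biUnion id with hS
      have hmemS : ∀ v, v ∈ S ↔ ∃ e ∈ E, v ∈ e := by
        intro v
        simp [hS]
      let d : V → ℕ := fun v => (E.filter (fun e => v ∈ e)).card
      have hSne : S.Nonempty := by
        obtain ⟨v, hv⟩ := Finset.card_pos.1 (by rw [hE e0 he0]; norm_num : 0 < e0.card)
        exact ⟨v, (hmemS v).2 ⟨e0, he0, hv⟩⟩
      obtain ⟨v0, hv0, hmin⟩ := Finset.exists_min_image S d hSne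
      have hd1 : 1 ≤ d v0 := by
        obtain ⟨e, he, hve⟩ := (hmemS v0).1 hv0
        exact Finset.card_pos.2 ⟨e, Finset.mem_filter.2 ⟨he, hve⟩⟩
      -- neighbours
      let N := S.filter (fun w => w ≠ v0 ∧ ({v0, w} : Finset V) ∈ E)
      have hN1 : N.card ≤ d v0 := by
        apply Finset.card_le_card_of_injOn (fun w => ({v0, w} : Finset V))
        · intro w hw
          simp only [N, Finset.coe_filter, Set.mem_setOf_eq] at hw
          simp only [Finset.coe_filter, Set.mem_setOf_eq]
          exact ⟨hw.2.2, by simp⟩
        · intro w hw w' hw' hww
          simp only [N, Finset.coe_filter, Set.mem_setOf_eq] at hw hw'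
          have h1 : w ∈ ({v0, w'} : Finset V) := by
            have : w ∈ ({v0, w} : Finset V) := by simp
            simpa only [hww] using this
          simp only [Finset.mem_insert, Finset.mem_singleton] at h1
          rcases h1 with h1 | h1
          · exact absurd h1 hw.2.1
          · exact h1
      have hN2 : d v0 ≤ N.card := by
        have hch : ∀ e ∈ E, v0 ∈ e → ∃ w, w ≠ v0 ∧ e = {v0, w} := by
          intro e he hve
          obtain ⟨x, y, hxy, hexy⟩ := Finset.card_eq_two.1 (hE e he)
          rw [hexy] at hve
          simp only [Finset.mem_insert, Finset.mem_singleton] at hve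
          rcases hve with hv | hv
          · exact ⟨y, by rw [hv]; exact hxy.symm, by rw [hv, hexy]⟩
          · exact ⟨x, by rw [hv]; exact hxy, by rw [hv, hexy, Finset.pair_comm]⟩
        have hsub : E.filter (fun e => v0 ∈ e) ⊆ N.image (fun w => ({v0, w} : Finset V)) := by
          intro e he
          rw [Finset.mem_filter] at he
          obtain ⟨w, hw, hew⟩ := hch e he.1 he.2
          rw [Finset.mem_image]
          refine ⟨w, ?_, hew.symm⟩
          rw [Finset.mem_filter]
          refine ⟨(hmemS w).2 ⟨e, he.1, by rw [hew]; simp⟩, hw, ?_⟩
          rw [← hew]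
          exact he.1
        exact le_trans (Finset.card_le_card hsub) Finset.card_image_le
      -- degree sum
      have hsum : ∑ v ∈ S, d v = 2 * E.card := by
        have h1 : ∑ v ∈ S, d v = ∑ e ∈ E, (S.filter (fun v => v ∈ e)).card := by
          simp only [d, Finset.card_filter]
          exact Finset.sum_comm
        have h2 : ∀ e ∈ E, (S.filter (fun v => v ∈ e)).card = 2 := by
          intro e he
          have : S.filter (fun v => v ∈ e) = e := by
            ext v
            rw [Finset.mem_filter]
            exact ⟨fun h => h.2, fun h => ⟨(hmemS v).2 ⟨e, he, h⟩, h⟩⟩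
          rw [this, hE e he]
        rw [h1, Finset.sum_congr rfl h2, Finset.sum_const, smul_eq_mul, mul_comm]
      have hScard : d v0 + 1 ≤ S.card := by
        have : insert v0 N ⊆ S := by
          intro w hw
          rw [Finset.mem_insert] at hw
          rcases hw with rfl | hw
          · exact hv0
          · exact (Finset.mem_filter.1 hw).1
        have h2 := Finset.card_le_card this
        rw [Finset.card_insert_of_notMem (by simp [N])] at h2
        omega
      have hdeg : (d v0 + 1).choose 2 ≤ E.card := by
        have h1 : S.card * d v0 ≤ ∑ v ∈ S, d v := by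
          rw [← smul_eq_mul]
          exact Finset.card_nsmul_le_sum S d (d v0) hmin
        rw [hsum] at h1
        have h2 : (d v0 + 1) * d v0 ≤ 2 * E.card := le_trans (Nat.mul_le_mul_right _ hScard) h1
        rw [Nat.choose_two_right, Nat.add_sub_cancel]
        omega
      -- induction
      have hE' : (E.filter (fun e => ¬ v0 ∈ e)).card = E.card - d v0 := by
        have := Finset.card_filter_add_card_filter_not (s := E) (fun e => v0 ∈ e)
        simp only [d]
        omega
      have hlt : (E.filter (fun e => ¬ v0 ∈ e)).card < E.card := by
        have h3 : d v0 ≤ E.card := Finset.card_filter_le _ _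
        omega
      have hT' := ih _ hlt (E.filter (fun e => ¬ v0 ∈ e)) (T.filter (fun t => ¬ v0 ∈ t))
        (fun e he => hE e (Finset.mem_filter.1 he).1)
        (fun t ht => hT t (Finset.mem_filter.1 ht).1)
        (by
          intro t ht v hv
          rw [Finset.mem_filter] at ht ⊢
          exact ⟨h t ht.1 v hv, fun hh => ht.2 (Finset.mem_of_mem_erase hh)⟩) rfl
      have hTv : (T.filter (fun t => v0 ∈ t)).card ≤ (d v0).choose 2 := by
        have h1 : (T.filter (fun t => v0 ∈ t)).card ≤ (N.powersetCard 2).card := by
          apply Finset.card_le_card_of_injOn (fun t => t.erase v0)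
          · intro t ht
            simp only [Finset.coe_filter, Set.mem_setOf_eq] at ht
            simp only [Finset.mem_coe, Finset.mem_powersetCard]
            refine ⟨?_, by rw [Finset.card_erase_of_mem ht.2, hT t ht.1]⟩
            intro w hw
            have hw1 := Finset.ne_of_mem_erase hw
            have hw2 := Finset.mem_of_mem_erase hw
            -- the third vertex
            have hc : ((t.erase v0).erase w).card = 1 := by
              rw [Finset.card_erase_of_mem hw, Finset.card_erase_of_mem ht.2, hT t ht.1]
            obtain ⟨b, hb⟩ := Finset.card_eq_one.1 hc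
            have hbt : b ∈ (t.erase v0).erase w := by rw [hb]; simp
            have hbw : b ≠ w := Finset.ne_of_mem_erase hbt
            have hbv : b ≠ v0 := Finset.ne_of_mem_erase (Finset.mem_of_mem_erase hbt)
            have hbt' : b ∈ t := Finset.mem_of_mem_erase (Finset.mem_of_mem_erase hbt)
            have he : t.erase b = {v0, w} := by
              symm
              apply Finset.eq_of_subset_of_card_le
              · intro x hx
                simp only [Finset.mem_insert, Finset.mem_singleton] at hx
                rcases hx with rfl | rfl
                · exact Finset.mem_erase.2 ⟨hbv.symm, ht.2⟩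
                · exact Finset.mem_erase.2 ⟨hbw.symm, hw2⟩
              · rw [Finset.card_erase_of_mem hbt', hT t ht.1, Finset.card_pair hw1.symm]
            have heE : ({v0, w} : Finset V) ∈ E := by
              rw [← he]
              exact h t ht.1 b hbt'
            exact Finset.mem_filter.2 ⟨(hmemS w).2 ⟨_, heE, by simp⟩, hw1, heE⟩
          · intro t ht t' ht' htt
            simp only [Finset.coe_filter, Set.mem_setOf_eq] at ht ht'
            have := congrArg (insert v0) htt
            rwa [Finset.insert_erase ht.2, Finset.insert_erase ht'.2] at this
        rw [Finset.card_powersetCard] at h1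
        exact le_trans h1 (Nat.choose_le_choose 2 hN1)
      have htot := Finset.card_filter_add_card_filter_not (s := T) (fun t => v0 ∈ t)
      have hst := kk_step (d v0) E.card hdeg
      rw [hE'] at hT'
      omega

end Pool.LibHM88
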