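import Mathlib

/-
LibHM88, Macaulay's theorem for all degrees (MP_8accfa_co): definitions. Monomials are elements of ℕ →₀ ℕ.
-/

set_option autoImplicit false

namespace Pool.LibHM88

open Finsupp

/-- the largest `a` with `C(a, i) <= q` (`i >= 1`) -/
def macA (i q : ℕ) : ℕ := Nat.findGreatest (fun a => a.choose i ≤ q) (q + i)

/-- Macaulay's bound `q^<i>`: if `q = C(a_i, i) + C(a_(i-1), i-1) + ...` (greedy) then
`C(a_i + 1, i + 1) + C(a_(i-1) + 1, i) + ...` -/
def macUp : ℕ → ℕ → ℕ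
  | 0, _ => 0
  | i + 1, q => (macA (i + 1) q + 1).choose (i + 2) + macUp i (q - (macA (i + 1) q).choose (i + 1))

/-- an order ideal of monomials -/
def Dn (X : Finset (ℕ →₀ ℕ)) : Prop := ∀ u ∈ X, ∀ w, w ≤ u → w ∈ X

/-- shifted: a variable may be replaced by an earlier one -/
def Shf (X : Finset (ℕ →₀ ℕ)) : Prop :=
  ∀ u ∈ X, ∀ i j, i < j → 0 < u j → u - single j 1 + single i 1 ∈ X

/-- the weight -/
noncomputable def wt (X : Finset (ℕ →₀ ℕ)) : ℕ := ∑ u ∈ X, u.sum fun k a => k * a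

/-- the point `q` of the line of `w` in the directions `i, j`: the exponents of `x_i, x_j` are
`w i + w j - q` and `q` -/
noncomputable def ln (i j : ℕ) (w : ℕ →₀ ℕ) (q : ℕ) : ℕ →₀ ℕ :=
  (w.update i (w i + w j - q)).update j q

open Classical in
/-- number of points of `X` on the line of `w` -/
noncomputable def cn (X : Finset (ℕ →₀ ℕ)) (i j : ℕ) (w : ℕ →₀ ℕ) : ℕ :=
  ((Finset.range (w i + w j + 1)).filter fun q => ln i j w q ∈ X).card

open Classical in
/-- number of points of `X` on the line of `w` before `w` -/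
noncomputable def rk (X : Finset (ℕ →₀ ℕ)) (i j : ℕ) (w : ℕ →₀ ℕ) : ℕ :=
  ((Finset.range (w j)).filter fun q => ln i j w q ∈ X).card

/-- `w` is moved to the place with the number `rk` of its line -/
noncomputable def phi (X : Finset (ℕ →₀ ℕ)) (i j : ℕ) (w : ℕ →₀ ℕ) : ℕ →₀ ℕ :=
  ln i j w (rk X i j w)

open Classical in
/-- the compression of all lines in the directions `i, j` -/
noncomputable def Cp (X : Finset (ℕ →₀ ℕ)) (i j : ℕ) : Finset (ℕ →₀ ℕ) := X.image (phi X i j)

/-- all indices of variables `+ 1` -/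
noncomputable def sh : (ℕ →₀ ℕ) → (ℕ →₀ ℕ) := Finsupp.embDomain ⟨Nat.succ, Nat.succ_injective⟩

theorem sh_inj : Function.Injective sh := Finsupp.embDomain_injective _

/-- the monomials of `P` without `x_0`, with shifted indices -/
noncomputable def dn (P : Finset (ℕ →₀ ℕ)) : Finset (ℕ →₀ ℕ) := P.preimage sh sh_inj.injOn

/-- the monomials `v` with `x_0 v` in `P` -/
noncomputable def b0 (P : Finset (ℕ →₀ ℕ)) : Finset (ℕ →₀ ℕ) :=
  P.preimage (fun v => v + single 0 1) (add_left_injective _).injOn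

theorem mem_dn {P : Finset (ℕ →₀ ℕ)} {u : ℕ →₀ ℕ} : u ∈ dn P ↔ sh u ∈ P := Finset.mem_preimage

theorem mem_b0 {P : Finset (ℕ →₀ ℕ)} {u : ℕ →₀ ℕ} : u ∈ b0 P ↔ u + single 0 1 ∈ P :=
  Finset.mem_preimage

end Pool.LibHM88
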