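import Pool.Agent.LibHM88.QN2

/-
PLAN (QC, MEDIUM). card_split: P is the disjoint union of its monomials with u 0 = 0 (image of dn P by sh: a monomial with u 0 = 0 is sh of (u.comapDomain Nat.succ ..)) and those with 0 < u 0 (image of b0 P by
v |-> v + single 0 1). degree_sh: sum over the support (embDomain). The other lemmas: sh (u - single j 1) = sh u - single (j+1) 1, sh (u + single j 1) = sh u + single (j+1) 1, (sh u) (j+1) = u j, (sh u) 0 = 0
(Finsupp.embDomain_apply_self / embDomain_notin_range).
macaulay_shf: |Q| <= macUp (i+1) |P| by induction on i (for all P, Q) and, inside, strong induction on |P|. If P is empty then Q is empty (degree i+2 > 0: some u j > 0). Otherwise let B = b0 P, b = |B|, P' = dn P, Q' = dn Q.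
(a) |b0 Q| <= |P|: b0 Q ⊆ P (v + single 0 1 in Q, remove x_0). (b) (P', Q') satisfies the hypotheses (degrees: degree_sh; Shf: from the formulas for sh; removal: likewise). (c) b >= 1: P contains some u of degree >= 1; if u 0 > 0 then u - single 0 1 in B;
otherwise u j > 0 with j > 0 and u - single j 1 + single 0 1 in P, so u - single j 1 in B. So |P'| = |P| - b < |P| (card_split). Inner induction: |Q'| <= macUp (i+1) (|P| - b). So |Q| <= |P| + macUp (i+1) (|P| - b).
i = 0: num_one. i = k + 1: the outer induction for (B, P): B has degrees k+1, Shf B (v + single 0 1 in P, j > 0), and for u in P with u j > 0: u - single j 1 in B (j = 0 clear, j > 0 by Shf P). So |P| <= macUp (k+1) b and macUp_num.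
-/

set_option autoImplicit false

namespace Pool.LibHM88

open Finsupp

private theorem QC_sh_succ (u : ℕ →₀ ℕ) (j : ℕ) : sh u (j + 1) = u j :=
  Finsupp.embDomain_apply_self ⟨Nat.succ, Nat.succ_injective⟩ u j

private theorem QC_sh_zero (u : ℕ →₀ ℕ) : sh u 0 = 0 := by
  refine Finsupp.embDomain_of_notMem_range ⟨Nat.succ, Nat.succ_injective⟩ u 0 ?_
  rintro ⟨x, hx⟩
  exact Nat.succ_ne_zero x hx

private theorem QC_surj (w : ℕ →₀ ℕ) (h : w 0 = 0) : ∃ u, sh u = w := by
  refine ⟨Finsupp.comapDomain Nat.succ w Nat.succ_injective.injOn, ?_⟩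
  ext j
  rcases j with _ | j
  · rw [QC_sh_zero, h]
  · rw [QC_sh_succ, Finsupp.comapDomain_apply]

private theorem QC_sub (u : ℕ →₀ ℕ) (j : ℕ) : sh (u - single j 1) = sh u - single (j + 1) 1 := by
  ext x
  rcases x with _ | x
  · rw [QC_sh_zero, Finsupp.tsub_apply, QC_sh_zero]
    simp
  · rw [QC_sh_succ, Finsupp.tsub_apply, Finsupp.tsub_apply, QC_sh_succ, Finsupp.single_apply,
      Finsupp.single_apply]
    simp only [Nat.add_right_cancel_iff]

private theorem QC_add (u : ℕ →₀ ℕ) (j : ℕ) : sh (u + single j 1) = sh u + single (j + 1) 1 := by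
  ext x
  rcases x with _ | x
  · rw [QC_sh_zero, Finsupp.add_apply, QC_sh_zero]
    simp
  · rw [QC_sh_succ, Finsupp.add_apply, Finsupp.add_apply, QC_sh_succ, Finsupp.single_apply,
      Finsupp.single_apply]
    simp only [Nat.add_right_cancel_iff]

theorem degree_sh (u : ℕ →₀ ℕ) : (sh u).degree = u.degree := by
  unfold sh
  rw [Finsupp.embDomain_eq_mapDomain, Finsupp.degree_mapDomain]

theorem card_split (P : Finset (ℕ →₀ ℕ)) : P.card = (dn P).card + (b0 P).card := by
  classical
  have h1 : (dn P).card = (P.filter fun w => w 0 = 0).card := by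
    rw [← Finset.card_image_of_injective (dn P) sh_inj]
    congr 1
    ext w
    rw [Finset.mem_image, Finset.mem_filter]
    constructor
    · rintro ⟨u, hu, rfl⟩
      exact ⟨mem_dn.1 hu, QC_sh_zero u⟩
    · rintro ⟨hw, h0⟩
      obtain ⟨u, rfl⟩ := QC_surj w h0
      exact ⟨u, mem_dn.2 hw, rfl⟩
  have h2 : (b0 P).card = (P.filter fun w => ¬ w 0 = 0).card := by
    rw [← Finset.card_image_of_injective (b0 P) (add_left_injective (single 0 1))]
    congr 1
    ext w
    rw [Finset.mem_image, Finset.mem_filter]
    constructor
    · rintro ⟨u, hu, rfl⟩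
      refine ⟨mem_b0.1 hu, ?_⟩
      simp
    · rintro ⟨hw, h0⟩
      have h3 : w - single 0 1 + single 0 1 = w := by
        ext x
        rw [Finsupp.add_apply, Finsupp.tsub_apply, Finsupp.single_apply]
        by_cases hx : 0 = x
        · subst hx
          simp only [if_true]
          omega
        · simp only [if_neg hx]
          omega
      exact ⟨w - single 0 1, mem_b0.2 (by rw [h3]; exact hw), h3⟩
  rw [h1, h2]
  exact (Finset.card_filter_add_card_filter_not (s := P) (fun w => w 0 = 0)).symm

private theorem QC_pos {u : ℕ →₀ ℕ} (h : 0 < u.degree) : ∃ j, 0 < u j := by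
  by_contra hn
  push Not at hn
  have h0 : u = 0 := by
    ext j
    have := hn j
    change u j = 0
    omega
  rw [h0] at h
  simp at h

private theorem QC_comm (v : ℕ →₀ ℕ) (a b : ℕ) (hb : 0 < v b) :
    v + single 0 1 - single b 1 + single a 1 = v - single b 1 + single a 1 + single 0 1 := by
  ext x
  simp only [Finsupp.add_apply, Finsupp.tsub_apply, Finsupp.single_apply]
  by_cases hx : b = x
  · subst hx
    simp only [if_true]
    omega
  · simp only [if_neg hx]
    omega

private theorem QC_cancel (u : ℕ →₀ ℕ) (j : ℕ) (hj : 0 < u j) : u - single j 1 + single j 1 = u := by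
  ext x
  simp only [Finsupp.add_apply, Finsupp.tsub_apply, Finsupp.single_apply]
  by_cases hx : j = x
  · subst hx
    simp only [if_true]
    omega
  · simp only [if_neg hx]
    omega

private theorem QC_b0 {P : Finset (ℕ →₀ ℕ)} (hs : Shf P) {u : ℕ →₀ ℕ} (hu : u ∈ P) {j : ℕ}
    (hj : 0 < u j) : u - single j 1 ∈ b0 P := by
  rw [mem_b0]
  rcases Nat.eq_zero_or_pos j with h0 | h0
  · subst h0
    rw [QC_cancel u 0 hj]
    exact hu
  · exact hs u hu 0 j h0 hj

theorem macaulay_shf (i : ℕ) (P Q : Finset (ℕ →₀ ℕ)) (hP : ∀ u ∈ P, u.degree = i + 1)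
    (hQ : ∀ u ∈ Q, u.degree = i + 2) (hs : Shf P)
    (hPQ : ∀ u ∈ Q, ∀ j, 0 < u j → u - single j 1 ∈ P) : Q.card ≤ macUp (i + 1) P.card := by
  induction i generalizing P Q with
  | zero =>
    obtain ⟨n, hn⟩ : ∃ n, n = P.card := ⟨_, rfl⟩
    induction n using Nat.strong_induction_on generalizing P Q with
    | _ n ih =>
      rcases Finset.eq_empty_or_nonempty P with h0 | h0
      · have hQ0 : Q = ∅ := by
          rw [Finset.eq_empty_iff_forall_notMem]
          intro u hu
          obtain ⟨j, hj⟩ := QC_pos (u := u) (by rw [hQ u hu]; omega)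
          have h1 := hPQ u hu j hj
          rw [h0] at h1
          exact absurd h1 (Finset.notMem_empty _)
        rw [hQ0, Finset.card_empty]
        exact Nat.zero_le _
      · obtain ⟨u, hu⟩ := h0
        obtain ⟨j, hj⟩ := QC_pos (u := u) (by rw [hP u hu]; omega)
        have hb : 0 < (b0 P).card := Finset.card_pos.2 ⟨_, QC_b0 hs hu hj⟩
        have hcP := card_split P
        have hcQ := card_split Q
        have ha : (b0 Q).card ≤ P.card := by
          refine Finset.card_le_card (fun v hv => ?_)
          have h1 := hPQ _ (mem_b0.1 hv) 0 (by simp)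
          rw [add_tsub_cancel_right] at h1
          exact h1
        have hin := ih (dn P).card (by omega) (dn P) (dn Q)
          (fun v hv => by rw [← degree_sh, hP _ (mem_dn.1 hv)])
          (fun v hv => by rw [← degree_sh, hQ _ (mem_dn.1 hv)])
          (fun v hv a b hab hvb => by
            rw [mem_dn, QC_add, QC_sub]
            exact hs _ (mem_dn.1 hv) (a + 1) (b + 1) (by omega) (by rw [QC_sh_succ]; exact hvb))
          (fun v hv b hvb => by
            rw [mem_dn, QC_sub]
            exact hPQ _ (mem_dn.1 hv) (b + 1) (by rw [QC_sh_succ]; exact hvb)) rfl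
        have hfin := num_one P.card (b0 P).card hb (by omega)
        have h3 : P.card - (b0 P).card = (dn P).card := by omega
        rw [h3] at hfin
        change Q.card ≤ macUp 1 P.card
        change (dn Q).card ≤ macUp 1 (dn P).card at hin
        omega
  | succ k ihk =>
    obtain ⟨n, hn⟩ : ∃ n, n = P.card := ⟨_, rfl⟩
    induction n using Nat.strong_induction_on generalizing P Q with
    | _ n ih =>
      rcases Finset.eq_empty_or_nonempty P with h0 | h0
      · have hQ0 : Q = ∅ := by
          rw [Finset.eq_empty_iff_forall_notMem]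
          intro u hu
          obtain ⟨j, hj⟩ := QC_pos (u := u) (by rw [hQ u hu]; omega)
          have h1 := hPQ u hu j hj
          rw [h0] at h1
          exact absurd h1 (Finset.notMem_empty _)
        rw [hQ0, Finset.card_empty]
        exact Nat.zero_le _
      · obtain ⟨u, hu⟩ := h0
        obtain ⟨j, hj⟩ := QC_pos (u := u) (by rw [hP u hu]; omega)
        have hb : 0 < (b0 P).card := Finset.card_pos.2 ⟨_, QC_b0 hs hu hj⟩
        have hcP := card_split P
        have hcQ := card_split Q
        have ha : (b0 Q).card ≤ P.card := by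
          refine Finset.card_le_card (fun v hv => ?_)
          have h1 := hPQ _ (mem_b0.1 hv) 0 (by simp)
          rw [add_tsub_cancel_right] at h1
          exact h1
        have hin := ih (dn P).card (by omega) (dn P) (dn Q)
          (fun v hv => by rw [← degree_sh, hP _ (mem_dn.1 hv)])
          (fun v hv => by rw [← degree_sh, hQ _ (mem_dn.1 hv)])
          (fun v hv a b hab hvb => by
            rw [mem_dn, QC_add, QC_sub]
            exact hs _ (mem_dn.1 hv) (a + 1) (b + 1) (by omega) (by rw [QC_sh_succ]; exact hvb))
          (fun v hv b hvb => by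
            rw [mem_dn, QC_sub]
            exact hPQ _ (mem_dn.1 hv) (b + 1) (by rw [QC_sh_succ]; exact hvb)) rfl
        have hout := ihk (b0 P) P
          (fun v hv => by
            have h1 := hP _ (mem_b0.1 hv)
            rw [map_add, Finsupp.degree_single] at h1
            omega)
          (fun v hv => hP v hv)
          (fun v hv a b hab hvb => by
            rw [mem_b0, ← QC_comm v a b hvb]
            refine hs _ (mem_b0.1 hv) a b hab ?_
            rw [Finsupp.add_apply]
            omega)
          (fun v hv b hvb => QC_b0 hs hv hvb)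
        have hfin := macUp_num k P.card (b0 P).card hout (by omega)
        have h3 : P.card - (b0 P).card = (dn P).card := by omega
        rw [h3] at hfin
        change Q.card ≤ macUp (k + 2) P.card
        change (dn Q).card ≤ macUp (k + 2) (dn P).card at hin
        omega

end Pool.LibHM88
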