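import Pool.Agent.LibHM88.QM

/-
PLAN (QD, MEDIUM). The compression of an order ideal is an order ideal. Use only mem_Cp: w in Cp iff w j < cn w. It suffices to remove one variable (lemma dn_of_step: induction on the degree of u - w, or on
u.degree). Let w in Cp, 0 < w k, w' = w - single k 1.
k different from i, j: w' has the same i, j exponents, ln w' q <= ln w q, so the set of cn w is contained in the set of cn w', cn w <= cn w', w' j = w j.
For k = i or k = j let e = w i + w j >= 1, Q = {q <= e : ln w q in X}, Q' = {q <= e - 1 : ln w' q in X} (cn w = card Q, cn w' = card Q'; w' i + w' j = e - 1). CLAIM: min (card Q) e <= card Q'.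
If Q = {0, ..., e} (card Q = e + 1): every q <= e - 1 is in Q' (ln w' q = ln w q divided by x_i; q <= e - 1 so the exponent e - q of x_i is positive). Otherwise choose p <= e not in Q; the map Q -> Q', q |-> q for q < p,
q |-> q - 1 for q > p is injective (values < p resp. >= p) and well defined: for q < p: q <= e - 1 and ln w' q <= ln w q; for q > p: ln w' (q-1) <= ln w q (exponent of x_j smaller by one, exponent of x_i: (e - 1) - (q - 1) = e - q). So card Q <= card Q'.
k = j: w' j = w j - 1 < min (card Q) e because w j < card Q and w j - 1 < e (w j <= e). k = i: w' j = w j <= e - 1 (w i >= 1), so w j < min (card Q) e.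
exists_shf: strong induction on wt X (Nat.strong_induction_on or measure): if X is not Shf take u, i, j and replace X by Cp X i j.
-/

set_option autoImplicit false

namespace Pool.LibHM88

open Finsupp

theorem Dn_of_step (X : Finset (ℕ →₀ ℕ)) (h : ∀ u ∈ X, ∀ k, 0 < u k → u - single k 1 ∈ X) :
    Dn X := by
  have main : ∀ n : ℕ, ∀ u ∈ X, u.degree = n → ∀ w, w ≤ u → w ∈ X := by
    intro n
    induction n using Nat.strong_induction_on with
    | _ n ih =>
      intro u hu hn w hw
      by_cases he : w = u
      · rw [he]
        exact hu
      · obtain ⟨k, hk⟩ : ∃ k, w k < u k := by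
          by_contra hc
          push Not at hc
          exact he (le_antisymm hw fun k => hc k)
        have h1 : 0 < u k := by omega
        have h2 : u - single k 1 + single k 1 = u := by
          refine tsub_add_cancel_of_le ?_
          rw [Finsupp.single_le_iff]
          omega
        have h3 : (u - single k 1).degree + 1 = u.degree := by
          conv_rhs => rw [← h2]
          rw [map_add, Finsupp.degree_single]
        refine ih (u - single k 1).degree (by omega) _ (h u hu k h1) rfl w ?_
        intro l
        have hl := hw l
        rw [Finsupp.tsub_apply]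
        by_cases hlk : k = l
        · subst hlk
          rw [Finsupp.single_eq_same]
          omega
        · rw [Finsupp.single_eq_of_ne (fun hh => hlk hh.symm)]
          omega
  exact fun u hu w hw => main _ u hu rfl w hw

private theorem QD_ln {i j : ℕ} (_hij : i ≠ j) (w : ℕ →₀ ℕ) (q l : ℕ) :
    ln i j w q l = if l = j then q else if l = i then w i + w j - q else w l := by
  unfold ln
  rw [Finsupp.update_apply, Finsupp.update_apply]

private theorem QD_claim {i j : ℕ} (hij : i ≠ j) {X : Finset (ℕ →₀ ℕ)} (hX : Dn X) (w w' : ℕ →₀ ℕ)
    (h1 : ∀ l, l ≠ i → l ≠ j → w' l = w l) (h2 : w' i + w' j + 1 = w i + w j) :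
    min (cn X i j w) (w i + w j) ≤ cn X i j w' := by
  classical
  by_cases hall : ∀ q ≤ w i + w j, ln i j w q ∈ X
  · refine (min_le_right _ _).trans ?_
    unfold cn
    rw [Finset.filter_true_of_mem, Finset.card_range, h2]
    intro q hq
    rw [Finset.mem_range] at hq
    refine hX _ (hall q (by omega)) _ fun l => ?_
    rw [QD_ln hij, QD_ln hij]
    by_cases hlj : l = j
    · rw [if_pos hlj, if_pos hlj]
    · rw [if_neg hlj, if_neg hlj]
      by_cases hli : l = i
      · rw [if_pos hli, if_pos hli]
        omega
      · rw [if_neg hli, if_neg hli, h1 l hli hlj]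
  · push Not at hall
    obtain ⟨p, hp, hpX⟩ := hall
    refine (min_le_left _ _).trans ?_
    unfold cn
    refine Finset.card_le_card_of_injOn (fun q => if q < p then q else q - 1) ?_ ?_
    · intro q hq
      rw [Finset.mem_coe, Finset.mem_filter, Finset.mem_range] at hq
      have hqp : q ≠ p := by
        rintro rfl
        exact hpX hq.2
      rw [Finset.mem_coe, Finset.mem_filter, Finset.mem_range]
      dsimp only
      by_cases hlt : q < p
      · rw [if_pos hlt]
        refine ⟨by omega, hX _ hq.2 _ fun l => ?_⟩
        rw [QD_ln hij, QD_ln hij]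
        by_cases hlj : l = j
        · rw [if_pos hlj, if_pos hlj]
        · rw [if_neg hlj, if_neg hlj]
          by_cases hli : l = i
          · rw [if_pos hli, if_pos hli]
            omega
          · rw [if_neg hli, if_neg hli, h1 l hli hlj]
      · rw [if_neg hlt]
        refine ⟨by omega, hX _ hq.2 _ fun l => ?_⟩
        rw [QD_ln hij, QD_ln hij]
        by_cases hlj : l = j
        · rw [if_pos hlj, if_pos hlj]
          omega
        · rw [if_neg hlj, if_neg hlj]
          by_cases hli : l = i
          · rw [if_pos hli, if_pos hli]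
            omega
          · rw [if_neg hli, if_neg hli, h1 l hli hlj]
    · intro q hq r hr h
      rw [Finset.mem_coe, Finset.mem_filter, Finset.mem_range] at hq hr
      have hqp : q ≠ p := by
        rintro rfl
        exact hpX hq.2
      have hrp : r ≠ p := by
        rintro rfl
        exact hpX hr.2
      dsimp only at h
      split_ifs at h <;> omega

theorem Dn_Cp {i j : ℕ} (hij : i ≠ j) {X : Finset (ℕ →₀ ℕ)} (hX : Dn X) : Dn (Cp X i j) := by
  refine Dn_of_step _ fun w hw k hk => ?_
  rw [mem_Cp hij] at hw ⊢
  have hw' : ∀ l, (w - single k 1 : ℕ →₀ ℕ) l = w l - if k = l then 1 else 0 := by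
    intro l
    rw [Finsupp.tsub_apply, Finsupp.single_apply]
  by_cases hki : k = i
  · have h1 := QD_claim hij hX w (w - single k 1) (by
      intro l hl1 hl2
      rw [hw', if_neg (by rw [hki]; exact fun hh => hl1 hh.symm)]
      omega) (by
      rw [hw', hw', if_pos hki, if_neg (by rw [hki]; exact hij)]
      rw [hki] at hk
      omega)
    rw [hw', if_neg (by rw [hki]; exact hij)]
    rw [hki] at hk h1 ⊢
    have h2 : w j < min (cn X i j w) (w i + w j) := lt_min hw (by omega)
    omega
  · by_cases hkj : k = j
    · have h1 := QD_claim hij hX w (w - single k 1) (by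
        intro l hl1 hl2
        rw [hw', if_neg (by rw [hkj]; exact fun hh => hl2 hh.symm)]
        omega) (by
        rw [hw', hw', if_pos hkj, if_neg hki]
        rw [hkj] at hk
        omega)
      rw [hw', if_pos hkj]
      rw [hkj] at hk h1 ⊢
      have h2 : w j - 1 < min (cn X i j w) (w i + w j) := lt_min (by omega) (by omega)
      omega
    · have ei : (w - single k 1 : ℕ →₀ ℕ) i = w i := by
        rw [hw', if_neg hki]
        omega
      have ej : (w - single k 1 : ℕ →₀ ℕ) j = w j := by
        rw [hw', if_neg hkj]
        omega
      have h1 : cn X i j w ≤ cn X i j (w - single k 1) := by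
        classical
        unfold cn
        rw [ei, ej]
        refine Finset.card_le_card fun q hq => ?_
        rw [Finset.mem_filter] at hq ⊢
        refine ⟨hq.1, hX _ hq.2 _ fun l => ?_⟩
        rw [QD_ln hij, QD_ln hij, ei, ej, hw']
        split_ifs <;> omega
      rw [ej]
      omega

theorem exists_shf (X : Finset (ℕ →₀ ℕ)) (hX : Dn X) : ∃ Y : Finset (ℕ →₀ ℕ), Dn Y ∧ Shf Y ∧
    ∀ k, (Y.filter (fun u => u.degree = k)).card = (X.filter (fun u => u.degree = k)).card := by
  have main : ∀ n : ℕ, ∀ X : Finset (ℕ →₀ ℕ), wt X = n → Dn X → ∃ Y : Finset (ℕ →₀ ℕ), Dn Y ∧ Shf Y ∧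
      ∀ k, (Y.filter (fun u => u.degree = k)).card = (X.filter (fun u => u.degree = k)).card := by
    intro n
    induction n using Nat.strong_induction_on with
    | _ n ih =>
      intro X hn hX
      by_cases hS : Shf X
      · exact ⟨X, hX, hS, fun _ => rfl⟩
      · unfold Shf at hS
        push Not at hS
        obtain ⟨u, hu, i, j, hij, h0, hne⟩ := hS
        obtain ⟨Y, h1, h2, h3⟩ := ih (wt (Cp X i j)) (by rw [← hn]; exact wt_Cp hij X u hu h0 hne) _ rfl
          (Dn_Cp hij.ne hX)
        exact ⟨Y, h1, h2, fun k => (h3 k).trans (card_Cp hij.ne X k)⟩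
  exact main _ X rfl hX

end Pool.LibHM88
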