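import Pool.Agent.LibHM88.QT
import Pool.Agent.LibHM88.QD
import Pool.Agent.LibHM88.QC

/-
Macaulay's theorem for all degrees.
-/

set_option autoImplicit false

namespace Pool.LibHM88

open Pool.Agent.LibHB64 Finsupp

theorem isM_mac {m : ℕ} {s : ℕ → ℕ} (h : IsM m s) {i : ℕ} (h1 : 1 ≤ i) (hi : i + 1 ≤ m) :
    s (i + 1) ≤ macUp i (s i) := by
  classical
  obtain ⟨X, hX, hs⟩ := isM_nat h
  obtain ⟨Y, hY, hYs, hc⟩ := exists_shf X hX
  obtain ⟨k, rfl⟩ : ∃ k, i = k + 1 := ⟨i - 1, by omega⟩
  rw [← hs (k + 1 + 1) hi, ← hs (k + 1) (by omega), ← hc, ← hc]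
  refine macaulay_shf k _ _ (fun u hu => (Finset.mem_filter.1 hu).2)
    (fun u hu => (Finset.mem_filter.1 hu).2) ?_ ?_
  · intro u hu a b hab hb
    rw [Finset.mem_filter] at hu ⊢
    refine ⟨hYs u hu.1 a b hab hb, ?_⟩
    have h2 : u - single b 1 + single b 1 = u := by
      ext x
      simp only [Finsupp.coe_add, Finsupp.coe_tsub, Pi.add_apply, Pi.sub_apply]
      by_cases hx : x = b
      · subst hx
        simp only [single_eq_same]
        omega
      · rw [Finsupp.single_eq_of_ne hx]
        omega
    have h3 : (u - single b 1).degree + 1 = u.degree := by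
      conv_rhs => rw [← h2]
      rw [map_add, Finsupp.degree_single]
    rw [map_add, Finsupp.degree_single, h3, hu.2]
  · intro u hu j hj
    rw [Finset.mem_filter] at hu ⊢
    refine ⟨hY u hu.1 _ tsub_le_self, ?_⟩
    have h2 : u - single j 1 + single j 1 = u := by
      ext x
      simp only [Finsupp.coe_add, Finsupp.coe_tsub, Pi.add_apply, Pi.sub_apply]
      by_cases hx : x = j
      · subst hx
        simp only [single_eq_same]
        omega
      · rw [Finsupp.single_eq_of_ne hx]
        omega
    have h3 : (u - single j 1).degree + 1 = u.degree := by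
      conv_rhs => rw [← h2]
      rw [map_add, Finsupp.degree_single]
    have := hu.2
    omega

end Pool.LibHM88
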