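import Pool.Agent.LibHM88.Q0

/-
PLAN (QL, MEDIUM). Elementary facts on lines (i ≠ j). ln_at_i, ln_at_j, ln_at_other: Finsupp.coe_update, Function.update. ln_self: ext.
ln_ln: for t <= w i + w j the sum of the exponents at i and j is unchanged, so the line is the same. phi_inj: if phi u = phi w for u, w in X, then u and w agree outside of i, j,
u i + u j = w i + w j (sum of the exponents of phi at i and j; rk <= u j <= sum), rk u = rk w; the lines agree; if u j < w j then the point u (= ln w (u j)) of X is counted in rk w and not in rk u, and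
everything counted in rk u is counted in rk w: rk u < rk w, contradiction; symmetric. So u j = w j, u i = w i, u = w. degree_phi: sum over a finset containing both supports; or degree (ln ..) by
Finsupp.degree as sum and Finset.sum over insert; a convenient way: w = v + single i (w i) + single j (w j) and ln i j w q = v + single i (w i + w j - q) + single j q with v = (w.erase i).erase j, then
map_add of degree (Finsupp.degree is an AddMonoidHom) and degree_single. The same decomposition gives the weight: wt1 w := w.sum (fun k a => k * a) is additive (Finsupp.sum_add_index'),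
wt1 (single k a) = k * a, hence for i < j: wt1 (ln i j w q) + (j - i) * (w j - q) = wt1 w for q <= w j (statement wt_ln).
-/

set_option autoImplicit false
set_option linter.unusedSimpArgs false

namespace Pool.LibHM88

open Finsupp

theorem ln_at_i {i j : ℕ} (hij : i ≠ j) (w : ℕ →₀ ℕ) (q : ℕ) : ln i j w q i = w i + w j - q := by
  simp [ln, Finsupp.coe_update, Function.update_apply, hij]

theorem ln_at_j {i j : ℕ} (w : ℕ →₀ ℕ) (q : ℕ) : ln i j w q j = q := by
  simp [ln, Finsupp.coe_update, Function.update_apply]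

theorem ln_at {i j k : ℕ} (hi : k ≠ i) (hj : k ≠ j) (w : ℕ →₀ ℕ) (q : ℕ) :
    ln i j w q k = w k := by
  simp [ln, Finsupp.coe_update, Function.update_apply, hi, hj]

theorem ln_self {i j : ℕ} (w : ℕ →₀ ℕ) : ln i j w (w j) = w := by
  ext k
  by_cases hj : k = j
  · subst hj
    exact ln_at_j w _
  · by_cases hi : k = i
    · subst hi
      rw [ln_at_i hj]
      omega
    · exact ln_at hi hj w _

theorem ln_ln {i j : ℕ} (hij : i ≠ j) (w : ℕ →₀ ℕ) (t q : ℕ) (ht : t ≤ w i + w j) :
    ln i j (ln i j w t) q = ln i j w q := by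
  ext k
  by_cases hj : k = j
  · subst hj
    rw [ln_at_j, ln_at_j]
  · by_cases hi : k = i
    · subst hi
      rw [ln_at_i hj, ln_at_i hj, ln_at_i hj, ln_at_j]
      omega
    · rw [ln_at hi hj, ln_at hi hj, ln_at hi hj]

theorem rk_le (X : Finset (ℕ →₀ ℕ)) (i j : ℕ) (w : ℕ →₀ ℕ) : rk X i j w ≤ w j := by
  unfold rk
  refine (Finset.card_filter_le _ _).trans ?_
  rw [Finset.card_range]

private theorem ql_dec {i j : ℕ} (hij : i ≠ j) (w : ℕ →₀ ℕ) :
    w = (w.erase i).erase j + single i (w i) + single j (w j) := by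
  ext k
  by_cases hj : k = j
  · subst hj
    simp [Finsupp.single_apply, hij]
  · by_cases hi : k = i
    · subst hi
      simp [Finsupp.single_apply, Finsupp.erase_apply, hj, hij, Ne.symm hij]
    · simp [Finsupp.single_apply, Finsupp.erase_apply, hj, hi, Ne.symm hj, Ne.symm hi, eq_comm]

private theorem ql_dec2 {i j : ℕ} (hij : i ≠ j) (w : ℕ →₀ ℕ) (q : ℕ) :
    ln i j w q = (w.erase i).erase j + single i (w i + w j - q) + single j q := by
  have h := ql_dec hij (ln i j w q)
  rw [ln_at_i hij, ln_at_j] at h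
  rw [h]
  congr 2
  ext k
  simp only [Finsupp.erase_apply]
  split_ifs with h1 h2
  · rfl
  · rfl
  · exact ln_at h2 h1 w q

theorem degree_ln {i j : ℕ} (hij : i ≠ j) (w : ℕ →₀ ℕ) (q : ℕ) (hq : q ≤ w i + w j) :
    (ln i j w q).degree = w.degree := by
  have h1 := congrArg Finsupp.degree (ql_dec hij w)
  rw [ql_dec2 hij, h1]
  simp only [map_add, Finsupp.degree_single]
  omega

private theorem ql_wt {i j : ℕ} (v : ℕ →₀ ℕ) (a b : ℕ) :
    (v + single i a + single j b).sum (fun k a => k * a) = v.sum (fun k a => k * a) + i * a + j * b := by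
  rw [Finsupp.sum_add_index' (fun k => Nat.mul_zero k) (fun k a b => Nat.mul_add k a b),
    Finsupp.sum_add_index' (fun k => Nat.mul_zero k) (fun k a b => Nat.mul_add k a b),
    Finsupp.sum_single_index (Nat.mul_zero _), Finsupp.sum_single_index (Nat.mul_zero _)]

theorem wt_ln {i j : ℕ} (hij : i < j) (w : ℕ →₀ ℕ) (q : ℕ) (hq : q ≤ w j) :
    (ln i j w q).sum (fun k a => k * a) + (j - i) * (w j - q) = w.sum fun k a => k * a := by
  have h1 : w.sum (fun k a => k * a) =
      ((w.erase i).erase j).sum (fun k a => k * a) + i * w i + j * w j := by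
    rw [← ql_wt]
    exact congrArg (fun u : ℕ →₀ ℕ => u.sum fun k a => k * a) (ql_dec hij.ne w)
  rw [ql_dec2 hij.ne, ql_wt, h1]
  obtain ⟨d, hd⟩ : ∃ d, w j = q + d := ⟨w j - q, by omega⟩
  obtain ⟨e, rfl⟩ : ∃ e, j = i + e := ⟨j - i, by omega⟩
  rw [hd, show w i + (q + d) - q = w i + d by omega, show q + d - q = d by omega,
    show i + e - i = e by omega]
  ring

private theorem ql_lt {i j : ℕ} (X : Finset (ℕ →₀ ℕ)) {u w : ℕ →₀ ℕ} (hl : ∀ q, ln i j u q = ln i j w q)
    (hu : u ∈ X) (h : u j < w j) : rk X i j u < rk X i j w := by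
  classical
  unfold rk
  apply Finset.card_lt_card
  rw [Finset.ssubset_iff_of_subset]
  · refine ⟨u j, ?_, ?_⟩
    · rw [Finset.mem_filter, Finset.mem_range]
      refine ⟨h, ?_⟩
      rw [← hl, ln_self]
      exact hu
    · rw [Finset.mem_filter, Finset.mem_range]
      intro h1
      exact lt_irrefl _ h1.1
  · intro q hq
    rw [Finset.mem_filter, Finset.mem_range] at hq ⊢
    refine ⟨hq.1.trans h, ?_⟩
    rw [← hl]
    exact hq.2

theorem phi_inj {i j : ℕ} (hij : i ≠ j) (X : Finset (ℕ →₀ ℕ)) :
    Set.InjOn (phi X i j) (X : Set (ℕ →₀ ℕ)) := by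
  intro u hu w hw huw
  rw [Finset.mem_coe] at hu hw
  unfold phi at huw
  have hru := rk_le X i j u
  have hrw := rk_le X i j w
  have hj := congrArg (fun f : ℕ →₀ ℕ => f j) huw
  simp only [ln_at_j] at hj
  have hl : ∀ q, ln i j u q = ln i j w q := by
    intro q
    rw [← ln_ln hij u (rk X i j u) q (by omega), ← ln_ln hij w (rk X i j w) q (by omega), huw]
  rcases lt_trichotomy (u j) (w j) with h | h | h
  · exact absurd (ql_lt X hl hu h) (by omega)
  · rw [← ln_self (i := i) (j := j) u, hl, h, ln_self]
  · exact absurd (ql_lt X (fun q => (hl q).symm) hw h) (by omega)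

end Pool.LibHM88
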