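import Pool.Agent.LibHM88.QL

/-
PLAN (QM, MEDIUM). mem_Cp: (→) w = phi u with u in X: w j = rk u (ln_at_j), the line of w is the line of u (ln_ln), w i + w j = u i + u j, so cn w = cn u, and rk u < cn u: the points counted in rk u and
the point u = ln u (u j) itself. (←) let Q = {q <= w i + w j : ln w q in X} (the finset of cn), t = w j < card Q; choose the element q of Q with exactly t elements of Q below it (Q.orderEmbOfFin, or Nat.nth /
Nat.count, or: the smallest q with card {q' in Q, q' <= q} >= t + 1, Nat.find). u := ln i j w q is in X, its line is the line of w, u j = q, so rk u = card {q' < q, q' in Q} = t and phi u = ln w t = w (ln_self).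
card_Cp: card of the image (phi_inj on the filtered set) and degree_ln (rk <= w j <= w i + w j): (X.image phi).filter (degree = k) = (X.filter (degree = k)).image phi.
wt_Cp: wt (Cp X) = sum over X of the weight of phi (Finset.sum_image with phi_inj), every term is <= (wt_ln with q = rk <= w j), and the term of u is smaller, where u in X, 0 < u j,
u - single j 1 + single i 1 not in X: this monomial is ln i j u (u j - 1) (ext), so not all points below are in X and rk u < u j (filter is a proper subset of range (u j)).
-/

set_option autoImplicit false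

namespace Pool.LibHM88

open Finsupp

private theorem QM_rk_lt {i j : ℕ} (X : Finset (ℕ →₀ ℕ)) (u : ℕ →₀ ℕ) (hu : u ∈ X) :
    rk X i j u < cn X i j u := by
  classical
  unfold rk cn
  apply Finset.card_lt_card
  rw [Finset.ssubset_iff_of_subset]
  · refine ⟨u j, ?_, ?_⟩
    · rw [Finset.mem_filter, Finset.mem_range]
      refine ⟨by omega, ?_⟩
      rw [ln_self]
      exact hu
    · simp
  · intro q hq
    rw [Finset.mem_filter, Finset.mem_range] at hq ⊢
    exact ⟨by omega, hq.2⟩

private theorem QM_rk_ln {i j : ℕ} (hij : i ≠ j) (X : Finset (ℕ →₀ ℕ)) (w : ℕ →₀ ℕ) (q : ℕ)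
    (hq : q ≤ w i + w j) : rk X i j (ln i j w q) =
      ((Finset.range q).filter fun q' => open scoped Classical in ln i j w q' ∈ X).card := by
  classical
  unfold rk
  rw [ln_at_j]
  congr 1
  ext q'
  rw [Finset.mem_filter, Finset.mem_filter, ln_ln hij w q q' hq]

private theorem QM_cn_ln {i j : ℕ} (hij : i ≠ j) (X : Finset (ℕ →₀ ℕ)) (w : ℕ →₀ ℕ) (q : ℕ)
    (hq : q ≤ w i + w j) : cn X i j (ln i j w q) = cn X i j w := by
  classical
  unfold cn
  rw [ln_at_j, ln_at_i hij, Nat.sub_add_cancel hq]
  congr 1
  ext q'
  rw [Finset.mem_filter, Finset.mem_filter, ln_ln hij w q q' hq]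

private theorem QM_step {i j : ℕ} (hij : i ≠ j) (u : ℕ →₀ ℕ) (h0 : 0 < u j) :
    ln i j u (u j - 1) = u - single j 1 + single i 1 := by
  ext k
  rcases eq_or_ne k i with rfl | hki
  · rw [ln_at_i hij]
    simp [hij, hij.symm]
    omega
  · rcases eq_or_ne k j with rfl | hkj
    · rw [ln_at_j]
      simp [hij, hij.symm]
    · rw [ln_at hki hkj]
      simp [hki.symm, hkj.symm]

theorem mem_Cp {i j : ℕ} (hij : i ≠ j) (X : Finset (ℕ →₀ ℕ)) (w : ℕ →₀ ℕ) :
    w ∈ Cp X i j ↔ w j < cn X i j w := by
  classical
  constructor
  · intro hw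
    obtain ⟨u, hu, rfl⟩ := Finset.mem_image.1 hw
    have hle : rk X i j u ≤ u i + u j := (rk_le X i j u).trans (Nat.le_add_left _ _)
    unfold phi
    rw [QM_cn_ln hij X u _ hle, ln_at_j]
    exact QM_rk_lt X u hu
  · intro h
    let p : ℕ → Prop := fun q => q ∈ Finset.range (w i + w j + 1) ∧ ln i j w q ∈ X
    have hfin : (setOf p).Finite :=
      (Finset.finite_toSet (Finset.range (w i + w j + 1))).subset fun q hq => hq.1
    have hcard : hfin.toFinset.card = cn X i j w := by
      unfold cn
      congr 1
      ext q
      rw [Set.Finite.mem_toFinset, Finset.mem_filter]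
      exact Iff.rfl
    have hlt : ∀ hf : (setOf p).Finite, w j < hf.toFinset.card := by
      intro hf
      have : hf.toFinset = hfin.toFinset := rfl
      rw [this, hcard]
      exact h
    have hmem : p (Nat.nth p (w j)) := Nat.nth_mem (w j) hlt
    have hcount : Nat.count p (Nat.nth p (w j)) = w j := Nat.count_nth hlt
    set q := Nat.nth p (w j) with hq
    have hqle : q ≤ w i + w j := by
      have := Finset.mem_range.1 hmem.1
      omega
    refine Finset.mem_image.2 ⟨ln i j w q, hmem.2, ?_⟩
    unfold phi
    rw [QM_rk_ln hij X w q hqle, ln_ln hij w q _ hqle]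
    have h1 : ((Finset.range q).filter fun q' => ln i j w q' ∈ X).card = w j := by
      rw [← hcount, Nat.count_eq_card_filter_range]
      congr 1
      ext q'
      rw [Finset.mem_filter, Finset.mem_filter, Finset.mem_range]
      constructor
      · rintro ⟨h1, h2⟩
        exact ⟨h1, Finset.mem_range.2 (by omega), h2⟩
      · rintro ⟨h1, _, h2⟩
        exact ⟨h1, h2⟩
    rw [h1, ln_self]

theorem card_Cp {i j : ℕ} (hij : i ≠ j) (X : Finset (ℕ →₀ ℕ)) (k : ℕ) :
    ((Cp X i j).filter (fun u => u.degree = k)).card = (X.filter (fun u => u.degree = k)).card := by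
  classical
  have h1 : (Cp X i j).filter (fun u => u.degree = k) =
      (X.filter (fun u => u.degree = k)).image (phi X i j) := by
    unfold Cp
    rw [Finset.filter_image]
    congr 1
    apply Finset.filter_congr
    intro u _
    unfold phi
    rw [degree_ln hij u _ ((rk_le X i j u).trans (Nat.le_add_left _ _))]
  rw [h1]
  apply Finset.card_image_of_injOn
  exact (phi_inj hij X).mono (by
    intro u hu
    exact Finset.mem_coe.2 (Finset.mem_filter.1 (Finset.mem_coe.1 hu)).1)

theorem wt_Cp {i j : ℕ} (hij : i < j) (X : Finset (ℕ →₀ ℕ)) (u : ℕ →₀ ℕ) (hu : u ∈ X)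
    (h0 : 0 < u j) (hn : u - single j 1 + single i 1 ∉ X) : wt (Cp X i j) < wt X := by
  classical
  have hne : i ≠ j := ne_of_lt hij
  unfold wt Cp
  rw [Finset.sum_image (phi_inj hne X)]
  have hterm : ∀ v : ℕ →₀ ℕ, (phi X i j v).sum (fun k a => k * a) + (j - i) * (v j - rk X i j v) =
      v.sum fun k a => k * a := fun v => wt_ln hij v _ (rk_le X i j v)
  apply Finset.sum_lt_sum
  · intro v _
    have := hterm v
    omega
  · refine ⟨u, hu, ?_⟩
    have h1 := hterm u
    have h2 : rk X i j u < u j := by
      unfold rk
      have h3 : ((Finset.range (u j)).filter fun q => ln i j u q ∈ X) ⊂ Finset.range (u j) := by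
        rw [Finset.filter_ssubset]
        refine ⟨u j - 1, Finset.mem_range.2 (by omega), ?_⟩
        rw [QM_step hne u h0]
        exact hn
      have h4 := Finset.card_lt_card h3
      rw [Finset.card_range] at h4
      exact h4
    have h5 : 0 < (j - i) * (u j - rk X i j u) := Nat.mul_pos (by omega) (by omega)
    omega

end Pool.LibHM88
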