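import Pool.Agent.LibHM88.Q0

/-
PLAN (QN1, MEDIUM, natural numbers only). macA i q (i >= 1) is the a with C(a, i) <= q < C(a+1, i): Nat.findGreatest_spec (0 is a witness:
C(0, i) = 0 for i >= 1), upper bound: if C(a+1, i) <= q then a + 1 <= q + i (C(a+1, i) >= a + 1 - i + 1 for a + 1 >= i, by induction, or
Nat.choose monotone and C(i + k, i) >= k + 1) and findGreatest is maximal. UNIQUENESS: C(., i) is monotone (Nat.choose_le_choose /
Nat.choose_mono), so C(a, i) <= q < C(a+1, i) gives a = macA i q.
macUp_zero: macA (i+1) 0 = i (C(i, i+1) = 0 < 1 = C(i+1, i+1)), C(i+1, i+2) = 0, induction.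
macUp_choose: q = C(a, i+1): if a <= i both sides are 0; otherwise C(a, i+1) < C(a+1, i+1) (Pascal, C(a, i) > 0), so macA = a, rest 0.
macUp_block (i >= 1, here i + 1 in place of i; r <= C(a, i+1)): if C(a, i+1) = 0 then r = 0 and C(a, i+2) = 0, both sides are 0 (a < i+1). If
r < C(a, i+1) then C(a, i+2) <= q < C(a+1, i+2), macA = a. If r = C(a, i+1) then q = C(a+1, i+2) and macUp_choose on both sides and Pascal.
macUp_succ_lt: strict monotonicity, induction on i: degree 1: macUp 1 q = C(q+1, 2). Degree i+2: q and q+1 are both in the closed block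
C(a, i+2) + [0, C(a, i+1)] of a = macA (i+2) q: macUp_block twice and induction. le_macUp: induction on q with strictness and macUp_zero.
-/

set_option autoImplicit false

namespace Pool.LibHM88

private lemma qn1_le (i n : ℕ) : n ≤ n.choose (i + 1) + i := by
  induction n with
  | zero => omega
  | succ n ih =>
    rw [Nat.choose_succ_succ']
    rcases Nat.lt_or_ge n i with h | h
    · omega
    · have := Nat.choose_pos h
      omega

theorem macA_spec (i q : ℕ) :
    (macA (i + 1) q).choose (i + 1) ≤ q ∧ q < (macA (i + 1) q + 1).choose (i + 1) := by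
  constructor
  · exact Nat.findGreatest_spec (P := fun a => a.choose (i + 1) ≤ q) (m := 0)
      (Nat.zero_le (q + (i + 1))) (by simp)
  · by_contra h
    push Not at h
    have h1 := qn1_le i (macA (i + 1) q + 1)
    have h2 : macA (i + 1) q + 1 ≤ macA (i + 1) q :=
      Nat.le_findGreatest (P := fun a => a.choose (i + 1) ≤ q) (n := q + (i + 1)) (by omega) h
    omega

private lemma macA_unique {i q a : ℕ} (h1 : a.choose (i + 1) ≤ q)
    (h2 : q < (a + 1).choose (i + 1)) : macA (i + 1) q = a := by
  obtain ⟨h3, h4⟩ := macA_spec i q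
  rcases Nat.lt_trichotomy (macA (i + 1) q) a with h | h | h
  · have := Nat.choose_le_choose (i + 1) (show macA (i + 1) q + 1 ≤ a from h)
    omega
  · exact h
  · have := Nat.choose_le_choose (i + 1) (show a + 1 ≤ macA (i + 1) q from h)
    omega

private lemma macUp_unfold (i q : ℕ) : macUp (i + 1) q =
    (macA (i + 1) q + 1).choose (i + 2) + macUp i (q - (macA (i + 1) q).choose (i + 1)) := rfl

theorem macUp_zero (i : ℕ) : macUp i 0 = 0 := by
  induction i with
  | zero => rfl
  | succ i ih =>
    have h : macA (i + 1) 0 = i := macA_unique (by simp) (by simp)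
    rw [macUp_unfold, h, Nat.zero_sub, ih, Nat.choose_eq_zero_of_lt (by omega)]

theorem macUp_choose (i a : ℕ) : macUp (i + 1) (a.choose (i + 1)) = (a + 1).choose (i + 2) := by
  rcases Nat.lt_or_ge i a with h | h
  · have hp := Nat.choose_pos h.le
    have e : macA (i + 1) (a.choose (i + 1)) = a :=
      macA_unique le_rfl (by rw [Nat.choose_succ_succ']; omega)
    rw [macUp_unfold, e, Nat.sub_self, macUp_zero, Nat.add_zero]
  · rw [Nat.choose_eq_zero_of_lt (by omega : a < i + 1), macUp_zero,
      Nat.choose_eq_zero_of_lt (by omega)]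

theorem macUp_block (i a r : ℕ) (hr : r ≤ a.choose (i + 1)) :
    macUp (i + 2) (a.choose (i + 2) + r) = (a + 1).choose (i + 3) + macUp (i + 1) r := by
  rcases Nat.lt_or_ge r (a.choose (i + 1)) with h | h
  · have e : macA (i + 2) (a.choose (i + 2) + r) = a :=
      macA_unique (i := i + 1) (by show a.choose (i + 2) ≤ _; omega)
        (by rw [Nat.choose_succ_succ']; show _ < _ + a.choose (i + 2); omega)
    rw [macUp_unfold (i + 1), e, Nat.add_sub_cancel_left]
  · have e : r = a.choose (i + 1) := le_antisymm hr h
    have e1 : a.choose (i + 2) + r = (a + 1).choose (i + 2) := by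
      rw [Nat.choose_succ_succ' a (i + 1), e, Nat.add_comm]
    rw [e1, macUp_choose (i + 1) (a + 1), e, macUp_choose i a,
      Nat.choose_succ_succ' (a + 1) (i + 2), Nat.add_comm]

theorem macUp_one (q : ℕ) : macUp 1 q = (q + 1).choose 2 := by
  have := macUp_choose 0 q
  simpa using this

theorem macUp_succ_lt (i q : ℕ) : macUp (i + 1) q < macUp (i + 1) (q + 1) := by
  induction i generalizing q with
  | zero =>
    rw [macUp_one, macUp_one, Nat.choose_succ_succ' (q + 1) 1]
    have : (q + 1).choose 1 = q + 1 := Nat.choose_one_right _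
    show _ < _ + (q + 1).choose 2
    omega
  | succ i ih =>
    obtain ⟨h1, h2⟩ := macA_spec (i + 1) q
    rw [Nat.choose_succ_succ'] at h2
    obtain ⟨a, ha⟩ : ∃ a, a = macA (i + 1 + 1) q := ⟨_, rfl⟩
    rw [← ha] at h1 h2
    obtain ⟨r, hr⟩ : ∃ r, q = a.choose (i + 2) + r := ⟨q - a.choose (i + 2), by
      have : a.choose (i + 2) ≤ q := h1
      omega⟩
    have hr1 : r < a.choose (i + 1) := by
      have : q < a.choose (i + 1) + a.choose (i + 2) := h2
      omega
    have e1 := macUp_block i a r hr1.le
    have e2 := macUp_block i a (r + 1) hr1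
    have h3 := ih r
    rw [hr]
    show macUp (i + 2) (a.choose (i + 2) + r) < macUp (i + 2) (a.choose (i + 2) + (r + 1))
    rw [e1, e2]
    omega

theorem macUp_strictMono (i : ℕ) : StrictMono (macUp (i + 1)) :=
  strictMono_nat_of_lt_succ (macUp_succ_lt i)

theorem le_macUp (i q : ℕ) : q ≤ macUp (i + 1) q := by
  induction q with
  | zero => omega
  | succ q ih =>
    have := macUp_succ_lt i q
    omega

end Pool.LibHM88
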