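import Pool.Agent.LibHM88.QN1

/-
PLAN (QN2, MEDIUM, natural numbers only). num_one: C(q-b+1, 2) <= C(q, 2) for b >= 1 and q + C(q, 2) = C(q+1, 2).
macUp_num by induction on i. Put a = macA (i+2) q, q = C(a, i+2) + r, 0 <= r < C(a, i+1) (Pascal: C(a+1, i+2) = C(a, i+1) + C(a, i+2)), so
U := macUp (i+2) q = C(a+1, i+3) + macUp (i+1) r (definition or macUp_block). For q = 0 everything is 0 (b = 0, macUp_zero).
For q >= 1: a >= i+2 (otherwise C(a+1, i+2) <= 1, and if a + 1 = i + 2 then q < 1).
(1) b >= C(a-1, i+1): otherwise macUp (i+1) b < macUp (i+1) (C(a-1, i+1)) = C(a, i+2) <= q (macUp_strictMono, macUp_choose). b = C(a-1, i+1) + b'.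
(2) if r <= b': q - b <= C(a, i+2) - C(a-1, i+1) = C(a-1, i+2), macUp (i+2) (q - b) <= C(a, i+3) (monotone, macUp_choose),
 q + C(a, i+3) = C(a+1, i+3) + r <= C(a+1, i+3) + macUp (i+1) r (le_macUp).
(3) if b' < r: i = 0: r <= b' + (r - b'), here b' could be 0: b = a - 1 + b', q <= macUp 1 b = C(b+1, 2); if b' = 0 then q <= C(a, 2), r = 0, contradiction; so b' >= 1,
 q - b = C(a-1, 2) + (r - b'), r - b' <= r - 1 <= a - 1, macUp_block: macUp 2 (q - b) = C(a, 3) + C(r - b' + 1, 2) <= C(a, 3) + C(r, 2) and q + C(a, 3) + C(r, 2) = C(a+1, 3) + C(r+1, 2).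
 i >= 1 (i = k + 1): b' may be assumed <= C(a-1, i) (otherwise b' > C(a-1, i), but r <= C(a, i+1) = macUp i (C(a-1, i)), so b'' := C(a-1, i) is a smaller admissible value: replace b by the
 smaller number C(a-1, i+1) + C(a-1, i), the left side only grows (monotone macUp)). Then macUp (i+1) b = C(a, i+2) + macUp i b' (macUp_block), so r <= macUp i b', and the induction
 hypothesis gives r + macUp (i+1) (r - b') <= macUp (i+1) r. Moreover r - b' <= C(a-1, i+1): r <= C(a, i+1) = C(a-1, i) + C(a-1, i+1); if b' = C(a-1, i) clear; if b' < C(a-1, i) then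
 macUp i b' + (C(a-1, i) - b') <= macUp i (C(a-1, i)) = C(a, i+1) (strictly increasing functions grow by at least the difference), so r - b' <= C(a, i+1) - C(a-1, i) = C(a-1, i+1).
 macUp_block: macUp (i+2) (q - b) = macUp (i+2) (C(a-1, i+2) + (r - b')) = C(a, i+3) + macUp (i+1) (r - b'). Sum: q + ... = C(a, i+2) + C(a, i+3) + r + macUp (i+1) (r - b') <= U.
-/

set_option autoImplicit false

namespace Pool.LibHM88

theorem num_one (q b : ℕ) (hb : 1 ≤ b) (hq : b ≤ q) : q + macUp 1 (q - b) ≤ macUp 1 q := by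
  rw [macUp_one, macUp_one]
  have h1 : (q + 1).choose 2 = q + q.choose 2 := by
    rw [Nat.choose_succ_succ' q 1, Nat.choose_one_right]
  have h2 : (q - b + 1).choose 2 ≤ q.choose 2 := Nat.choose_le_choose 2 (by omega)
  omega

private theorem QN2_grow (i x y : ℕ) (h : x ≤ y) : macUp (i + 1) x + (y - x) ≤ macUp (i + 1) y := by
  induction y, h using Nat.le_induction with
  | base => simp
  | succ y hy ih =>
    have := macUp_succ_lt i y
    omega

theorem macUp_num (i q b : ℕ) (h : q ≤ macUp (i + 1) b) (hb : b ≤ q) :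
    q + macUp (i + 2) (q - b) ≤ macUp (i + 2) q := by
  induction i generalizing q b with
  | zero =>
    rcases Nat.eq_zero_or_pos q with hq0 | hq0
    · subst hq0
      rw [Nat.zero_sub, macUp_zero]
    have hspec := macA_spec 1 q
    obtain ⟨a, ha⟩ : ∃ a, a = macA 2 q := ⟨_, rfl⟩
    have ha1 : a.choose 2 ≤ q := by rw [ha]; exact hspec.1
    have ha2 : q < (a + 1).choose 2 := by rw [ha]; exact hspec.2
    obtain ⟨a', haa⟩ : ∃ a', a = a' + 1 := by
      rcases Nat.eq_zero_or_pos a with h0 | h0
      · rw [h0] at ha2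
        norm_num at ha2
      · exact ⟨a - 1, by omega⟩
    rw [haa] at ha1 ha2
    have e1 : (a' + 1 + 1).choose 2 = (a' + 1) + (a' + 1).choose 2 := by
      rw [Nat.choose_succ_succ' (a' + 1) 1, Nat.choose_one_right]
    have e2 : (a' + 1).choose 2 = a' + a'.choose 2 := by
      rw [Nat.choose_succ_succ' a' 1, Nat.choose_one_right]
    have e3 : (a' + 1 + 1).choose 3 = (a' + 1).choose 2 + (a' + 1).choose 3 := Nat.choose_succ_succ' _ _
    have hc0 : macUp 1 a' = (a' + 1).choose 2 := macUp_one a'
    have h : q ≤ macUp 1 b := h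
    obtain ⟨r, hr⟩ : ∃ r, q = (a' + 1).choose 2 + r := ⟨q - (a' + 1).choose 2, by omega⟩
    have hr1 : r < a' + 1 := by omega
    have hU : macUp 2 q = (a' + 1 + 1).choose 3 + macUp 1 r := by
      rw [hr]
      exact macUp_block 0 (a' + 1) r (by rw [Nat.choose_one_right]; omega)
    -- b is at least a'
    have hb1 : a' ≤ b := by
      by_contra hcon
      push Not at hcon
      have h1 : macUp 1 b < macUp 1 a' := macUp_strictMono 0 hcon
      omega
    obtain ⟨b', hb'⟩ : ∃ b', b = a' + b' := ⟨b - a', by omega⟩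
    show q + macUp 2 (q - b) ≤ macUp 2 q
    rw [hU]
    by_cases hrb : r ≤ b'
    · have h1 : q - b ≤ a'.choose 2 := by omega
      have h2 : macUp 2 (q - b) ≤ (a' + 1).choose 3 := by
        have h5 : macUp 2 (a'.choose 2) = (a' + 1).choose 3 := macUp_choose 1 a'
        rw [← h5]
        exact (macUp_strictMono 1).monotone h1
      have h3 : r ≤ macUp 1 r := le_macUp 0 r
      omega
    · push Not at hrb
      have hb0 : 1 ≤ b' := by
        by_contra hcon
        have hb0 : b' = 0 := by omega
        rw [hb', hb0, Nat.add_zero, hc0] at h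
        omega
      have h1 : q - b = a'.choose 2 + (r - b') := by omega
      have h4 : macUp 2 (a'.choose 2 + (r - b')) = (a' + 1).choose 3 + macUp 1 (r - b') :=
        macUp_block 0 a' (r - b') (by rw [Nat.choose_one_right]; omega)
      have h3 := num_one r b' hb0 hrb.le
      rw [h1, h4]
      omega
  | succ k ih =>
    rcases Nat.eq_zero_or_pos q with hq0 | hq0
    · subst hq0
      rw [Nat.zero_sub, macUp_zero]
    obtain ⟨ha1, ha2⟩ := macA_spec (k + 2) q
    set a := macA (k + 2 + 1) q with ha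
    obtain ⟨a', haa⟩ : ∃ a', a = a' + 1 := by
      rcases Nat.eq_zero_or_pos a with h0 | h0
      · rw [h0, Nat.choose_eq_zero_of_lt (by omega)] at ha2
        omega
      · exact ⟨a - 1, by omega⟩
    rw [haa] at ha1 ha2
    have e1 : (a' + 1 + 1).choose (k + 3) = (a' + 1).choose (k + 2) + (a' + 1).choose (k + 3) :=
      Nat.choose_succ_succ' _ _
    have e2 : (a' + 1).choose (k + 3) = a'.choose (k + 2) + a'.choose (k + 3) := Nat.choose_succ_succ' _ _
    have e3 : (a' + 1 + 1).choose (k + 4) = (a' + 1).choose (k + 3) + (a' + 1).choose (k + 4) :=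
      Nat.choose_succ_succ' _ _
    have e4 : (a' + 1).choose (k + 2) = a'.choose (k + 1) + a'.choose (k + 2) := Nat.choose_succ_succ' _ _
    have ha1' : (a' + 1).choose (k + 3) ≤ q := ha1
    have ha2' : q < (a' + 1 + 1).choose (k + 3) := ha2
    obtain ⟨r, hr⟩ : ∃ r, q = (a' + 1).choose (k + 3) + r := ⟨q - (a' + 1).choose (k + 3), by omega⟩
    have hr1 : r < (a' + 1).choose (k + 2) := by omega
    have hU : macUp (k + 3) q = (a' + 1 + 1).choose (k + 4) + macUp (k + 2) r := by
      rw [hr]
      exact macUp_block (k + 1) (a' + 1) r hr1.le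
    have hb1 : a'.choose (k + 2) ≤ b := by
      by_contra hcon
      push Not at hcon
      have h1 := macUp_strictMono (k + 1) hcon
      have h2 : macUp (k + 2) (a'.choose (k + 2)) = (a' + 1).choose (k + 3) := macUp_choose (k + 1) a'
      have h3 : q ≤ macUp (k + 2) b := h
      have h4 : macUp (k + 2) b < macUp (k + 2) (a'.choose (k + 2)) := h1
      omega
    obtain ⟨b', hb'⟩ : ∃ b', b = a'.choose (k + 2) + b' := ⟨b - a'.choose (k + 2), by omega⟩
    show q + macUp (k + 3) (q - b) ≤ macUp (k + 3) q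
    rw [hU]
    by_cases hrb : r ≤ b'
    · have h1 : q - b ≤ a'.choose (k + 3) := by omega
      have h2 : macUp (k + 3) (q - b) ≤ (a' + 1).choose (k + 4) := by
        have h5 : macUp (k + 3) (a'.choose (k + 3)) = (a' + 1).choose (k + 4) := macUp_choose (k + 2) a'
        rw [← h5]
        exact (macUp_strictMono (k + 2)).monotone h1
      have h3 : r ≤ macUp (k + 2) r := le_macUp (k + 1) r
      omega
    · push Not at hrb
      have hc1 : macUp (k + 1) (a'.choose (k + 1)) = (a' + 1).choose (k + 2) := macUp_choose k a'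
      obtain ⟨b2, hb2, hb3, hb4, hb5⟩ : ∃ b2, b2 ≤ b' ∧ b2 ≤ a'.choose (k + 1) ∧ b2 ≤ r ∧ r ≤ macUp (k + 1) b2 := by
        by_cases hbc : b' ≤ a'.choose (k + 1)
        · refine ⟨b', le_rfl, hbc, hrb.le, ?_⟩
          have h1 : macUp (k + 2) (a'.choose (k + 2) + b') = (a' + 1).choose (k + 3) + macUp (k + 1) b' :=
            macUp_block k a' b' hbc
          have h2 : q ≤ macUp (k + 2) b := h
          rw [hb', h1] at h2
          omega
        · push Not at hbc
          refine ⟨a'.choose (k + 1), hbc.le, le_rfl, by omega, ?_⟩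
          rw [hc1]
          exact hr1.le
      have hIH : r + macUp (k + 2) (r - b2) ≤ macUp (k + 2) r := ih r b2 hb5 hb4
      have hg := QN2_grow k b2 (a'.choose (k + 1)) hb3
      rw [hc1] at hg
      have h6 : r - b2 ≤ a'.choose (k + 2) := by omega
      have h7 : macUp (k + 3) (a'.choose (k + 3) + (r - b2)) = (a' + 1).choose (k + 4) + macUp (k + 2) (r - b2) :=
        macUp_block (k + 1) a' (r - b2) h6
      have h8 : q - b ≤ a'.choose (k + 3) + (r - b2) := by omega
      have h9 : macUp (k + 3) (q - b) ≤ macUp (k + 3) (a'.choose (k + 3) + (r - b2)) :=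
        (macUp_strictMono (k + 2)).monotone h8
      rw [h7] at h9
      omega

end Pool.LibHM88
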