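import Pool.Agent.LibHM88.Q0
import Pool.Agent.LibHB64.Defs

/-
PLAN (QT, SHORT/MEDIUM). Transfer from Fin n →₀ ℕ to ℕ →₀ ℕ. In LibHM88/MA.lean (not imported) there is isM_finset: the truncation of the
order ideal to degrees <= m is finite (Finsupp.le_degree, Set.finite_Iic); copy it as a private lemma. Then X := image (or map) of that finset by
Finsupp.embDomain Fin.valEmbedding (injective: Finsupp.embDomain_injective); degree is preserved (Finsupp.degree_eq_sum or degree as sum over the
support, Finsupp.sum_embDomain / support_embDomain). Dn: if w <= embDomain u then w is zero outside of the range, so w = embDomain (w.comapDomain ..) with comapDomain w <= u.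
-/

set_option autoImplicit false

namespace Pool.LibHM88

open Pool.Agent.LibHB64

private theorem QT_down {n : ℕ} (u : Fin n →₀ ℕ) (w : ℕ →₀ ℕ)
    (h : w ≤ Finsupp.mapDomain Fin.val u) :
    ∃ w' : Fin n →₀ ℕ, w' ≤ u ∧ Finsupp.mapDomain Fin.val w' = w := by
  have hinj : Function.Injective (Fin.val : Fin n → ℕ) := Fin.val_injective
  refine ⟨w.comapDomain Fin.val hinj.injOn, ?_, ?_⟩
  · intro i
    have h1 := h i.val
    rw [Finsupp.mapDomain_apply hinj] at h1
    rw [Finsupp.comapDomain_apply]
    exact h1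
  · ext j
    by_cases hj : j ∈ Set.range (Fin.val : Fin n → ℕ)
    · obtain ⟨i, rfl⟩ := hj
      rw [Finsupp.mapDomain_apply hinj, Finsupp.comapDomain_apply]
    · rw [Finsupp.mapDomain_of_notMem_range _ _ hj]
      have h1 := h j
      rw [Finsupp.mapDomain_of_notMem_range _ _ hj] at h1
      exact (Nat.le_zero.1 h1).symm

theorem isM_nat {m : ℕ} {s : ℕ → ℕ} (h : IsM m s) : ∃ X : Finset (ℕ →₀ ℕ), Dn X ∧
    ∀ i ≤ m, (X.filter (fun u => Finsupp.degree u = i)).card = s i := by
  classical
  obtain ⟨n, M, h0, hM, hs⟩ := h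
  have hfin : {a : Fin n →₀ ℕ | a ∈ M ∧ a.degree ≤ m}.Finite :=
    (Finsupp.finite_of_degree_le m).subset fun a ha => ha.2
  have hinj : Function.Injective (Finsupp.mapDomain (M := ℕ) (Fin.val : Fin n → ℕ)) :=
    Finsupp.mapDomain_injective Fin.val_injective
  refine ⟨hfin.toFinset.image (Finsupp.mapDomain Fin.val), ?_, ?_⟩
  · intro u hu w hw
    rw [Finset.mem_image] at hu
    obtain ⟨u', hu', rfl⟩ := hu
    obtain ⟨w', hw', rfl⟩ := QT_down u' w hw
    rw [Set.Finite.mem_toFinset] at hu'
    refine Finset.mem_image_of_mem _ ?_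
    rw [Set.Finite.mem_toFinset]
    refine ⟨hM u' hu'.1 w' hw', ?_⟩
    exact (Finsupp.degree_mono hw').trans hu'.2
  · intro i hi
    rw [← hs i hi]
    have h1 : (hfin.toFinset.image (Finsupp.mapDomain Fin.val)).filter
        (fun u : ℕ →₀ ℕ => Finsupp.degree u = i) =
        (hfin.toFinset.filter (fun a : Fin n →₀ ℕ => a.degree = i)).image
          (Finsupp.mapDomain Fin.val) := by
      rw [Finset.filter_image]
      congr 1
      apply Finset.filter_congr
      intro a _
      rw [Finsupp.degree_mapDomain]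
    rw [h1, Finset.card_image_of_injective _ hinj, ← Set.ncard_coe_finset]
    congr 1
    ext a
    rw [Finset.mem_coe, Finset.mem_filter, Set.Finite.mem_toFinset]
    constructor
    · rintro ⟨h2, h3⟩
      exact ⟨h2.1, h3⟩
    · rintro ⟨h2, h3⟩
      exact ⟨⟨h2, h3.le.trans hi⟩, h3⟩

end Pool.LibHM88
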