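import Pool.Agent.LibHB64.Defs

/-
Block SHB: shellable balls are homology balls over the field with two elements. Definitions.
Relative chains on a family Y of faces (Y = faces of D, of the interior, of the boundary, containing a face s).
-/

set_option autoImplicit false

namespace Pool.LibHM88

open Pool.Agent.LibHB64 Finset

variable {V : Type*} [Fintype V] [DecidableEq V]

/-- chain of size `n` on the family `Y` -/
def RC (Y : Finset (Finset V)) (n : ℕ) (c : Finset V → ZMod 2) : Prop :=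
  ∀ t, c t ≠ 0 → t ∈ Y ∧ t.card = n

/-- relative cycle -/
def RCyc (Y : Finset (Finset V)) (c : Finset V → ZMod 2) : Prop := ∀ t ∈ Y, bdry c t = 0

/-- relative exactness in size `n` -/
def RAcyc (Y : Finset (Finset V)) (n : ℕ) : Prop :=
  ∀ c, RC Y n c → RCyc Y c → ∃ b, RC Y (n + 1) b ∧ ∀ t ∈ Y, bdry b t = c t

def RTopZero (Y : Finset (Finset V)) (n : ℕ) : Prop :=
  ∀ c, RC Y n c → RCyc Y c → ∀ t, c t = 0

def RTopOne (Y : Finset (Finset V)) (n : ℕ) : Prop :=
  ∃ z, RC Y n z ∧ RCyc Y z ∧ (∃ s, z s ≠ 0) ∧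
    ∀ c, RC Y n c → RCyc Y c → (∀ s, c s = 0) ∨ ∀ s, c s = z s

/-- the faces of `X` containing `s` -/
def up (X : Finset (Finset V)) (s : Finset V) : Finset (Finset V) := X.filter fun t => s ⊆ t

/-- order convex -/
def Conv (Y : Finset (Finset V)) : Prop := ∀ a ∈ Y, ∀ b ∈ Y, ∀ t, a ⊆ t → t ⊆ b → t ∈ Y

/-- interval -/
def itv (A F : Finset V) : Finset (Finset V) := univ.filter fun t => A ⊆ t ∧ t ⊆ F

/-- shelling data with functions -/
structure Sh (d : ℕ) (D : Finset (Finset V)) (K : ℕ) (F R : Fin K → Finset V) : Prop where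
  pos : 1 ≤ d
  Kpos : 0 < K
  card : ∀ k, (F k).card = d
  inj : Function.Injective F
  sub : ∀ k, R k ⊂ F k
  shell : ∀ k s, s ⊆ F k → ((∃ i, i < k ∧ s ⊆ F i) ↔ ¬ R k ⊆ s)
  two : ∀ s, s.card = d - 1 → (univ.filter fun k => s ⊆ F k).card ≤ 2
  mem : ∀ s, s ∈ D ↔ ∃ k, s ⊆ F k

/-- the complex of the first `j` facets -/
def pre {K : ℕ} (F : Fin K → Finset V) (j : ℕ) : Finset (Finset V) :=
  univ.filter fun t => ∃ k : Fin K, (k : ℕ) < j ∧ t ⊆ F k

/-- the boundary: faces contained in a ridge that lies in exactly one facet -/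
def Bd (d : ℕ) (D : Finset (Finset V)) {K : ℕ} (F : Fin K → Finset V) : Finset (Finset V) :=
  D.filter fun s => ∃ t, s ⊆ t ∧ t.card = d - 1 ∧ (univ.filter fun k => t ⊆ F k).card = 1

end Pool.LibHM88
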