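import Pool.Agent.LibHM88.SD

/-
PLAN (SH1, SHORT/MEDIUM). bdry c t = SUM over v not in t of c (insert v t). bdry_bdry: the double sum over ordered pairs (v, w), v not in t, w not in insert v t, of c (insert w (insert v t)) is symmetric under (v, w) -> (w, v) without fixed points, in ZMod 2 the sum is zero
(Finset.sum_involution or: sum over v < w twice; ZMod 2: x + x = 0, CharTwo.add_self_eq_zero). bdry_res: the terms with insert v t not in Y vanish anyway: bdry c (insert v t) != 0 would give w with insert w (insert v t) in Y, t in Y, so insert v t in Y (Conv). So it equals bdry_bdry.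
-/

set_option autoImplicit false

namespace Pool.LibHM88

open Pool.Agent.LibHB64 Finset

variable {V : Type*} [Fintype V] [DecidableEq V]

theorem bdry_bdry (c : Finset V → ZMod 2) (t : Finset V) : bdry (bdry c) t = 0 := by
  unfold bdry
  rw [Finset.sum_sigma']
  apply Finset.sum_involution (fun p _ => ⟨p.2, p.1⟩)
  · rintro ⟨v, w⟩ hp
    simp only
    rw [Finset.insert_comm v w t]
    exact CharTwo.add_self_eq_zero _
  · rintro ⟨v, w⟩ hp _ heq
    simp only [Finset.mem_sigma, Finset.mem_compl, Finset.mem_insert, not_or] at hp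
    simp only [Sigma.mk.injEq] at heq
    exact hp.2.1 heq.1
  · rintro ⟨v, w⟩ hp
    rfl
  · rintro ⟨v, w⟩ hp
    simp only [Finset.mem_sigma, Finset.mem_compl, Finset.mem_insert, not_or] at hp ⊢
    exact ⟨hp.2.2, fun h => hp.2.1 h.symm, hp.1⟩

theorem bdry_res {Y : Finset (Finset V)} (hY : Conv Y) {c : Finset V → ZMod 2}
    (hc : ∀ t, c t ≠ 0 → t ∈ Y) {t : Finset V} (ht : t ∈ Y) :
    bdry (fun u => if u ∈ Y then bdry c u else 0) t = 0 := by
  have h1 := bdry_bdry c t
  refine Eq.trans ?_ h1
  show ∑ v ∈ tᶜ, (if insert v t ∈ Y then bdry c (insert v t) else 0) =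
    ∑ v ∈ tᶜ, bdry c (insert v t)
  apply Finset.sum_congr rfl
  intro v _
  by_cases hv : insert v t ∈ Y
  · rw [if_pos hv]
  · rw [if_neg hv]
    symm
    unfold bdry
    apply Finset.sum_eq_zero
    intro w _
    by_contra hne
    exact hv (hY t ht _ (hc _ hne) _ (Finset.subset_insert _ _) (Finset.subset_insert _ _))

end Pool.LibHM88
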