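import Pool.Agent.LibHM88.SH9

/-
PLAN (SH10, MEDIUM). For j <= K let I_j := {t : s ⊆ t, exists k, j <= k, F k \ R k ⊆ t ⊆ F k} (suffix). Downward induction on j: I_K = ∅; I_j = I_(j+1) ∪ (itv (s ∪ (F j \ R j)) (F j) if s ⊆ F j, else ∅). Disjoint: last_facet (t in both: index of the last facet containing t is unique). Closed: t in I_(j+1), t.erase v in the interval j:
then F j is the last facet containing t.erase v, but t (so t.erase v) is contained in F k, k > j: contradiction. Conv of I_j: a ⊆ t ⊆ b, a, b in I_j: F k the last facet containing a resp. F k' the last one containing b; t ⊆ F k', t in D; t is not in Bd because a is not (Bd is closed under subsets in D), so t is in the interval of its last facet, whose index is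
>= k' >= j (t ⊆ b ⊆ F k'). Interval acyclic: acyc_itv if s ∪ (F j \ R j) != F j, otherwise it is {F j}: acyc_size, n < d. I_0 = up (D \ Bd) s by int_iff.
-/

set_option autoImplicit false

namespace Pool.LibHM88

open Pool.Agent.LibHB64 Finset

variable {V : Type*} [Fintype V] [DecidableEq V]

private theorem SH10_sub {d : ℕ} {D : Finset (Finset V)} {K : ℕ} {F R : Fin K → Finset V}
    (h : Sh d D K F R) {a t : Finset V} (hat : a ⊆ t) (ht : t ∈ Bd d D F) : a ∈ Bd d D F := by
  classical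
  rw [Bd, mem_filter] at ht ⊢
  obtain ⟨htD, r, h1, h2, h3⟩ := ht
  obtain ⟨k, hk⟩ := (h.mem t).1 htD
  exact ⟨(h.mem a).2 ⟨k, hat.trans hk⟩, r, hat.trans h1, h2, h3⟩

private noncomputable def SH10_I {K : ℕ} (F R : Fin K → Finset V) (s : Finset V) (j : ℕ) : Finset (Finset V) :=
  by classical exact univ.filter fun t => s ⊆ t ∧ ∃ k : Fin K, j ≤ (k : ℕ) ∧ F k \ R k ⊆ t ∧ t ⊆ F k

private theorem SH10_mem {K : ℕ} {F R : Fin K → Finset V} {s t : Finset V} {j : ℕ} :
    t ∈ SH10_I F R s j ↔ s ⊆ t ∧ ∃ k : Fin K, j ≤ (k : ℕ) ∧ F k \ R k ⊆ t ∧ t ⊆ F k := by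
  classical
  rw [SH10_I, mem_filter]
  exact ⟨fun h => h.2, fun h => ⟨mem_univ _, h⟩⟩

private theorem SH10_conv {d : ℕ} {D : Finset (Finset V)} {K : ℕ} {F R : Fin K → Finset V}
    (h : Sh d D K F R) (s : Finset V) (j : ℕ) : Conv (SH10_I F R s j) := by
  intro a ha b hb t hat htb
  rw [SH10_mem] at ha hb ⊢
  obtain ⟨ha1, k, hk1, hk2, hk3⟩ := ha
  obtain ⟨hb1, l, hl1, hl2, hl3⟩ := hb
  have haD : a ∈ D \ Bd d D F := (int_iff h a).2 ⟨k, hk2, hk3⟩
  have htD : t ∈ D \ Bd d D F := by
    rw [mem_sdiff]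
    refine ⟨(h.mem t).2 ⟨l, htb.trans hl3⟩, fun ht => ?_⟩
    exact (mem_sdiff.1 haD).2 (SH10_sub h hat ht)
  obtain ⟨m, hm1, hm2⟩ := (int_iff h t).1 htD
  have hlm := last_facet h m t hm1 hm2 l (htb.trans hl3)
  exact ⟨ha1.trans hat, m, hl1.trans hlm, hm1, hm2⟩

private theorem SH10_step {d : ℕ} {D : Finset (Finset V)} {K : ℕ} {F R : Fin K → Finset V}
    (h : Sh d D K F R) (s : Finset V) (n : ℕ) (hn : n < d) (j : Fin K)
    (ih : RAcyc (SH10_I F R s (j + 1)) n) : RAcyc (SH10_I F R s j) n := by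
  classical
  obtain ⟨T, hT⟩ : ∃ T : Finset (Finset V), T = if s ⊆ F j then itv (s ∪ (F j \ R j)) (F j) else ∅ := ⟨_, rfl⟩
  have hTm : ∀ t, t ∈ T ↔ s ⊆ t ∧ F j \ R j ⊆ t ∧ t ⊆ F j := by
    intro t
    rw [hT]
    by_cases hs : s ⊆ F j
    · rw [if_pos hs, itv, mem_filter]
      constructor
      · rintro ⟨-, h1, h2⟩
        exact ⟨subset_union_left.trans h1, subset_union_right.trans h1, h2⟩
      · rintro ⟨h1, h2, h3⟩
        exact ⟨mem_univ _, union_subset h1 h2, h3⟩
    · rw [if_neg hs]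
      constructor
      · intro h1
        exact absurd h1 (notMem_empty t)
      · rintro ⟨h1, h2, h3⟩
        exact absurd (h1.trans h3) hs
  have hun : SH10_I F R s j = SH10_I F R s (j + 1) ∪ T := by
    ext t
    rw [mem_union, SH10_mem, SH10_mem, hTm]
    constructor
    · rintro ⟨h1, k, hk1, hk2, hk3⟩
      rcases Nat.lt_or_eq_of_le hk1 with hk | hk
      · exact Or.inl ⟨h1, k, hk, hk2, hk3⟩
      · have hjk : j = k := Fin.ext hk
        rw [← hjk] at hk2 hk3
        exact Or.inr ⟨h1, hk2, hk3⟩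
    · rintro (⟨h1, k, hk1, hk2, hk3⟩ | ⟨h1, h2, h3⟩)
      · exact ⟨h1, k, by omega, hk2, hk3⟩
      · exact ⟨h1, j, le_rfl, h2, h3⟩
  have hTa : RAcyc T n := by
    rw [hT]
    by_cases hs : s ⊆ F j
    · rw [if_pos hs]
      have hsub : s ∪ (F j \ R j) ⊆ F j := union_subset hs sdiff_subset
      rcases eq_or_ssubset_of_subset hsub with he | hlt
      · refine acyc_size n fun t ht => ?_
        rw [he, itv, mem_filter] at ht
        have : t = F j := subset_antisymm ht.2.2 ht.2.1
        rw [this, h.card]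
        omega
      · exact acyc_itv hlt n
    · rw [if_neg hs]
      exact acyc_empty n
  have hconv := SH10_conv h s j
  rw [hun] at hconv ⊢
  refine acyc_union ?_ hconv ?_ n ih hTa
  · rw [disjoint_left]
    intro t ht1 ht2
    rw [SH10_mem] at ht1
    rw [hTm] at ht2
    obtain ⟨-, k, hk1, -, hk3⟩ := ht1
    have h1 := last_facet h j t ht2.2.1 ht2.2.2 k hk3
    rw [Fin.le_def] at h1
    omega
  · intro t ht1 v _ ht2
    rw [SH10_mem] at ht1
    rw [hTm] at ht2
    obtain ⟨-, k, hk1, -, hk3⟩ := ht1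
    have h1 := last_facet h j _ ht2.2.1 ht2.2.2 k ((erase_subset v t).trans hk3)
    rw [Fin.le_def] at h1
    omega

theorem acyc_int {d : ℕ} {D : Finset (Finset V)} {K : ℕ} {F R : Fin K → Finset V}
    (h : Sh d D K F R) (s : Finset V) (n : ℕ) (hn : n < d) :
    RAcyc (up (D \ Bd d D F) s) n := by
  have hind : ∀ m, m ≤ K → RAcyc (SH10_I F R s (K - m)) n := by
    intro m
    induction m with
    | zero =>
      intro _
      have h0 : SH10_I F R s (K - 0) = ∅ := by
        rw [eq_empty_iff_forall_notMem]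
        intro t ht
        rw [SH10_mem] at ht
        obtain ⟨-, k, hk1, -⟩ := ht
        have := k.2
        omega
      rw [h0]
      exact acyc_empty n
    | succ m ih =>
      intro hm
      have h1 := ih (by omega)
      have h2 : K - m = (K - (m + 1)) + 1 := by omega
      rw [h2] at h1
      exact SH10_step h s n hn ⟨K - (m + 1), by omega⟩ h1
  have h1 := hind K le_rfl
  rw [Nat.sub_self] at h1
  have h2 : up (D \ Bd d D F) s = SH10_I F R s 0 := by
    ext t
    rw [SH10_mem, up, mem_filter, int_iff h]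
    constructor
    · rintro ⟨⟨k, hk1, hk2⟩, h3⟩
      exact ⟨h3, k, Nat.zero_le _, hk1, hk2⟩
    · rintro ⟨h3, k, -, hk1, hk2⟩
      exact ⟨⟨k, hk1, hk2⟩, h3⟩
  rw [h2]
  exact h1

end Pool.LibHM88
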