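import Pool.Agent.LibHM88.SH7

/-
PLAN (SH8, MEDIUM). one s u := 1 if s ⊆ u, u in D, card u = d, else 0 (the sum of all facets containing s). A chain c of size d on up D s or on up (D \ Bd) s is supported on the F k with s ⊆ F k (facets are not in Bd: the elements of Bd have card <= d - 1). hc of const_facets: a ridge t contained in F i and F k (i < k) is in exactly these
two facets (two), so t is not in Bd (the only t' of card d - 1 containing t is t), and bdry c t = c (F i) + c (F k) (ridge_bdry, filter = {i, k}) = 0 (t in the family: s ⊆ t): c (F i) = c (F k) in ZMod 2. So c is constant on the facets containing s: c = 0 or c = one s (values in ZMod 2: 0 or 1; Fin 2 decide). top_zero: the ridge t of Bd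
containing s is in exactly one facet F k: bdry c t = c (F k) = 0. Cycle: for a ridge t in D containing s that is in exactly two facets, bdry (one s) t = 1 + 1 = 0; a t with card t != d - 1 has bdry (one s) t = 0. t in D, so at least one facet; not in Bd: not exactly one.
-/

set_option autoImplicit false

namespace Pool.LibHM88

open Pool.Agent.LibHB64 Finset

variable {V : Type*} [Fintype V] [DecidableEq V]

/-- the sum of all facets containing `s` -/
noncomputable def one (d : ℕ) (D : Finset (Finset V)) (s : Finset V) : Finset V → ZMod 2 :=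
  fun u => if s ⊆ u ∧ u ∈ D ∧ u.card = d then 1 else 0

private theorem sh8_facet {d : ℕ} {D : Finset (Finset V)} {K : ℕ} {F R : Fin K → Finset V}
    (h : Sh d D K F R) {u : Finset V} (hu : u ∈ D) (hc : u.card = d) : ∃ k, u = F k := by
  obtain ⟨k, hk⟩ := (h.mem u).1 hu
  exact ⟨k, Finset.eq_of_subset_of_card_le hk (by rw [h.card k, hc])⟩

private theorem sh8_mem {d : ℕ} {D : Finset (Finset V)} {K : ℕ} {F R : Fin K → Finset V}
    (h : Sh d D K F R) (k : Fin K) : F k ∈ D := (h.mem _).2 ⟨k, Finset.Subset.refl _⟩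

private theorem sh8_bd {d : ℕ} {D : Finset (Finset V)} {K : ℕ} {F : Fin K → Finset V}
    {t : Finset V} (ht : t ∈ Bd d D F) (hc : t.card = d - 1) :
    (univ.filter fun k => t ⊆ F k).card = 1 := by
  obtain ⟨_, t', h1, h2, h3⟩ := Finset.mem_filter.1 ht
  have h4 : t = t' := Finset.eq_of_subset_of_card_le h1 (by rw [h2, hc])
  rw [h4]
  exact h3

private theorem sh8_not_bd {d : ℕ} {D : Finset (Finset V)} {K : ℕ} {F R : Fin K → Finset V}
    (h : Sh d D K F R) {u : Finset V} (hc : u.card = d) : u ∉ Bd d D F := by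
  intro hu
  obtain ⟨_, t', h1, h2, _⟩ := Finset.mem_filter.1 hu
  have h3 := Finset.card_le_card h1
  have h4 := h.pos
  omega

private theorem sh8_rc {d : ℕ} {D : Finset (Finset V)} (s : Finset V) : RC D d (one d D s) := by
  intro t ht
  unfold one at ht
  by_cases h : s ⊆ t ∧ t ∈ D ∧ t.card = d
  · exact h.2
  · rw [if_neg h] at ht
    exact absurd rfl ht

/-- boundary of the sum of all facets containing `s` -/
private theorem sh8_bdry_one {d : ℕ} {D : Finset (Finset V)} {K : ℕ} {F R : Fin K → Finset V}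
    (h : Sh d D K F R) (s t : Finset V) (ht : t ∈ D) (hst : s ⊆ t) :
    bdry (one d D s) t = if t ∈ Bd d D F ∧ t.card = d - 1 then 1 else 0 := by
  by_cases hc : t.card = d - 1
  · rw [ridge_bdry h (sh8_rc s) hc]
    have h1 : ∑ k ∈ univ.filter (fun k => t ⊆ F k), one d D s (F k) =
        ((univ.filter fun k => t ⊆ F k).card : ZMod 2) := by
      rw [Finset.card_eq_sum_ones, Nat.cast_sum]
      refine Finset.sum_congr rfl fun k hk => ?_
      have hk' := (Finset.mem_filter.1 hk).2
      unfold one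
      rw [if_pos ⟨hst.trans hk', sh8_mem h k, h.card k⟩, Nat.cast_one]
    rw [h1]
    have h2 := h.two t hc
    have h3 : 0 < (univ.filter fun k => t ⊆ F k).card := by
      obtain ⟨k, hk⟩ := (h.mem t).1 ht
      exact Finset.card_pos.2 ⟨k, Finset.mem_filter.2 ⟨Finset.mem_univ _, hk⟩⟩
    by_cases hb : t ∈ Bd d D F
    · rw [if_pos ⟨hb, hc⟩, sh8_bd hb hc, Nat.cast_one]
    · rw [if_neg (fun h' => hb h'.1)]
      have h4 : (univ.filter fun k => t ⊆ F k).card ≠ 1 := by
        intro h5
        exact hb (Finset.mem_filter.2 ⟨ht, t, Finset.Subset.refl _, hc, h5⟩)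
      have h5 : (univ.filter fun k => t ⊆ F k).card = 2 := by omega
      rw [h5]
      rfl
  · rw [if_neg (fun h' => hc h'.2)]
    unfold bdry
    refine Finset.sum_eq_zero fun v hv => ?_
    have hv' : v ∉ t := Finset.mem_compl.1 hv
    have h1 : (insert v t).card = t.card + 1 := Finset.card_insert_of_notMem hv'
    have h2 := h.pos
    unfold one
    rw [if_neg]
    intro h3
    omega

private theorem sh8_top_int {d : ℕ} {D : Finset (Finset V)} {K : ℕ} {F R : Fin K → Finset V}
    (h : Sh d D K F R) (s : Finset V) (c : Finset V → ZMod 2)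
    (hc : RC (up (D \ Bd d D F) s) d c) (hz : RCyc (up (D \ Bd d D F) s) c) :
    (∀ u, c u = 0) ∨ ∀ u, c u = one d D s u := by
  have hupm : ∀ u, u ∈ up (D \ Bd d D F) s ↔ (u ∈ D ∧ u ∉ Bd d D F) ∧ s ⊆ u := by
    intro u
    unfold up
    rw [Finset.mem_filter, Finset.mem_sdiff]
  have hcD : RC D d c := by
    intro t ht
    have h1 := hc t ht
    exact ⟨((hupm t).1 h1.1).1.1, h1.2⟩
  have hconst := const_facets h s c (by
    intro i k hik t htc hst hti htk
    have hi : i ∈ univ.filter fun k => t ⊆ F k := Finset.mem_filter.2 ⟨Finset.mem_univ _, hti⟩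
    have hk : k ∈ univ.filter fun k => t ⊆ F k := Finset.mem_filter.2 ⟨Finset.mem_univ _, htk⟩
    have hsub : ({i, k} : Finset (Fin K)) ⊆ univ.filter fun k => t ⊆ F k := by
      intro a ha
      rcases Finset.mem_insert.1 ha with rfl | ha
      · exact hi
      · rw [Finset.mem_singleton.1 ha]
        exact hk
    have hpair : ({i, k} : Finset (Fin K)).card = 2 := Finset.card_pair (ne_of_lt hik)
    have heq : ({i, k} : Finset (Fin K)) = univ.filter fun k => t ⊆ F k :=
      Finset.eq_of_subset_of_card_le hsub (by rw [hpair]; exact h.two t htc)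
    have htD : t ∈ D := (h.mem t).2 ⟨i, hti⟩
    have htB : t ∉ Bd d D F := by
      intro hb
      have h1 := sh8_bd hb htc
      rw [← heq, hpair] at h1
      omega
    have h2 := hz t ((hupm t).2 ⟨⟨htD, htB⟩, hst⟩)
    rw [ridge_bdry h hcD htc, ← heq, Finset.sum_pair (ne_of_lt hik)] at h2
    exact CharTwo.add_eq_zero.1 h2)
  by_cases hall : ∀ u, c u = 0
  · exact Or.inl hall
  · refine Or.inr ?_
    push Not at hall
    obtain ⟨u0, hu0⟩ := hall
    have h1 := hc u0 hu0
    have h2 := (hupm u0).1 h1.1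
    obtain ⟨k0, hk0⟩ := sh8_facet h h2.1.1 h1.2
    have h01 : ∀ x : ZMod 2, x ≠ 0 → x = 1 := by decide
    have h3 : c (F k0) = 1 := by
      rw [← hk0]
      exact h01 _ hu0
    intro u
    unfold one
    by_cases hu : s ⊆ u ∧ u ∈ D ∧ u.card = d
    · rw [if_pos hu]
      obtain ⟨k, hk⟩ := sh8_facet h hu.2.1 hu.2.2
      rw [hk, hconst k k0 (by rw [← hk]; exact hu.1) (by rw [← hk0]; exact h2.2), h3]
    · rw [if_neg hu]
      by_contra hne
      have h4 := hc u hne
      have h5 := (hupm u).1 h4.1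
      exact hu ⟨h5.2, h5.1.1, h4.2⟩

private theorem sh8_rc_up {d : ℕ} {D : Finset (Finset V)} {K : ℕ} {F R : Fin K → Finset V}
    (h : Sh d D K F R) {s : Finset V} {c : Finset V → ZMod 2} (hc : RC (up D s) d c) :
    RC (up (D \ Bd d D F) s) d c := by
  intro t ht
  have h1 := hc t ht
  unfold up at h1 ⊢
  rw [Finset.mem_filter] at h1 ⊢
  rw [Finset.mem_sdiff]
  exact ⟨⟨⟨h1.1.1, sh8_not_bd h h1.2⟩, h1.1.2⟩, h1.2⟩

private theorem sh8_cyc_up {d : ℕ} {D : Finset (Finset V)} {K : ℕ} {F : Fin K → Finset V}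
    {s : Finset V} {c : Finset V → ZMod 2} (hc : RCyc (up D s) c) :
    RCyc (up (D \ Bd d D F) s) c := by
  intro t ht
  refine hc t ?_
  unfold up at ht ⊢
  rw [Finset.mem_filter] at ht ⊢
  exact ⟨(Finset.mem_sdiff.1 ht.1).1, ht.2⟩

theorem top_zero {d : ℕ} {D : Finset (Finset V)} {K : ℕ} {F R : Fin K → Finset V}
    (h : Sh d D K F R) (s : Finset V) (hs : s ∈ Bd d D F) : RTopZero (up D s) d := by
  intro c hc hz
  rcases sh8_top_int h s c (sh8_rc_up h hc) (sh8_cyc_up hz) with h1 | h1
  · exact h1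
  · exfalso
    obtain ⟨_, t, h2, h3, h4⟩ := Finset.mem_filter.1 hs
    have h5 : (univ.filter fun k => t ⊆ F k).Nonempty := by
      rw [← Finset.card_pos, h4]
      exact Nat.one_pos
    obtain ⟨k, hk⟩ := h5
    have htD : t ∈ D := (h.mem t).2 ⟨k, (Finset.mem_filter.1 hk).2⟩
    have htB : t ∈ Bd d D F := Finset.mem_filter.2 ⟨htD, t, Finset.Subset.refl _, h3, h4⟩
    have h6 := hz t (by
      unfold up
      exact Finset.mem_filter.2 ⟨htD, h2⟩)
    have h7 : c = one d D s := funext h1
    rw [h7, sh8_bdry_one h s t htD h2, if_pos ⟨htB, h3⟩] at h6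
    exact one_ne_zero h6

theorem top_one {d : ℕ} {D : Finset (Finset V)} {K : ℕ} {F R : Fin K → Finset V}
    (h : Sh d D K F R) (s : Finset V) (hs : s ∈ D) (hs' : s ∉ Bd d D F) :
    RTopOne (up D s) d := by
  refine ⟨one d D s, ?_, ?_, ?_, ?_⟩
  · intro t ht
    unfold one at ht
    by_cases h' : s ⊆ t ∧ t ∈ D ∧ t.card = d
    · refine ⟨?_, h'.2.2⟩
      unfold up
      exact Finset.mem_filter.2 ⟨h'.2.1, h'.1⟩
    · rw [if_neg h'] at ht
      exact absurd rfl ht
  · intro t ht
    unfold up at ht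
    rw [Finset.mem_filter] at ht
    rw [sh8_bdry_one h s t ht.1 ht.2, if_neg]
    rintro ⟨hb, _⟩
    obtain ⟨_, t', h1, h2, h3⟩ := Finset.mem_filter.1 hb
    exact hs' (Finset.mem_filter.2 ⟨hs, t', ht.2.trans h1, h2, h3⟩)
  · obtain ⟨k, hk⟩ := (h.mem s).1 hs
    refine ⟨F k, ?_⟩
    unfold one
    rw [if_pos ⟨hk, sh8_mem h k, h.card k⟩]
    exact one_ne_zero
  · intro c hc hz
    exact sh8_top_int h s c (sh8_rc_up h hc) (sh8_cyc_up hz)

/-- top cycles of the interior -/
theorem top_int {d : ℕ} {D : Finset (Finset V)} {K : ℕ} {F R : Fin K → Finset V}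
    (h : Sh d D K F R) (s : Finset V) (c : Finset V → ZMod 2)
    (hc : RC (up (D \ Bd d D F) s) d c) (hz : RCyc (up (D \ Bd d D F) s) c) :
    (∀ u, c u = 0) ∨ ∀ u, c u = one d D s u :=
  sh8_top_int h s c hc hz

/-- boundary of the sum of all facets containing `s` -/
theorem bdry_one {d : ℕ} {D : Finset (Finset V)} {K : ℕ} {F R : Fin K → Finset V}
    (h : Sh d D K F R) (s t : Finset V) (ht : t ∈ D) (hst : s ⊆ t) :
    bdry (one d D s) t = if t ∈ Bd d D F ∧ t.card = d - 1 then 1 else 0 :=
  sh8_bdry_one h s t ht hst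

end Pool.LibHM88
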