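import Pool.Agent.LibHM88.SH10
import Pool.Agent.LibHM88.SH8

/-
PLAN (SH11, MEDIUM). B := Bd, I := D \ B; up D s = up B s ∪ up I s, closed: t in B implies t.erase v in B. A chain c on up B s with bdry c = 0 on up B s has bdry c = 0 on up D s (for t in I, insert v t in B would give t in B). acyc_bd (n + 1 < d): b on up D s with bdry b = c on up D s (acyc_pre with j = K, pre_last); b2 := b on up I s is a cycle of up I s
(bdry b t = c t = 0 for t in I, the part of b on B contributes 0); e on up I s with bdry e = b2 on up I s (acyc_int, n + 1 < d); b' := b + res (bdry e) to up D s is supported on up B s, bdry b' = c on up B s (bdry_res, Conv (up D s)).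
top_bd (size d - 1): z u := if u in up B s and card u = d - 1 then 1 else 0. By bdry_one z = bdry (one s) on up D s, so bdry z = 0 on up D s (bdry_res applied to one s). z != 0: the ridge of Bd containing s. A cycle c on up B s of size d - 1: b on up D s of size d with bdry b = c on up D s (acyc_pre, d - 1 < d); b is a chain on up I s
(facets are not in B) and a cycle there (c = 0 on I), so b = 0 or b = one s (top_int): c = 0 or c = z.
-/

set_option autoImplicit false

namespace Pool.LibHM88

open Pool.Agent.LibHB64 Finset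

variable {V : Type*} [Fintype V] [DecidableEq V]

private theorem SH11_down {d : ℕ} {D : Finset (Finset V)} {K : ℕ} {F R : Fin K → Finset V}
    (h : Sh d D K F R) {a t : Finset V} (hat : a ⊆ t) (ht : t ∈ D) : a ∈ D := by
  obtain ⟨k, hk⟩ := (h.mem t).1 ht
  exact (h.mem a).2 ⟨k, hat.trans hk⟩

private theorem SH11_sub {d : ℕ} {D : Finset (Finset V)} {K : ℕ} {F R : Fin K → Finset V}
    (h : Sh d D K F R) {a t : Finset V} (hat : a ⊆ t) (ht : t ∈ Bd d D F) : a ∈ Bd d D F := by
  rw [Bd, mem_filter] at ht ⊢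
  obtain ⟨htD, r, h1, h2, h3⟩ := ht
  exact ⟨SH11_down h hat htD, r, hat.trans h1, h2, h3⟩

private theorem SH11_BD {d : ℕ} {D : Finset (Finset V)} {K : ℕ} {F : Fin K → Finset V} {t : Finset V}
    (ht : t ∈ Bd d D F) : t ∈ D := (mem_filter.1 ht).1

private theorem SH11_conv {d : ℕ} {D : Finset (Finset V)} {K : ℕ} {F R : Fin K → Finset V}
    (h : Sh d D K F R) (s : Finset V) : Conv (up D s) := by
  intro a ha b hb t hat htb
  rw [up, mem_filter] at ha hb ⊢
  exact ⟨SH11_down h htb hb.1, ha.2.trans hat⟩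

private theorem SH11_add (b c : Finset V → ZMod 2) (t : Finset V) :
    bdry (fun u => b u + c u) t = bdry b t + bdry c t := by
  rw [bdry, bdry, bdry, ← sum_add_distrib]

private theorem SH11_ne {c : Finset V → ZMod 2} {t : Finset V} (h : bdry c t ≠ 0) :
    ∃ v, v ∉ t ∧ c (insert v t) ≠ 0 := by
  rw [bdry] at h
  obtain ⟨v, hv, hne⟩ := exists_ne_zero_of_sum_ne_zero h
  exact ⟨v, mem_compl.1 hv, hne⟩

/-- a relative cycle on the boundary is a relative cycle on the complex -/
private theorem SH11_cyc {d : ℕ} {D : Finset (Finset V)} {K : ℕ} {F R : Fin K → Finset V}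
    (h : Sh d D K F R) (s : Finset V) {n : ℕ} {c : Finset V → ZMod 2} (hc : RC (up (Bd d D F) s) n c)
    (hz : RCyc (up (Bd d D F) s) c) : RC (up D s) n c ∧ RCyc (up D s) c ∧ ∀ t, t ∉ Bd d D F → c t = 0 := by
  have h0 : ∀ t, t ∉ Bd d D F → c t = 0 := by
    intro t ht
    by_contra hne
    have h1 := (hc t hne).1
    rw [up, mem_filter] at h1
    exact ht h1.1
  refine ⟨fun t ht => ?_, fun t ht => ?_, h0⟩
  · obtain ⟨h1, h2⟩ := hc t ht
    rw [up, mem_filter] at h1 ⊢
    exact ⟨⟨SH11_BD h1.1, h1.2⟩, h2⟩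
  · rw [up, mem_filter] at ht
    by_cases htB : t ∈ Bd d D F
    · apply hz
      rw [up, mem_filter]
      exact ⟨htB, ht.2⟩
    · by_contra hne
      obtain ⟨v, _, hv⟩ := SH11_ne hne
      apply hv
      apply h0
      intro h1
      exact htB (SH11_sub h (subset_insert v t) h1)

theorem acyc_bd {d : ℕ} {D : Finset (Finset V)} {K : ℕ} {F R : Fin K → Finset V}
    (h : Sh d D K F R) (s : Finset V) (n : ℕ) (hn : n + 1 < d) :
    RAcyc (up (Bd d D F) s) n := by
  intro c hc hz
  obtain ⟨hcD, hzD, hc0⟩ := SH11_cyc h s hc hz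
  have hpre := acyc_pre h K s n (by omega)
  rw [pre_last h] at hpre
  obtain ⟨b, hb, hbc⟩ := hpre c hcD hzD
  obtain ⟨b2, hb2⟩ : ∃ b2 : Finset V → ZMod 2, b2 = fun u => if u ∈ up (D \ Bd d D F) s then b u else 0 := ⟨_, rfl⟩
  have hb2RC : RC (up (D \ Bd d D F) s) (n + 1) b2 := by
    intro t ht
    rw [hb2] at ht
    by_cases h1 : t ∈ up (D \ Bd d D F) s
    · refine ⟨h1, (hb t ?_).2⟩
      simpa [h1] using ht
    · simp [h1] at ht
  have hb2cyc : RCyc (up (D \ Bd d D F) s) b2 := by
    intro t ht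
    have ht' := ht
    rw [up, mem_filter, mem_sdiff] at ht'
    have h1 : bdry b2 t = bdry b t := by
      rw [bdry, bdry]
      refine sum_congr rfl fun v _ => ?_
      rw [hb2]
      by_cases h2 : insert v t ∈ up (D \ Bd d D F) s
      · exact if_pos h2
      · change (if insert v t ∈ up (D \ Bd d D F) s then b (insert v t) else 0) = b (insert v t)
        rw [if_neg h2]
        by_contra hne
        have h3 := (hb _ (Ne.symm hne)).1
        rw [up, mem_filter] at h3
        apply h2
        rw [up, mem_filter, mem_sdiff]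
        refine ⟨⟨h3.1, fun h4 => ?_⟩, h3.2⟩
        exact ht'.1.2 (SH11_sub h (subset_insert v t) h4)
    have h5 : t ∈ up D s := by
      rw [up, mem_filter]
      exact ⟨ht'.1.1, ht'.2⟩
    rw [h1, hbc t h5]
    exact hc0 t ht'.1.2
  obtain ⟨e, he, heb⟩ := acyc_int h s (n + 1) hn b2 hb2RC hb2cyc
  refine ⟨fun u => b u + (if u ∈ up D s then bdry e u else 0), ?_, ?_⟩
  · intro u hu
    change b u + (if u ∈ up D s then bdry e u else 0) ≠ 0 at hu
    have huD : u ∈ up D s := by
      by_contra h1
      rw [if_neg h1, add_zero] at hu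
      exact h1 (hb u hu).1
    rw [if_pos huD] at hu
    have huB : u ∈ Bd d D F := by
      by_contra h1
      have h2 : u ∈ up (D \ Bd d D F) s := by
        rw [up, mem_filter] at huD ⊢
        rw [mem_sdiff]
        exact ⟨⟨huD.1, h1⟩, huD.2⟩
      apply hu
      rw [heb u h2, hb2]
      change b u + (if u ∈ up (D \ Bd d D F) s then b u else 0) = 0
      rw [if_pos h2]
      exact CharTwo.add_self_eq_zero _
    refine ⟨?_, ?_⟩
    · rw [up, mem_filter] at huD ⊢
      exact ⟨huB, huD.2⟩
    · by_cases h1 : b u = 0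
      · rw [h1, zero_add] at hu
        obtain ⟨v, hv, hne⟩ := SH11_ne hu
        have h2 := (he _ hne).2
        rw [card_insert_of_notMem hv] at h2
        omega
      · exact (hb u h1).2
  · intro t ht
    have htD : t ∈ up D s := by
      rw [up, mem_filter] at ht ⊢
      exact ⟨SH11_BD ht.1, ht.2⟩
    rw [SH11_add, hbc t htD, bdry_res (SH11_conv h s) ?_ htD, add_zero]
    intro u hu
    have h1 := (he u hu).1
    rw [up, mem_filter, mem_sdiff] at h1
    rw [up, mem_filter]
    exact ⟨h1.1.1, h1.2⟩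

theorem top_bd {d : ℕ} {D : Finset (Finset V)} {K : ℕ} {F R : Fin K → Finset V}
    (h : Sh d D K F R) (s : Finset V) (hs : s ∈ Bd d D F) : RTopOne (up (Bd d D F) s) (d - 1) := by
  have hpos := h.pos
  obtain ⟨z, hz⟩ : ∃ z : Finset V → ZMod 2, z = fun u => if u ∈ up (Bd d D F) s ∧ u.card = d - 1 then 1 else 0 :=
    ⟨_, rfl⟩
  have hzres : z = fun u => if u ∈ up D s then bdry (one d D s) u else 0 := by
    funext u
    rw [hz]
    change (if u ∈ up (Bd d D F) s ∧ u.card = d - 1 then (1 : ZMod 2) else 0) = if u ∈ up D s then bdry (one d D s) u else 0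
    by_cases h1 : u ∈ up D s
    · have h2 := h1
      rw [up, mem_filter] at h2
      rw [if_pos h1, bdry_one h s u h2.1 h2.2]
      by_cases h3 : u ∈ Bd d D F ∧ u.card = d - 1
      · rw [if_pos h3, if_pos]
        rw [up, mem_filter]
        exact ⟨⟨h3.1, h2.2⟩, h3.2⟩
      · rw [if_neg h3, if_neg]
        rintro ⟨h4, h5⟩
        rw [up, mem_filter] at h4
        exact h3 ⟨h4.1, h5⟩
    · rw [if_neg h1, if_neg]
      rintro ⟨h4, h5⟩
      rw [up, mem_filter] at h4
      apply h1
      rw [up, mem_filter]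
      exact ⟨SH11_BD h4.1, h4.2⟩
  refine ⟨z, ?_, ?_, ?_, ?_⟩
  · intro t ht
    rw [hz] at ht
    by_cases h1 : t ∈ up (Bd d D F) s ∧ t.card = d - 1
    · exact h1
    · exact absurd (if_neg h1) ht
  · intro t ht
    have htD : t ∈ up D s := by
      rw [up, mem_filter] at ht ⊢
      exact ⟨SH11_BD ht.1, ht.2⟩
    rw [hzres]
    refine bdry_res (SH11_conv h s) (fun u hu => ?_) htD
    rw [one] at hu
    by_cases h1 : s ⊆ u ∧ u ∈ D ∧ u.card = d
    · rw [up, mem_filter]
      exact ⟨h1.2.1, h1.1⟩
    · exact absurd (if_neg h1) hu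
  · rw [Bd, mem_filter] at hs
    obtain ⟨hsD, r, h1, h2, h3⟩ := hs
    refine ⟨r, ?_⟩
    rw [hz]
    change (if r ∈ up (Bd d D F) s ∧ r.card = d - 1 then (1 : ZMod 2) else 0) ≠ 0
    rw [if_pos]
    · exact one_ne_zero
    · refine ⟨?_, h2⟩
      rw [up, mem_filter, Bd, mem_filter]
      refine ⟨⟨?_, r, subset_rfl, h2, h3⟩, h1⟩
      have h4 : (univ.filter fun k => r ⊆ F k).Nonempty := by
        rw [← card_pos, h3]
        exact one_pos
      obtain ⟨k, hk⟩ := h4
      exact (h.mem r).2 ⟨k, (mem_filter.1 hk).2⟩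
  · intro c hc hzc
    obtain ⟨hcD, hzD, hc0⟩ := SH11_cyc h s hc hzc
    have hpre := acyc_pre h K s (d - 1) (by omega)
    rw [pre_last h] at hpre
    obtain ⟨b, hb, hbc⟩ := hpre c hcD hzD
    rw [Nat.sub_add_cancel hpos] at hb
    have hbRC : RC (up (D \ Bd d D F) s) d b := by
      intro u hu
      obtain ⟨h1, h2⟩ := hb u hu
      refine ⟨?_, h2⟩
      rw [up, mem_filter] at h1 ⊢
      rw [mem_sdiff]
      refine ⟨⟨h1.1, fun h3 => ?_⟩, h1.2⟩
      rw [Bd, mem_filter] at h3
      obtain ⟨-, r, h4, h5, -⟩ := h3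
      have := card_le_card h4
      omega
    have hbcyc : RCyc (up (D \ Bd d D F) s) b := by
      intro t ht
      rw [up, mem_filter, mem_sdiff] at ht
      have h5 : t ∈ up D s := by
        rw [up, mem_filter]
        exact ⟨ht.1.1, ht.2⟩
      rw [hbc t h5]
      exact hc0 t ht.1.2
    have hout : ∀ t, t ∉ up D s → c t = 0 := by
      intro t ht
      by_contra hne
      exact ht (hcD t hne).1
    rcases top_int h s b hbRC hbcyc with hb0 | hb1
    · left
      intro t
      by_cases ht : t ∈ up D s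
      · rw [← hbc t ht, bdry]
        exact sum_eq_zero fun v _ => hb0 _
      · exact hout t ht
    · right
      intro t
      rw [hzres]
      change c t = if t ∈ up D s then bdry (one d D s) t else 0
      by_cases ht : t ∈ up D s
      · rw [if_pos ht, ← hbc t ht, bdry, bdry]
        exact sum_congr rfl fun v _ => hb1 _
      · rw [if_neg ht]
        exact hout t ht

end Pool.LibHM88
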