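import Pool.Agent.LibHM88.SD

/-
PLAN (SH4, MEDIUM). Chains c on lk X s of size n correspond to chains c' on up X s of size n + card s: c' u := if s ⊆ u then c (u \ s) else 0, c t = c' (s ∪ t) for t disjoint from s (and c t = 0 if t is not disjoint from s or s ∪ t not in X). For t disjoint from s: bdry c t = bdry c' (s ∪ t) (the v in s contribute 0 on the left side
because insert v t is not disjoint from s; the v not in s ∪ t correspond, (insert v (s ∪ t)) \ s = insert v t). For t not disjoint from s: bdry c t = 0. For u containing s and not in X: bdry c' u = 0 since X is closed under subsets. lk X s = {t in X : Disjoint s t, s ∪ t in X}. Note: t in lk needs t in X: automatic.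
-/

set_option autoImplicit false

namespace Pool.LibHM88

open Pool.Agent.LibHB64 Finset

variable {V : Type*} [Fintype V] [DecidableEq V]

private def sh4L (s : Finset V) (c : Finset V → ZMod 2) : Finset V → ZMod 2 :=
  fun u => if s ⊆ u then c (u \ s) else 0

private def sh4R (s : Finset V) (c : Finset V → ZMod 2) : Finset V → ZMod 2 :=
  fun t => if Disjoint s t then c (s ∪ t) else 0

private theorem sh4L_union {s t : Finset V} (h : Disjoint s t) (c : Finset V → ZMod 2) :
    sh4L s c (s ∪ t) = c t := by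
  unfold sh4L
  rw [if_pos subset_union_left, union_sdiff_cancel_left h]

private theorem sh4R_of {s t : Finset V} (h : Disjoint s t) (c : Finset V → ZMod 2) :
    sh4R s c t = c (s ∪ t) := by
  unfold sh4R
  rw [if_pos h]

private theorem sh4R_not {s t : Finset V} (h : ¬ Disjoint s t) (c : Finset V → ZMod 2) :
    sh4R s c t = 0 := by
  unfold sh4R
  rw [if_neg h]

private theorem sh4_not_disj {s t : Finset V} {v : V} (hv : v ∈ s) : ¬ Disjoint s (insert v t) := by
  intro h
  exact (disjoint_left.1 h hv) (mem_insert_self v t)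

private theorem sh4_disj {s t : Finset V} (h : Disjoint s t) {v : V} (hv : v ∈ (s ∪ t)ᶜ) :
    Disjoint s (insert v t) := by
  rw [mem_compl, mem_union, not_or] at hv
  rw [disjoint_insert_right]
  exact ⟨hv.1, h⟩

private theorem sh4_sub (s t : Finset V) : (s ∪ t)ᶜ ⊆ tᶜ := by
  intro v hv
  rw [mem_compl, mem_union, not_or] at hv
  rw [mem_compl]
  exact hv.2

private theorem sh4_bdL {s t : Finset V} (h : Disjoint s t) (c : Finset V → ZMod 2)
    (hc : ∀ t, c t ≠ 0 → Disjoint s t) : bdry (sh4L s c) (s ∪ t) = bdry c t := by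
  unfold bdry
  rw [← sum_subset (sh4_sub s t)]
  · refine sum_congr rfl fun v hv => ?_
    rw [← union_insert, sh4L_union (sh4_disj h hv)]
  · intro v hv hv'
    by_contra hne
    have h1 := hc _ hne
    have hvs : v ∈ s := by
      by_contra hns
      apply hv'
      rw [mem_compl, mem_union, not_or]
      exact ⟨hns, mem_compl.1 hv⟩
    exact sh4_not_disj hvs h1

private theorem sh4_bdR {s t : Finset V} (h : Disjoint s t) (c : Finset V → ZMod 2) :
    bdry (sh4R s c) t = bdry c (s ∪ t) := by
  unfold bdry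
  rw [← sum_subset (sh4_sub s t)]
  · refine sum_congr rfl fun v hv => ?_
    rw [sh4R_of (sh4_disj h hv), union_insert]
  · intro v hv hv'
    have hvs : v ∈ s := by
      by_contra hns
      apply hv'
      rw [mem_compl, mem_union, not_or]
      exact ⟨hns, mem_compl.1 hv⟩
    exact sh4R_not (sh4_not_disj hvs) c

private theorem sh4_bdR_not {s t : Finset V} (h : ¬ Disjoint s t) (c : Finset V → ZMod 2) :
    bdry (sh4R s c) t = 0 := by
  unfold bdry
  refine sum_eq_zero fun v _ => sh4R_not ?_ c
  intro h1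
  rw [disjoint_insert_right] at h1
  exact h h1.2

private theorem sh4_chain_disj {X : Finset (Finset V)} {s : Finset V} {n : ℕ} {c : Finset V → ZMod 2}
    (hc : IsChain (lk X s) n c) : ∀ t, c t ≠ 0 → Disjoint s t := by
  intro t ht
  have h1 := (hc t ht).1
  unfold lk at h1
  exact (mem_filter.1 h1).2.1

private theorem sh4_RC {X : Finset (Finset V)} {s : Finset V} {n : ℕ} {c : Finset V → ZMod 2}
    (hc : IsChain (lk X s) n c) : RC (up X s) (n + s.card) (sh4L s c) := by
  intro u hu
  unfold sh4L at hu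
  by_cases hs : s ⊆ u
  · rw [if_pos hs] at hu
    obtain ⟨h1, h2⟩ := hc _ hu
    unfold lk at h1
    have h3 := (mem_filter.1 h1).2.2
    rw [union_sdiff_of_subset hs] at h3
    refine ⟨mem_filter.2 ⟨h3, hs⟩, ?_⟩
    rw [card_sdiff_of_subset hs] at h2
    have := card_le_card hs
    omega
  · rw [if_neg hs] at hu
    exact absurd rfl hu

private theorem sh4_RCyc {X : Finset (Finset V)} {s : Finset V} {n : ℕ} {c : Finset V → ZMod 2}
    (hc : IsChain (lk X s) n c) (hz : ∀ t, bdry c t = 0) : RCyc (up X s) (sh4L s c) := by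
  intro u hu
  have hs : s ⊆ u := (mem_filter.1 hu).2
  have h1 := sh4_bdL (disjoint_sdiff (s := s) (t := u)) c (sh4_chain_disj hc)
  rw [union_sdiff_of_subset hs] at h1
  rw [h1]
  exact hz _

private theorem sh4_chain {X : Finset (Finset V)} (hX : IsCx X) {s : Finset V} {n m : ℕ}
    {c : Finset V → ZMod 2} (hc : RC (up X s) m c) (hm : m = n + s.card) :
    IsChain (lk X s) n (sh4R s c) := by
  intro t ht
  by_cases hd : Disjoint s t
  · rw [sh4R_of hd] at ht
    obtain ⟨h1, h2⟩ := hc _ ht
    have h3 := (mem_filter.1 h1).1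
    refine ⟨mem_filter.2 ⟨hX.2 _ h3 _ subset_union_right, hd, h3⟩, ?_⟩
    rw [card_union_of_disjoint hd] at h2
    omega
  · rw [sh4R_not hd] at ht
    exact absurd rfl ht

private theorem sh4_out {X : Finset (Finset V)} (hX : IsCx X) {s : Finset V} {m : ℕ}
    {c : Finset V → ZMod 2} (hc : RC (up X s) m c) {u : Finset V} (hu : u ∉ X) : bdry c u = 0 := by
  unfold bdry
  refine sum_eq_zero fun v _ => ?_
  by_contra hne
  exact hu (hX.2 _ (mem_filter.1 (hc _ hne).1).1 _ (subset_insert _ _))

private theorem sh4_cyc {X : Finset (Finset V)} (hX : IsCx X) {s : Finset V} {m : ℕ}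
    {c : Finset V → ZMod 2} (hc : RC (up X s) m c) (hz : RCyc (up X s) c) (t : Finset V) :
    bdry (sh4R s c) t = 0 := by
  by_cases hd : Disjoint s t
  · rw [sh4_bdR hd]
    by_cases hu : s ∪ t ∈ X
    · exact hz _ (mem_filter.2 ⟨hu, subset_union_left⟩)
    · exact sh4_out hX hc hu
  · exact sh4_bdR_not hd c

theorem acyc_lk {X : Finset (Finset V)} (hX : IsCx X) {s : Finset V} (hs : s ∈ X) {n : ℕ}
    (h : RAcyc (up X s) (n + s.card)) : Acyc (lk X s) n := by
  intro c hc hz
  obtain ⟨b, hb1, hb2⟩ := h _ (sh4_RC hc) (sh4_RCyc hc hz)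
  refine ⟨sh4R s b, sh4_chain hX hb1 (by omega), fun t => ?_⟩
  by_cases hd : Disjoint s t
  · rw [sh4_bdR hd]
    by_cases hu : s ∪ t ∈ X
    · rw [hb2 _ (mem_filter.2 ⟨hu, subset_union_left⟩), sh4L_union hd]
    · rw [sh4_out hX hb1 hu]
      by_contra hne
      have h1 := (hc t (fun h0 => hne h0.symm)).1
      unfold lk at h1
      exact hu (mem_filter.1 h1).2.2
  · rw [sh4_bdR_not hd]
    by_contra hne
    exact hd (sh4_chain_disj hc t (fun h0 => hne h0.symm))

theorem topZero_lk {X : Finset (Finset V)} (hX : IsCx X) {s : Finset V} (hs : s ∈ X) {n : ℕ}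
    (h : RTopZero (up X s) (n + s.card)) : TopZero (lk X s) n := by
  intro c hc hz t
  by_contra hne
  have hd := sh4_chain_disj hc t hne
  have h1 := h _ (sh4_RC hc) (sh4_RCyc hc hz) (s ∪ t)
  rw [sh4L_union hd] at h1
  exact hne h1

theorem topOne_lk {X : Finset (Finset V)} (hX : IsCx X) {s : Finset V} (hs : s ∈ X) {n : ℕ}
    (h : RTopOne (up X s) (n + s.card)) : TopOne (lk X s) n := by
  obtain ⟨z, hz1, hz2, ⟨u, hu⟩, hz3⟩ := h
  refine ⟨sh4R s z, sh4_chain hX hz1 rfl, sh4_cyc hX hz1 hz2, ⟨u \ s, ?_⟩, fun c hc hcz => ?_⟩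
  · have hsu : s ⊆ u := (mem_filter.1 (hz1 _ hu).1).2
    rw [sh4R_of disjoint_sdiff, union_sdiff_of_subset hsu]
    exact hu
  · have hnd : ∀ t, ¬ Disjoint s t → c t = 0 := by
      intro t ht
      by_contra hne
      exact ht (sh4_chain_disj hc t hne)
    rcases hz3 _ (sh4_RC hc) (sh4_RCyc hc hcz) with h1 | h1
    · left
      intro t
      by_cases hd : Disjoint s t
      · have h2 := h1 (s ∪ t)
        rwa [sh4L_union hd] at h2
      · exact hnd t hd
    · right
      intro t
      by_cases hd : Disjoint s t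
      · have h2 := h1 (s ∪ t)
        rw [sh4L_union hd] at h2
        rw [sh4R_of hd]
        exact h2
      · rw [hnd t hd, sh4R_not hd]

end Pool.LibHM88
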