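import Pool.Agent.LibHM88.SD

/-
PLAN (SH5, SHORT/MEDIUM). K := l.length, F k := l.get k (l[k]), R chosen from shell. inj from nodup (List.nodup_iff_injective_get). two: the number of k in Fin K with s ⊆ l[k] is the length of l.filter (List.countP / List.length_filter, Finset.card of filter over Fin; or: l.filter is nodup with toFinset = image of the filter).
mem, card: List.mem_iff_get.
-/

set_option autoImplicit false

namespace Pool.LibHM88

open Pool.Agent.LibHB64 Finset

variable {V : Type*} [Fintype V] [DecidableEq V]

theorem sh_of_shellBall {d : ℕ} {D : Finset (Finset V)} {l : List (Finset V)}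
    (h : ShellBall d D l) : ∃ R : Fin l.length → Finset V, Sh d D l.length (fun k => l.get k) R := by
  choose R hR1 hR2 hR3 using fun k : Fin l.length => h.shell k.1 k.2
  have hinj : Function.Injective fun k : Fin l.length => l.get k :=
    List.nodup_iff_injective_get.1 h.nodup
  refine ⟨R, h.pos, ?_, ?_, hinj, hR1, ?_, ?_, ?_⟩
  · exact List.length_pos_of_ne_nil h.ne
  · intro k
    exact h.card _ (List.get_mem l k)
  · intro k s hs
    rw [← hR3 k s hs]
    constructor
    · rintro ⟨i, hi, his⟩
      exact ⟨i.1, hi, his⟩
    · rintro ⟨i, hi, his⟩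
      exact ⟨⟨i, hi.trans k.2⟩, hi, his⟩
  · intro s hs
    refine le_trans ?_ (h.two s hs)
    rw [← Finset.card_image_of_injective _ hinj]
    refine le_trans (Finset.card_le_card ?_) (List.toFinset_card_le _)
    intro F hF
    obtain ⟨k, hk, rfl⟩ := Finset.mem_image.1 hF
    rw [List.mem_toFinset, List.mem_filter]
    exact ⟨List.get_mem l k, by simpa using (Finset.mem_filter.1 hk).2⟩
  · intro s
    rw [h.mem s]
    constructor
    · rintro ⟨F, hF, hs⟩
      obtain ⟨k, rfl⟩ := List.mem_iff_get.1 hF
      exact ⟨k, hs⟩
    · rintro ⟨k, hs⟩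
      exact ⟨_, List.get_mem l k, hs⟩

end Pool.LibHM88
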