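import Pool.Agent.LibHM88.SH11
import Pool.Agent.LibHM88.SH4
import Pool.Agent.LibHM88.SH5

/-
PLAN (SH12, SHORT/MEDIUM). Assembly. obtain l, R, Sh. B := Bd. cx: IsCx D (mem). card: s ⊆ F k. sub: filter. bd: top_zero with topZero_lk (d - card s + card s = d). int: top_one. acyc: acyc_pre (j = K, pre_last) + acyc_lk, n + card s < d. sph: IsCx B: the empty set is in B: the last facet F k (k = K - 1), v in F k \ R k,
(F k).erase v is in no earlier facet (shell: it contains R k): exactly one; closed under subsets. card <= d - 1. links: for s in B: acyc_bd + acyc_lk for n < d - 1 - card s, top_bd + topOne_lk.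
-/

set_option autoImplicit false

namespace Pool.LibHM88

open Pool.Agent.LibHB64 Finset

variable {V : Type*} [Fintype V] [DecidableEq V]

private theorem SH12_cx {d : ℕ} {D : Finset (Finset V)} {K : ℕ} {F R : Fin K → Finset V}
    (h : Sh d D K F R) : IsCx D := by
  refine ⟨(h.mem ∅).2 ⟨⟨0, h.Kpos⟩, Finset.empty_subset _⟩, ?_⟩
  intro s hs t ht
  obtain ⟨k, hk⟩ := (h.mem s).1 hs
  exact (h.mem t).2 ⟨k, ht.trans hk⟩

private theorem SH12_bdcx {d : ℕ} {D : Finset (Finset V)} {K : ℕ} {F R : Fin K → Finset V}
    (h : Sh d D K F R) : IsCx (Bd d D F) := by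
  have hD := SH12_cx h
  constructor
  · rw [Bd, Finset.mem_filter]
    refine ⟨hD.1, ?_⟩
    have hK := h.Kpos
    set k : Fin K := ⟨K - 1, by omega⟩ with hk
    obtain ⟨v, hvF, hvR⟩ := Finset.exists_of_ssubset (h.sub k)
    refine ⟨(F k).erase v, Finset.empty_subset _, ?_, ?_⟩
    · rw [Finset.card_erase_of_mem hvF, h.card k]
    · have : (univ.filter fun i => (F k).erase v ⊆ F i) = {k} := by
        ext i
        rw [Finset.mem_filter, Finset.mem_singleton]
        constructor
        · rintro ⟨_, hi⟩
          by_contra hne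
          have hlt : i < k := by
            rw [Fin.lt_def]
            have h1 : (i : ℕ) ≠ (k : ℕ) := fun h => hne (Fin.ext h)
            have h2 := i.2
            simp only [hk] at h1 ⊢
            omega
          have h3 := (h.shell k ((F k).erase v) (Finset.erase_subset _ _)).1 ⟨i, hlt, hi⟩
          apply h3
          intro x hx
          exact Finset.mem_erase.2 ⟨fun hh => hvR (hh ▸ hx), (h.sub k).1 hx⟩
        · rintro rfl
          exact ⟨Finset.mem_univ _, Finset.erase_subset _ _⟩
      rw [this, Finset.card_singleton]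
  · intro s hs t ht
    rw [Bd, Finset.mem_filter] at hs ⊢
    obtain ⟨u, hu1, hu2, hu3⟩ := hs.2
    exact ⟨hD.2 s hs.1 t ht, u, ht.trans hu1, hu2, hu3⟩

/-- shellable balls are homology balls over the field with two elements -/
theorem sh_hball {d : ℕ} {D : Finset (Finset V)} (h : ShBall d D) : HBall d D := by
  obtain ⟨l, hl⟩ := h
  obtain ⟨R, hR⟩ := sh_of_shellBall hl
  set F : Fin l.length → Finset V := fun k => l.get k with hF
  have hD := SH12_cx hR
  have hB := SH12_bdcx hR
  have hcard : ∀ s ∈ D, s.card ≤ d := by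
    intro s hs
    obtain ⟨k, hk⟩ := (hR.mem s).1 hs
    rw [← hR.card k]
    exact Finset.card_le_card hk
  have hBcard : ∀ s ∈ Bd d D F, s.card ≤ d - 1 := by
    intro s hs
    rw [Bd, Finset.mem_filter] at hs
    obtain ⟨t, ht1, ht2, _⟩ := hs.2
    rw [← ht2]
    exact Finset.card_le_card ht1
  have hpos := hR.pos
  have hac : ∀ s n, n < d → RAcyc (up D s) n := by
    intro s n hn
    have := acyc_pre hR l.length s n hn
    rwa [pre_last hR] at this
  refine ⟨Bd d D F, ?_⟩
  refine { pos := hpos, cx := hD, card := hcard, sub := Finset.filter_subset _ _, sph := ?_, acyc := ?_, bd := ?_, int := ?_ }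
  · refine ⟨hB, hBcard, ?_⟩
    intro s hs
    have hsc := hBcard s hs
    constructor
    · intro n hn
      apply acyc_lk hB hs
      exact acyc_bd hR s _ (by omega)
    · apply topOne_lk hB hs
      rw [Nat.sub_add_cancel hsc]
      exact top_bd hR s hs
  · intro s hs n hn
    apply acyc_lk hD hs
    exact hac s _ (by omega)
  · intro s hs
    have hsD : s ∈ D := (Finset.mem_filter.1 hs).1
    apply topZero_lk hD hsD
    rw [Nat.sub_add_cancel (hcard s hsD)]
    exact top_zero hR s hs
  · intro s hs hs'
    apply topOne_lk hD hs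
    rw [Nat.sub_add_cancel (hcard s hs)]
    exact top_one hR s hs hs'

end Pool.LibHM88
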