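import Pool.Agent.LibHM88.SD

/-
PLAN (SH2, SHORT/MEDIUM). v in F, v not in A. b t := if v in t and t in itv A F then c (t.erase v) else 0. For t in the interval: v not in t: only w = v contributes: bdry b t = b (insert v t) = c t. v in t: bdry b t = SUM_(w not in t) c ((insert w t).erase v)
(for insert w t not in the interval, w not in F, c of it is 0 too) = SUM_(w not in t) c (insert w (t.erase v)) = bdry c (t.erase v) - c (insert v (t.erase v)) = 0 + c t in ZMod 2; t.erase v is in the interval because v is not in A.
-/

set_option autoImplicit false

namespace Pool.LibHM88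

open Pool.Agent.LibHB64 Finset

variable {V : Type*} [Fintype V] [DecidableEq V]

/-- intervals are acyclic -/
theorem acyc_itv {A F : Finset V} (h : A ⊂ F) (n : ℕ) : RAcyc (itv A F) n := by
  intro c hc hz
  obtain ⟨v, hvF, hvA⟩ := Finset.exists_of_ssubset h
  have hmem : ∀ t, t ∈ itv A F ↔ A ⊆ t ∧ t ⊆ F := by
    intro t
    simp [itv]
  refine ⟨fun t => if v ∈ t ∧ t ∈ itv A F then c (t.erase v) else 0, ?_, ?_⟩
  · intro t ht
    by_cases hv : v ∈ t ∧ t ∈ itv A F
    · simp only [if_pos hv] at ht
      refine ⟨hv.2, ?_⟩
      have h1 := (hc _ ht).2
      rw [Finset.card_erase_of_mem hv.1] at h1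
      have : 0 < t.card := Finset.card_pos.2 ⟨v, hv.1⟩
      omega
    · simp only [if_neg hv] at ht
      exact absurd rfl ht
  · intro t ht
    have ht' := (hmem t).1 ht
    by_cases hvt : v ∈ t
    · -- v in t
      have herase : t.erase v ∈ itv A F := by
        rw [hmem]
        refine ⟨?_, (Finset.erase_subset _ _).trans ht'.2⟩
        intro x hx
        exact Finset.mem_erase.2 ⟨fun h => hvA (h ▸ hx), ht'.1 hx⟩
      have hz' := hz _ herase
      unfold bdry at hz' ⊢
      have hcompl : (t.erase v)ᶜ = insert v tᶜ := by
        ext x
        simp only [Finset.mem_compl, Finset.mem_erase, Finset.mem_insert]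
        tauto
      rw [hcompl, Finset.sum_insert (by simpa using hvt), Finset.insert_erase hvt] at hz'
      have h3 : ∑ w ∈ tᶜ, (if v ∈ insert w t ∧ insert w t ∈ itv A F then
          c ((insert w t).erase v) else 0) = ∑ w ∈ tᶜ, c (insert w (t.erase v)) := by
        apply Finset.sum_congr rfl
        intro w hw
        have hwt : w ∉ t := by simpa using hw
        have hwv : v ≠ w := fun h => hwt (h ▸ hvt)
        have he : (insert w t).erase v = insert w (t.erase v) :=
          Finset.erase_insert_of_ne hwv.symm
        by_cases hin : v ∈ insert w t ∧ insert w t ∈ itv A F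
        · rw [if_pos hin, he]
        · rw [if_neg hin]
          by_contra hne
          apply hin
          refine ⟨Finset.mem_insert_of_mem hvt, ?_⟩
          have h4 := (hmem _).1 (hc _ (Ne.symm hne)).1
          rw [hmem]
          refine ⟨ht'.1.trans (Finset.subset_insert _ _), ?_⟩
          intro x hx
          rw [Finset.mem_insert] at hx
          rcases hx with rfl | hx
          · exact h4.2 (Finset.mem_insert_self _ _)
          · exact ht'.2 hx
      rw [h3]
      have h5 : ∀ a b : ZMod 2, a + b = 0 → b = a := by decide
      exact h5 _ _ hz'
    · -- v not in t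
      unfold bdry
      rw [Finset.sum_eq_single v]
      · have hin : v ∈ insert v t ∧ insert v t ∈ itv A F := by
          refine ⟨Finset.mem_insert_self _ _, ?_⟩
          rw [hmem]
          refine ⟨ht'.1.trans (Finset.subset_insert _ _), ?_⟩
          intro x hx
          rw [Finset.mem_insert] at hx
          rcases hx with rfl | hx
          · exact hvF
          · exact ht'.2 hx
        simp only [if_pos hin, Finset.erase_insert hvt]
      · intro w hw hwv
        simp only
        rw [if_neg]
        rintro ⟨h1, _⟩
        rw [Finset.mem_insert] at h1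
        rcases h1 with h1 | h1
        · exact hwv h1.symm
        · exact hvt h1
      · intro hv
        exact absurd (by simpa using hvt) hv

end Pool.LibHM88
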