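import Pool.Agent.LibHM88.SH1

/-
PLAN (SH3, MEDIUM). Long exact sequence. c a chain on Y = Y1 ∪ Y2 with bdry c = 0 on Y. c2 := c restricted to Y2: for t in Y2, bdry c2 t = bdry c t (a vertex v with insert v t in Y1 would give (insert v t).erase v = t in Y2: excluded by hcl). So b2 on Y2 with bdry b2 = c2 on Y2.
c' u := if u in Y1 then c u + bdry b2 u else 0 is a chain of size n on Y1; it equals (c + res bdry b2) on all of Y (on Y2 the sum is 0), so bdry c' t = bdry c t + bdry (res bdry b2) t = 0 for t in Y1 (bdry_res for Y, size/support of b2). b1 on Y1 with bdry b1 = c' on Y1; b := b1 + b2: on Y2 bdry b1 = 0 (hcl)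
and bdry b2 = c; on Y1: c' + bdry b2 = c. (sizes: bdry b2 u != 0 implies card u = n.)
-/

set_option autoImplicit false

namespace Pool.LibHM88

open Pool.Agent.LibHB64 Finset

variable {V : Type*} [Fintype V] [DecidableEq V]

private theorem SH3_supp {Y : Finset (Finset V)} {n : ℕ} {b : Finset V → ZMod 2}
    (hb : RC Y (n + 1) b) {u : Finset V} (hu : bdry b u ≠ 0) :
    u.card = n ∧ ∃ v, v ∉ u ∧ insert v u ∈ Y := by
  unfold bdry at hu
  obtain ⟨v, hv, hne⟩ := Finset.exists_ne_zero_of_sum_ne_zero hu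
  have hvu : v ∉ u := by simpa using hv
  have h1 := hb _ hne
  rw [Finset.card_insert_of_notMem hvu] at h1
  exact ⟨by omega, v, hvu, h1.1⟩

private theorem SH3_add (a b : Finset V → ZMod 2) (t : Finset V) :
    bdry (fun u => a u + b u) t = bdry a t + bdry b t := by
  unfold bdry
  exact Finset.sum_add_distrib

/-- gluing -/
theorem acyc_union {Y1 Y2 : Finset (Finset V)} (hd : Disjoint Y1 Y2) (hY : Conv (Y1 ∪ Y2))
    (hcl : ∀ t ∈ Y1, ∀ v ∈ t, t.erase v ∉ Y2) (n : ℕ) (h1 : RAcyc Y1 n) (h2 : RAcyc Y2 n) :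
    RAcyc (Y1 ∪ Y2) n := by
  intro c hc hz
  have hdis : ∀ t, t ∈ Y1 → t ∉ Y2 := fun t ht ht' => Finset.disjoint_left.1 hd ht ht'
  -- boundaries of chains on Y1 vanish on Y2
  have hkey : ∀ a : Finset V → ZMod 2, (∀ t, a t ≠ 0 → t ∈ Y1) → ∀ t ∈ Y2, bdry a t = 0 := by
    intro a ha t ht
    unfold bdry
    apply Finset.sum_eq_zero
    intro v hv
    have hvt : v ∉ t := by simpa using hv
    by_contra hne
    have h3 := hcl _ (ha _ hne) v (Finset.mem_insert_self v t)
    rw [Finset.erase_insert hvt] at h3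
    exact h3 ht
  let c1 : Finset V → ZMod 2 := fun t => if t ∈ Y1 then c t else 0
  let c2 : Finset V → ZMod 2 := fun t => if t ∈ Y2 then c t else 0
  have hc12 : ∀ t, c t = c1 t + c2 t := by
    intro t
    simp only [c1, c2]
    by_cases ht1 : t ∈ Y1
    · rw [if_pos ht1, if_neg (hdis t ht1), add_zero]
    · by_cases ht2 : t ∈ Y2
      · rw [if_neg ht1, if_pos ht2, zero_add]
      · rw [if_neg ht1, if_neg ht2, add_zero]
        by_contra hne
        have := (hc t hne).1
        rw [Finset.mem_union] at this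
        exact this.elim ht1 ht2
  have hbc : ∀ t, bdry c t = bdry c1 t + bdry c2 t := by
    intro t
    rw [← SH3_add]
    congr 1
    funext u
    exact hc12 u
  have hc2 : RC Y2 n c2 := by
    intro t ht
    simp only [c2] at ht
    by_cases ht2 : t ∈ Y2
    · rw [if_pos ht2] at ht
      exact ⟨ht2, (hc t ht).2⟩
    · rw [if_neg ht2] at ht
      exact absurd rfl ht
  have hc1s : ∀ t, c1 t ≠ 0 → t ∈ Y1 := by
    intro t ht
    simp only [c1] at ht
    by_contra h
    rw [if_neg h] at ht
    exact ht rfl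
  have hz2 : RCyc Y2 c2 := by
    intro t ht
    have h3 := hz t (Finset.mem_union_right _ ht)
    rw [hbc t, hkey c1 hc1s t ht, zero_add] at h3
    exact h3
  obtain ⟨b2, hb2, hb2'⟩ := h2 c2 hc2 hz2
  -- restricted boundary of b2
  have hb2Y : ∀ t, b2 t ≠ 0 → t ∈ Y1 ∪ Y2 := fun t ht => Finset.mem_union_right _ (hb2 t ht).1
  let r : Finset V → ZMod 2 := fun u => if u ∈ Y1 ∪ Y2 then bdry b2 u else 0
  have hr : ∀ t ∈ Y1 ∪ Y2, bdry r t = 0 := fun t ht => bdry_res hY hb2Y ht
  let c' : Finset V → ZMod 2 := fun u => c u + r u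
  have hc' : RC Y1 n c' := by
    intro t ht
    by_cases ht2 : t ∈ Y2
    · exfalso
      apply ht
      simp only [c', r]
      rw [if_pos (Finset.mem_union_right _ ht2), hb2' t ht2, hc12 t]
      simp only [c1, c2]
      rw [if_neg (fun h => hdis t h ht2), if_pos ht2, zero_add]
      exact CharTwo.add_self_eq_zero _
    · by_cases hct : c t = 0
      · have hrt : r t ≠ 0 := by
          intro h
          apply ht
          simp only [c']
          rw [hct, h, add_zero]
        simp only [r] at hrt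
        by_cases htY : t ∈ Y1 ∪ Y2
        · rw [if_pos htY] at hrt
          refine ⟨?_, (SH3_supp hb2 hrt).1⟩
          rw [Finset.mem_union] at htY
          exact htY.resolve_right ht2
        · rw [if_neg htY] at hrt
          exact absurd rfl hrt
      · have h3 := hc t hct
        rw [Finset.mem_union] at h3
        exact ⟨h3.1.resolve_right ht2, h3.2⟩
  have hz' : RCyc Y1 c' := by
    intro t ht
    have htY : t ∈ Y1 ∪ Y2 := Finset.mem_union_left _ ht
    simp only [c']
    rw [SH3_add, hz t htY, hr t htY, add_zero]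
  obtain ⟨b1, hb1, hb1'⟩ := h1 c' hc' hz'
  refine ⟨fun u => b1 u + b2 u, ?_, ?_⟩
  · intro t ht
    by_cases h3 : b1 t = 0
    · have h4 : b2 t ≠ 0 := by
        intro h
        apply ht
        simp only
        rw [h3, h, add_zero]
      exact ⟨Finset.mem_union_right _ (hb2 t h4).1, (hb2 t h4).2⟩
    · exact ⟨Finset.mem_union_left _ (hb1 t h3).1, (hb1 t h3).2⟩
  · intro t ht
    rw [SH3_add]
    rcases Finset.mem_union.1 ht with ht1 | ht2
    · rw [hb1' t ht1]
      simp only [c', r]
      rw [if_pos ht, add_assoc, CharTwo.add_self_eq_zero, add_zero]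
    · rw [hkey b1 (fun u hu => (hb1 u hu).1) t ht2, zero_add, hb2' t ht2, hc12 t]
      simp only [c1]
      rw [if_neg (fun h => hdis t h ht2), zero_add]

theorem acyc_empty (n : ℕ) : RAcyc (∅ : Finset (Finset V)) n := by
  intro c hc hz
  refine ⟨fun _ => 0, fun t ht => absurd rfl ht, fun t ht => absurd ht (Finset.notMem_empty t)⟩

/-- no faces of size n -/
theorem acyc_size {Y : Finset (Finset V)} (n : ℕ) (h : ∀ t ∈ Y, t.card ≠ n) : RAcyc Y n := by
  intro c hc hz
  have hc0 : ∀ t, c t = 0 := by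
    intro t
    by_contra hne
    exact h t (hc t hne).1 (hc t hne).2
  refine ⟨fun _ => 0, fun t ht => absurd rfl ht, fun t ht => ?_⟩
  rw [hc0 t]
  unfold bdry
  simp

end Pool.LibHM88
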