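import Pool.Agent.LibHM88.SH2
import Pool.Agent.LibHM88.SH3

/-
PLAN (SH6, MEDIUM). Induction on j <= K. up (pre F 0) s = ∅. Step j -> j + 1 (facet F j): if s is not contained in F j nothing changes. Otherwise up (pre F (j+1)) s = up (pre F j) s ∪ itv (s ∪ R j) (F j), disjoint (shell: t ⊆ F j is in pre F j iff not R j ⊆ t). Conv: up of a family closed under subsets is
convex. hcl: t in pre F j, t.erase v in pre F j. The interval: if s ∪ R j = F j it is {F j}, acyc_size (card d != n); otherwise acyc_itv.
-/

set_option autoImplicit false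

namespace Pool.LibHM88

open Pool.Agent.LibHB64 Finset

variable {V : Type*} [Fintype V] [DecidableEq V]

private theorem SH6_mem_pre {K : ℕ} (F : Fin K → Finset V) (j : ℕ) (t : Finset V) :
    t ∈ pre F j ↔ ∃ k : Fin K, (k : ℕ) < j ∧ t ⊆ F k := by
  simp [pre]

theorem acyc_pre {d : ℕ} {D : Finset (Finset V)} {K : ℕ} {F R : Fin K → Finset V}
    (h : Sh d D K F R) (j : ℕ) (s : Finset V) (n : ℕ) (hn : n < d) : RAcyc (up (pre F j) s) n := by
  induction j with
  | zero =>
    have : up (pre F 0) s = ∅ := by
      ext t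
      simp [up, pre]
    rw [this]
    exact acyc_empty n
  | succ j ih =>
    by_cases hj : j < K
    · by_cases hs : s ⊆ F ⟨j, hj⟩
      · have hsucc : ∀ t, t ∈ pre F (j + 1) ↔ t ∈ pre F j ∨ t ⊆ F ⟨j, hj⟩ := by
          intro t
          rw [SH6_mem_pre, SH6_mem_pre]
          constructor
          · rintro ⟨k, hk, hkt⟩
            rcases Nat.lt_succ_iff_lt_or_eq.1 hk with h1 | h1
            · exact Or.inl ⟨k, h1, hkt⟩
            · refine Or.inr ?_
              have : k = ⟨j, hj⟩ := Fin.ext h1
              rwa [this] at hkt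
          · rintro (⟨k, hk, hkt⟩ | h1)
            · exact ⟨k, by omega, hkt⟩
            · exact ⟨⟨j, hj⟩, by simp, h1⟩
        have hsh : ∀ t, t ⊆ F ⟨j, hj⟩ → (t ∈ pre F j ↔ ¬ R ⟨j, hj⟩ ⊆ t) := by
          intro t ht
          rw [SH6_mem_pre, ← h.shell ⟨j, hj⟩ t ht]
          constructor
          · rintro ⟨k, hk, hkt⟩
            exact ⟨k, by rw [Fin.lt_def]; exact hk, hkt⟩
          · rintro ⟨k, hk, hkt⟩
            exact ⟨k, by rw [Fin.lt_def] at hk; exact hk, hkt⟩
        have hdown : ∀ i t u, t ∈ pre F i → u ⊆ t → u ∈ pre F i := by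
          intro i t u ht hu
          rw [SH6_mem_pre] at ht ⊢
          obtain ⟨k, hk, hkt⟩ := ht
          exact ⟨k, hk, hu.trans hkt⟩
        have hY : up (pre F (j + 1)) s = up (pre F j) s ∪ itv (s ∪ R ⟨j, hj⟩) (F ⟨j, hj⟩) := by
          ext t
          simp only [up, itv, mem_union, mem_filter, mem_univ, true_and, hsucc t, union_subset_iff]
          constructor
          · rintro ⟨h1 | h1, h2⟩
            · exact Or.inl ⟨h1, h2⟩
            · by_cases h3 : t ∈ pre F j
              · exact Or.inl ⟨h3, h2⟩
              · refine Or.inr ⟨⟨h2, ?_⟩, h1⟩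
                by_contra h4
                exact h3 ((hsh t h1).2 h4)
          · rintro (⟨h1, h2⟩ | ⟨⟨h1, h2⟩, h3⟩)
            · exact ⟨Or.inl h1, h2⟩
            · exact ⟨Or.inr h3, h1⟩
        have hit : ∀ t, t ∈ itv (s ∪ R ⟨j, hj⟩) (F ⟨j, hj⟩) → t ∉ pre F j := by
          intro t ht
          simp only [itv, mem_filter, mem_univ, true_and, union_subset_iff] at ht
          intro h1
          exact (hsh t ht.2).1 h1 ht.1.2
        have hconv : Conv (up (pre F (j + 1)) s) := by
          intro a ha b hb t hat htb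
          simp only [up, mem_filter] at ha hb ⊢
          exact ⟨hdown _ _ _ hb.1 htb, ha.2.trans hat⟩
        rw [hY] at hconv ⊢
        apply acyc_union _ hconv _ n ih
        · by_cases hA : s ∪ R ⟨j, hj⟩ ⊂ F ⟨j, hj⟩
          · exact acyc_itv hA n
          · have hsub : s ∪ R ⟨j, hj⟩ ⊆ F ⟨j, hj⟩ := union_subset hs (h.sub ⟨j, hj⟩).1
            have heq : s ∪ R ⟨j, hj⟩ = F ⟨j, hj⟩ := by
              by_contra hne
              exact hA (hsub.ssubset_of_ne hne)
            apply acyc_size
            intro t ht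
            simp only [itv, mem_filter, mem_univ, true_and] at ht
            rw [heq] at ht
            have : t = F ⟨j, hj⟩ := Subset.antisymm ht.2 ht.1
            rw [this, h.card]
            omega
        · rw [Finset.disjoint_left]
          intro t ht ht2
          exact hit t ht2 (mem_filter.1 ht).1
        · intro t ht v _ hv
          exact hit _ hv (hdown _ _ _ (mem_filter.1 ht).1 (erase_subset v t))
      · have : up (pre F (j + 1)) s = up (pre F j) s := by
          ext t
          simp only [up, mem_filter, SH6_mem_pre]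
          constructor
          · rintro ⟨⟨k, hk, hkt⟩, hst⟩
            refine ⟨⟨k, ?_, hkt⟩, hst⟩
            rcases Nat.lt_succ_iff_lt_or_eq.1 hk with h1 | h1
            · exact h1
            · exfalso
              have : k = ⟨j, hj⟩ := Fin.ext h1
              rw [this] at hkt
              exact hs (hst.trans hkt)
          · rintro ⟨⟨k, hk, hkt⟩, hst⟩
            exact ⟨⟨k, by omega, hkt⟩, hst⟩
        rw [this]
        exact ih
    · have : up (pre F (j + 1)) s = up (pre F j) s := by
        ext t
        simp only [up, mem_filter, SH6_mem_pre]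
        constructor
        · rintro ⟨⟨k, hk, hkt⟩, hst⟩
          exact ⟨⟨k, by have := k.2; omega, hkt⟩, hst⟩
        · rintro ⟨⟨k, hk, hkt⟩, hst⟩
          exact ⟨⟨k, by omega, hkt⟩, hst⟩
      rw [this]
      exact ih

theorem pre_last {d : ℕ} {D : Finset (Finset V)} {K : ℕ} {F R : Fin K → Finset V}
    (h : Sh d D K F R) : pre F K = D := by
  ext t
  rw [SH6_mem_pre, h.mem]
  constructor
  · rintro ⟨k, _, hkt⟩
    exact ⟨k, hkt⟩
  · rintro ⟨k, hkt⟩
    exact ⟨k, k.2, hkt⟩

end Pool.LibHM88
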