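import Pool.Agent.LibHM88.SD

/-
PLAN (SH7, SHORT/MEDIUM). const_facets: strong induction on the larger index: if F k contains s and some earlier facet contains s, then R k is not contained in s (shell), v in R k, v not in s, (F k).erase v does not contain R k, so it is contained in an earlier F i (shell), s ⊆ (F k).erase v ⊆ F i:
c (F i) = c (F k) (hc with t = (F k).erase v, card d - 1). So every F k with s ⊆ F k has the value of the first facet containing s. ridge_bdry: the sets insert v t, v not in t, that are facets (c supported on sets of card d in D, i.e. on the F k: an element of D of card d is some F k) correspond to the k with t ⊆ F k.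
-/

set_option autoImplicit false

namespace Pool.LibHM88

open Pool.Agent.LibHB64 Finset

variable {V : Type*} [Fintype V] [DecidableEq V]

private theorem SH7_key {d : ℕ} {D : Finset (Finset V)} {K : ℕ} {F R : Fin K → Finset V}
    (h : Sh d D K F R) (s : Finset V) (c : Finset V → ZMod 2)
    (hc : ∀ i k : Fin K, i < k → ∀ t : Finset V, t.card = d - 1 → s ⊆ t → t ⊆ F i → t ⊆ F k →
      c (F i) = c (F k)) (k i : Fin K) (hik : i < k) (hi : s ⊆ F i) (hk : s ⊆ F k) :
    ∃ j, j < k ∧ s ⊆ F j ∧ c (F j) = c (F k) := by
  have h1 : ¬ R k ⊆ s := (h.shell k s hk).1 ⟨i, hik, hi⟩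
  obtain ⟨v, hv, hvs⟩ := Finset.not_subset.1 h1
  have hvF : v ∈ F k := (h.sub k).1 hv
  have h2 : ¬ R k ⊆ (F k).erase v := fun hh => by
    have := hh hv
    simp at this
  obtain ⟨j, hj, hjt⟩ := (h.shell k ((F k).erase v) (Finset.erase_subset _ _)).2 h2
  have hst : s ⊆ (F k).erase v := fun x hx =>
    Finset.mem_erase.2 ⟨fun hxv => hvs (hxv ▸ hx), hk hx⟩
  refine ⟨j, hj, hst.trans hjt, hc j k hj ((F k).erase v) ?_ hst hjt (Finset.erase_subset _ _)⟩
  rw [Finset.card_erase_of_mem hvF, h.card k]

theorem const_facets {d : ℕ} {D : Finset (Finset V)} {K : ℕ} {F R : Fin K → Finset V}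
    (h : Sh d D K F R) (s : Finset V) (c : Finset V → ZMod 2)
    (hc : ∀ i k : Fin K, i < k → ∀ t : Finset V, t.card = d - 1 → s ⊆ t → t ⊆ F i → t ⊆ F k →
      c (F i) = c (F k)) (i k : Fin K) (hi : s ⊆ F i) (hk : s ⊆ F k) : c (F i) = c (F k) := by
  have key : ∀ n : ℕ, ∀ i k : Fin K, (i : ℕ) < n → (k : ℕ) < n → s ⊆ F i → s ⊆ F k → c (F i) = c (F k) := by
    intro n
    induction n with
    | zero => intro i k hi; omega
    | succ n ih =>
      intro i k hin hkn hi hk
      rcases lt_trichotomy i k with hlt | heq | hgt
      · obtain ⟨j, hj, hsj, hcj⟩ := SH7_key h s c hc k i hlt hi hk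
        have hjn : (j : ℕ) < n := by
          have : (j : ℕ) < k := hj
          omega
        have hin' : (i : ℕ) < n := by
          have : (i : ℕ) < k := hlt
          omega
        exact (ih i j hin' hjn hi hsj).trans hcj
      · rw [heq]
      · obtain ⟨j, hj, hsj, hcj⟩ := SH7_key h s c hc i k hgt hk hi
        have hjn : (j : ℕ) < n := by
          have : (j : ℕ) < i := hj
          omega
        have hkn' : (k : ℕ) < n := by
          have : (k : ℕ) < i := hgt
          omega
        exact ((ih k j hkn' hjn hk hsj).trans hcj).symm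
  exact key K i k i.2 k.2 hi hk

/-- boundary of a chain of facets at a ridge -/
theorem ridge_bdry {d : ℕ} {D : Finset (Finset V)} {K : ℕ} {F R : Fin K → Finset V}
    (h : Sh d D K F R) {c : Finset V → ZMod 2} (hc : RC D d c) {t : Finset V}
    (ht : t.card = d - 1) : bdry c t = ∑ k ∈ univ.filter (fun k => t ⊆ F k), c (F k) := by
  classical
  have hpos := h.pos
  unfold bdry
  have h1 : ∀ v ∈ tᶜ, c (insert v t) = ∑ k : Fin K, if insert v t = F k then c (F k) else 0 := by
    intro v _
    by_cases h0 : c (insert v t) = 0
    · rw [h0]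
      symm
      apply Finset.sum_eq_zero
      intro k _
      split_ifs with hk
      · rw [← hk]; exact h0
      · rfl
    · obtain ⟨hD, hcard⟩ := hc _ h0
      obtain ⟨k, hk⟩ := (h.mem _).1 hD
      have hk' : insert v t = F k := Finset.eq_of_subset_of_card_le hk (by rw [h.card k, hcard])
      rw [Finset.sum_eq_single k]
      · rw [if_pos hk', hk']
      · intro j _ hj
        rw [if_neg]
        intro hh
        exact hj (h.inj (hh.symm.trans hk'))
      · intro hh
        exact absurd (Finset.mem_univ k) hh
  rw [Finset.sum_congr rfl h1, Finset.sum_comm, Finset.sum_filter]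
  refine Finset.sum_congr rfl fun k _ => ?_
  by_cases hk : t ⊆ F k
  · rw [if_pos hk]
    have hcard : (F k \ t).card = 1 := by
      rw [Finset.card_sdiff_of_subset hk, h.card k, ht]
      omega
    obtain ⟨w, hw⟩ := Finset.card_eq_one.1 hcard
    have hwm : w ∈ F k \ t := by rw [hw]; exact Finset.mem_singleton_self w
    rw [Finset.mem_sdiff] at hwm
    rw [Finset.sum_eq_single w]
    · rw [if_pos]
      apply Finset.eq_of_subset_of_card_le
      · exact Finset.insert_subset hwm.1 hk
      · rw [Finset.card_insert_of_notMem hwm.2, h.card k, ht]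
        omega
    · intro v hv hvw
      rw [if_neg]
      intro hh
      apply hvw
      have h2 : v ∈ F k \ t := by
        rw [Finset.mem_sdiff]
        refine ⟨?_, by simpa using hv⟩
        rw [← hh]
        exact Finset.mem_insert_self v t
      rw [hw, Finset.mem_singleton] at h2
      exact h2
    · intro hh
      exfalso
      apply hh
      rw [Finset.mem_compl]
      exact hwm.2
  · rw [if_neg hk]
    apply Finset.sum_eq_zero
    intro v _
    rw [if_neg]
    intro hh
    apply hk
    rw [← hh]
    exact Finset.subset_insert v t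

end Pool.LibHM88
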