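import Pool.Agent.LibHM88.SH6
import Pool.Agent.LibHM88.SH7

/-
PLAN (SH9, MEDIUM/STRONG). (1) Suppose F k \ R k ⊆ t ⊆ F k. In the initial part complex P = pre F (k+1) the family up P t is up (pre F k) t ∪ {F k} (t ∪ R k = F k; up (pre F k) t are the t' with not R k ⊆ t'; t' in itv t (F k) with R k ⊆ t' is F k). The chain x := indicator of F k has bdry x (restricted to up (pre F k) t) a cycle of size d - 1 there (bdry_bdry; all
ridges t' of F k containing t are in pre F k: t' = (F k).erase v with v not in t, so v in R k, shell), so by acyc_pre (size d - 1 < d) it is bdry b, b a chain of size d on up (pre F k) t; b + x is a chain of facets of P containing t with bdry = 0 on ALL t' ⊇ t; its value on F k is 1. For a ridge t' ⊇ t contained in some F i, i <= k: bdry at t' is the sum of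
(b + x)(F m) over m <= k with t' ⊆ F m. (2) b + x is constant on the facets F i, i <= k, containing t (same induction as const_facets inside the initial part; or: apply Sh for the truncated shelling, Fin (k+1)): it is 1 on all of them. So every ridge t' ⊇ t contained in some F i, i <= k, is contained in an even number >= 1, so exactly 2 (two) of the F m,
m <= k. (3) No later facet contains t: let m > k be the first one: by shell R m is not in t, v in R m \ t, (F m).erase v ⊆ F i, i < m, F i contains t so i <= k: the ridge (F m).erase v is in two facets of index <= k and in F m: contradiction to two. (4) So last_facet holds and all ridges containing t are in exactly two facets: t is not in Bd.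
int_iff, other direction: t in D, t not in Bd; k := the largest index with t ⊆ F k. v in F k \ R k, v not in t: the ridge (F k).erase v contains R k, so it is in no earlier facet; it contains t, so it is in no later facet: exactly one facet, t in Bd, contradiction.
-/

set_option autoImplicit false

namespace Pool.LibHM88

open Pool.Agent.LibHB64 Finset

variable {V : Type*} [Fintype V] [DecidableEq V]

/-- the chain of the first facets which contain `t` -/
private theorem SH9_key {d : ℕ} {D : Finset (Finset V)} {K : ℕ} {F R : Fin K → Finset V}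
    (h : Sh d D K F R) (k : Fin K) (t : Finset V) (h1 : F k \ R k ⊆ t) (h2 : t ⊆ F k) :
    ∃ z : Finset V → ZMod 2, RC D d z ∧ (∀ t', t ⊆ t' → bdry z t' = 0) ∧
      (∀ i, t ⊆ F i → z (F i) = 1) ∧ ∀ m, k < m → z (F m) = 0 := by
  classical
  have hpos := h.pos
  have hFne : ∀ i j : Fin K, F i ⊆ F j → i = j := by
    intro i j hij
    apply h.inj
    exact Finset.eq_of_subset_of_card_le hij (by rw [h.card, h.card])
  set U : Finset (Finset V) := up (pre F (k : ℕ)) t with hU
  have hmemU : ∀ t', t' ∈ U ↔ (∃ i : Fin K, i < k ∧ t' ⊆ F i) ∧ t ⊆ t' := by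
    intro t'
    rw [hU, up, pre, mem_filter, mem_filter]
    simp only [mem_univ, true_and]
    rfl
  let x : Finset V → ZMod 2 := fun s => if s = F k then 1 else 0
  have hx : ∀ t', t ⊆ t' → bdry x t' ≠ 0 → t' ∈ U ∧ t'.card = d - 1 := by
    intro t' ht' hb
    obtain ⟨v, hv, hne⟩ := Finset.exists_ne_zero_of_sum_ne_zero hb
    have hvt : v ∉ t' := by simpa using hv
    have hins : insert v t' = F k := by
      by_contra hc
      apply hne
      simp only [x, if_neg hc]
    have hcard : t'.card = d - 1 := by
      have := h.card k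
      rw [← hins, Finset.card_insert_of_notMem hvt] at this
      omega
    refine ⟨?_, hcard⟩
    rw [hmemU]
    refine ⟨?_, ht'⟩
    have hsub : t' ⊆ F k := by rw [← hins]; exact Finset.subset_insert v t'
    rw [h.shell k t' hsub]
    intro hR
    have hvR : v ∈ R k := by
      by_contra hvR
      have : v ∈ F k \ R k := by
        rw [Finset.mem_sdiff]
        exact ⟨by rw [← hins]; exact Finset.mem_insert_self v t', hvR⟩
      exact hvt (ht' (h1 this))
    exact hvt (hR hvR)
  let e : Finset V → ZMod 2 := fun s => if s ∈ U then bdry x s else 0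
  have he : ∀ t', t ⊆ t' → e t' = bdry x t' := by
    intro t' ht'
    simp only [e]
    split_ifs with hm
    · rfl
    · by_contra hc
      exact hm (hx t' ht' (fun h0 => hc h0.symm)).1
  have heRC : RC U (d - 1) e := by
    intro s hs
    simp only [e] at hs
    split_ifs at hs with hm
    · exact ⟨hm, (hx s ((hmemU s).mp hm).2 hs).2⟩
    · exact absurd rfl hs
  have heCyc : RCyc U e := by
    intro s hs
    have hts := ((hmemU s).mp hs).2
    have : bdry e s = bdry (bdry x) s := by
      unfold bdry
      apply Finset.sum_congr rfl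
      intro v _
      exact he (insert v s) (hts.trans (Finset.subset_insert v s))
    rw [this, bdry_bdry]
  obtain ⟨b, hbRC, hb⟩ := acyc_pre h (k : ℕ) t (d - 1) (by omega) e heRC heCyc
  have hbRC' : RC U d b := by
    have : d - 1 + 1 = d := by omega
    rw [this] at hbRC
    exact hbRC
  let z : Finset V → ZMod 2 := fun s => b s + x s
  have hzb : ∀ s, bdry z s = bdry b s + bdry x s := by
    intro s
    unfold bdry
    rw [← Finset.sum_add_distrib]
  have hz0 : ∀ t', t ⊆ t' → bdry z t' = 0 := by
    intro t' ht'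
    rw [hzb]
    by_cases hm : t' ∈ U
    · rw [hb t' hm, he t' ht', CharTwo.add_self_eq_zero]
    · have e1 : bdry x t' = 0 := by
        by_contra hc
        exact hm (hx t' ht' hc).1
      have e2 : bdry b t' = 0 := by
        by_contra hc
        obtain ⟨v, hv, hne⟩ := Finset.exists_ne_zero_of_sum_ne_zero hc
        obtain ⟨⟨i, hi, hsub⟩, _⟩ := (hmemU _).mp (hbRC' _ hne).1
        exact hm ((hmemU t').mpr ⟨⟨i, hi, (Finset.subset_insert v t').trans hsub⟩, ht'⟩)
      rw [e1, e2, add_zero]
  have hbF : ∀ m, k ≤ m → b (F m) = 0 := by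
    intro m hm
    by_contra hc
    obtain ⟨⟨i, hi, hsub⟩, _⟩ := (hmemU _).mp (hbRC' _ hc).1
    have := hFne m i hsub
    subst this
    exact absurd (lt_of_lt_of_le hi hm) (lt_irrefl _)
  have hzk : z (F k) = 1 := by
    simp only [z, x]
    rw [hbF k le_rfl, zero_add, if_pos trivial]
  have hzlate : ∀ m, k < m → z (F m) = 0 := by
    intro m hm
    simp only [z, x]
    rw [hbF m hm.le, if_neg, add_zero]
    intro hc
    exact absurd (h.inj hc) hm.ne'
  have hzRC : RC D d z := by
    intro s hs
    by_cases hsk : s = F k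
    · subst hsk
      exact ⟨(h.mem _).mpr ⟨k, Finset.Subset.refl _⟩, h.card k⟩
    · have : z s = b s := by simp only [z, x, if_neg hsk, add_zero]
      rw [this] at hs
      obtain ⟨⟨⟨i, hi, hsub⟩, _⟩, hc⟩ := And.intro ((hmemU _).mp (hbRC' _ hs).1) (hbRC' _ hs).2
      exact ⟨(h.mem _).mpr ⟨i, hsub⟩, hc⟩
  -- the values on the first facets
  have two_eq : ∀ i j : Fin K, i ≠ j → ∀ t' : Finset V, t'.card = d - 1 → t' ⊆ F i → t' ⊆ F j →
      (univ.filter fun m => t' ⊆ F m) = {i, j} := by
    intro i j hij t' hc hi hj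
    symm
    apply Finset.eq_of_subset_of_card_le
    · intro m hm
      rw [Finset.mem_insert, Finset.mem_singleton] at hm
      rw [Finset.mem_filter]
      rcases hm with rfl | rfl
      · exact ⟨mem_univ _, hi⟩
      · exact ⟨mem_univ _, hj⟩
    · rw [Finset.card_pair hij]
      exact h.two t' hc
  have step : ∀ i j : Fin K, i ≠ j → ∀ t' : Finset V, t'.card = d - 1 → t ⊆ t' → t' ⊆ F i →
      t' ⊆ F j → z (F i) = z (F j) := by
    intro i j hij t' hc htt hi hj
    have e1 := ridge_bdry h hzRC hc
    rw [hz0 t' htt, two_eq i j hij t' hc hi hj, Finset.sum_pair hij] at e1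
    have e2 : z (F i) + z (F j) = 0 := e1.symm
    calc z (F i) = z (F i) + (z (F j) + z (F j)) := by rw [CharTwo.add_self_eq_zero, add_zero]
      _ = (z (F i) + z (F j)) + z (F j) := by ring
      _ = z (F j) := by rw [e2, zero_add]
  -- there is a first facet containing `t`
  obtain ⟨i0, hi0, hmin⟩ : ∃ i0 : Fin K, t ⊆ F i0 ∧ ∀ i, t ⊆ F i → i0 ≤ i := by
    have hne : (univ.filter fun i : Fin K => t ⊆ F i).Nonempty := ⟨k, by simp [h2]⟩
    refine ⟨(univ.filter fun i : Fin K => t ⊆ F i).min' hne, ?_, ?_⟩
    · have := Finset.min'_mem _ hne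
      exact (Finset.mem_filter.mp this).2
    · intro i hi
      exact Finset.min'_le _ _ (by simp [hi])
  have hconst : ∀ n : ℕ, ∀ i : Fin K, (i : ℕ) = n → t ⊆ F i → z (F i) = z (F i0) := by
    intro n
    induction n using Nat.strong_induction_on with
    | _ n ih =>
      intro i hin hti
      by_cases hii : i = i0
      · rw [hii]
      · have hlt : i0 < i := lt_of_le_of_ne (hmin i hti) (Ne.symm hii)
        have hR : ¬ R i ⊆ t := (h.shell i t hti).mp ⟨i0, hlt, hi0⟩
        obtain ⟨v, hvR, hvt⟩ := Finset.not_subset.mp hR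
        have hvF : v ∈ F i := (h.sub i).1 hvR
        have hsub : (F i).erase v ⊆ F i := Finset.erase_subset _ _
        obtain ⟨j, hj, hsj⟩ := (h.shell i ((F i).erase v) hsub).mpr
          (fun hc => Finset.notMem_erase v (F i) (hc hvR))
        have hte : t ⊆ (F i).erase v := fun w hw =>
          Finset.mem_erase.mpr ⟨fun hwv => hvt (hwv ▸ hw), hti hw⟩
        have hcard : ((F i).erase v).card = d - 1 := by
          rw [Finset.card_erase_of_mem hvF, h.card]
        rw [step i j hj.ne' ((F i).erase v) hcard hte hsub hsj]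
        exact ih (j : ℕ) (by rw [← hin]; exact hj) j rfl (hte.trans hsj)
  have hval : ∀ i, t ⊆ F i → z (F i) = 1 := by
    intro i hi
    rw [hconst _ i rfl hi, ← hconst _ k rfl h2, hzk]
  exact ⟨z, hzRC, hz0, hval, hzlate⟩

/-- if `F k - R k` is contained in `t` then `F k` is the last facet containing `t` -/
theorem last_facet {d : ℕ} {D : Finset (Finset V)} {K : ℕ} {F R : Fin K → Finset V}
    (h : Sh d D K F R) (k : Fin K) (t : Finset V) (h1 : F k \ R k ⊆ t) (h2 : t ⊆ F k)
    (m : Fin K) (hm : t ⊆ F m) : m ≤ k := by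
  obtain ⟨z, -, -, hz1, hz0⟩ := SH9_key h k t h1 h2
  by_contra hc
  have e1 := hz1 m hm
  rw [hz0 m (not_le.mp hc)] at e1
  exact absurd e1 (by decide)

/-- the interior faces -/
theorem int_iff {d : ℕ} {D : Finset (Finset V)} {K : ℕ} {F R : Fin K → Finset V}
    (h : Sh d D K F R) (t : Finset V) :
    t ∈ D \ Bd d D F ↔ ∃ k, F k \ R k ⊆ t ∧ t ⊆ F k := by
  classical
  constructor
  · intro ht
    obtain ⟨htD, htB⟩ := Finset.mem_sdiff.mp ht
    obtain ⟨k0, hk0⟩ := (h.mem t).mp htD
    have hne : (univ.filter fun i : Fin K => t ⊆ F i).Nonempty := ⟨k0, by simp [hk0]⟩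
    obtain ⟨k, hk, hmax⟩ : ∃ k : Fin K, t ⊆ F k ∧ ∀ i, t ⊆ F i → i ≤ k := by
      refine ⟨(univ.filter fun i : Fin K => t ⊆ F i).max' hne, ?_, ?_⟩
      · exact (Finset.mem_filter.mp (Finset.max'_mem _ hne)).2
      · intro i hi
        exact Finset.le_max' _ _ (by simp [hi])
    refine ⟨k, ?_, hk⟩
    intro v hv
    obtain ⟨hvF, hvR⟩ := Finset.mem_sdiff.mp hv
    by_contra hvt
    apply htB
    rw [Bd, Finset.mem_filter]
    refine ⟨htD, (F k).erase v, ?_, ?_, ?_⟩
    · intro w hw
      exact Finset.mem_erase.mpr ⟨fun hwv => hvt (hwv ▸ hw), hk hw⟩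
    · rw [Finset.card_erase_of_mem hvF, h.card]
    · have : (univ.filter fun m => (F k).erase v ⊆ F m) = {k} := by
        ext m
        rw [Finset.mem_filter, Finset.mem_singleton]
        constructor
        · rintro ⟨_, hm⟩
          have hte : t ⊆ (F k).erase v := fun w hw =>
            Finset.mem_erase.mpr ⟨fun hwv => hvt (hwv ▸ hw), hk hw⟩
          have hle : m ≤ k := hmax m (hte.trans hm)
          by_contra hne'
          have hlt : m < k := lt_of_le_of_ne hle hne'
          have := (h.shell k ((F k).erase v) (Finset.erase_subset _ _)).mp ⟨m, hlt, hm⟩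
          apply this
          intro w hw
          exact Finset.mem_erase.mpr ⟨fun hwv => hvR (hwv ▸ hw), (h.sub k).1 hw⟩
        · rintro rfl
          exact ⟨mem_univ _, Finset.erase_subset _ _⟩
      rw [this, Finset.card_singleton]
  · rintro ⟨k, h1, h2⟩
    obtain ⟨z, hzRC, hzc, hz1, -⟩ := SH9_key h k t h1 h2
    rw [Finset.mem_sdiff]
    refine ⟨(h.mem t).mpr ⟨k, h2⟩, ?_⟩
    intro hB
    rw [Bd, Finset.mem_filter] at hB
    obtain ⟨_, t', htt, hcard, hone⟩ := hB
    obtain ⟨j, hj⟩ := Finset.card_eq_one.mp hone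
    have e1 := ridge_bdry h hzRC hcard
    rw [hzc t' htt, hj, Finset.sum_singleton] at e1
    have hjm : t' ⊆ F j := by
      have : j ∈ univ.filter (fun k => t' ⊆ F k) := by rw [hj]; exact Finset.mem_singleton_self j
      exact (Finset.mem_filter.mp this).2
    rw [hz1 j (htt.trans hjm)] at e1
    exact absurd e1 (by decide)

end Pool.LibHM88
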